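import Pool.Agent.Helper870.MV.Defs

set_option autoImplicit false
set_option linter.unusedSectionVars false

open Finset MeasureTheory

noncomputable section

-- USES:
namespace MV

instance P_prob : IsProbabilityMeasure P := by
  unfold P; infer_instance

theorem hX_succ (n : ℕ) (ω : Om) : X (n+1) ω =
      if ω (Sum.inl n) = true then
        ((X n ω).1 + (if ω (Sum.inr (Sum.inl (X n ω).2)) = true then (1 : ℤ) else -1), (X n ω).2)
      else
        ((X n ω).1, (X n ω).2 + (if ω (Sum.inr (Sum.inr (X n ω).1)) = true then (1 : ℤ) else -1)) := rfl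

theorem hX_zero (ω : Om) : X 0 ω = ((0 : ℤ), (0 : ℤ)) := rfl

theorem hX_bd (ω : Om) : ∀ t : ℕ, |(X t ω).1| ≤ (t:ℤ) ∧ |(X t ω).2| ≤ (t:ℤ) := by
  intro t
  induction t with
  | zero => simp [hX_zero]
  | succ n ih =>
    obtain ⟨h1, h2⟩ := ih
    rw [abs_le] at h1 h2
    rw [hX_succ]
    split_ifs <;> simp only [abs_le] <;> push_cast <;> refine ⟨⟨?_, ?_⟩, ⟨?_, ?_⟩⟩ <;> omega

theorem hX_ag (t : ℕ) (ω ω' : Om) (h : Ag t ω ω') : ∀ s, s ≤ t → X s ω = X s ω' := by
  intro s
  induction s with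
  | zero => intro _; rfl
  | succ n ih =>
    intro hs
    have e := ih (by omega)
    have hb := hX_bd ω' n
    have hc : (n:ℤ) ≤ (t:ℤ) := by exact_mod_cast (by omega : n ≤ t)
    rw [hX_succ, hX_succ, e, h.1 n (by omega), h.2.1 _ (le_trans hb.2 hc),
      h.2.2 _ (le_trans hb.1 hc)]

theorem X_ag (t : ℕ) (ω ω' : Om) (h : Ag t ω ω') : ∀ s, s ≤ t → X s ω = X s ω' :=
  hX_ag t ω ω' h
theorem X_bd (t : ℕ) (ω : Om) : |(X t ω).1| ≤ (t:ℤ) ∧ |(X t ω).2| ≤ (t:ℤ) := hX_bd ω t
theorem R_ag (t : ℕ) (ω ω' : Om) (h : Ag t ω ω') : R t ω = R t ω' := by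
  unfold R
  have hf : (range t).filter (fun s => ω (Sum.inl s) = true) =
      (range t).filter (fun s => ω' (Sum.inl s) = true) := by
    apply filter_congr
    intro s hs
    rw [h.1 s (mem_range.mp hs)]
  rw [hf]
  apply Finset.image_congr
  intro s hs
  have hs' : s < t := by
    have := Finset.mem_coe.mp hs
    rw [Finset.mem_filter] at this
    exact mem_range.mp this.1
  show (X s ω).2 = (X s ω').2
  rw [X_ag t ω ω' h s hs'.le]

theorem hR_bd (t : ℕ) (ω : Om) (z : ℤ) (hz : z ∈ R t ω) : |z| ≤ (t:ℤ) := by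
  unfold R at hz
  rw [Finset.mem_image] at hz
  obtain ⟨s, hs, rfl⟩ := hz
  rw [Finset.mem_filter] at hs
  have h1 := mem_range.mp hs.1
  have h2 := (X_bd s ω).2
  have h3 : (s:ℤ) ≤ (t:ℤ) := by exact_mod_cast h1.le
  exact le_trans h2 h3

theorem Phi_ag (t : ℕ) (ω ω' : Om) (h : Ag t ω ω') : Phi t ω = Phi t ω' := by
  unfold Phi
  rw [R_ag t ω ω' h]
  apply Finset.sum_congr rfl
  intro z hz
  unfold rs
  rw [h.2.1 z (hR_bd t ω' z hz)]
theorem Ag_mono {s t : ℕ} (h : s ≤ t) {ω ω' : Om} (hA : Ag t ω ω') : Ag s ω ω' := by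
  have hc : (s:ℤ) ≤ (t:ℤ) := by exact_mod_cast h
  exact ⟨fun n hn => hA.1 n (lt_of_lt_of_le hn h), fun z hz => hA.2.1 z (le_trans hz hc),
    fun z hz => hA.2.2 z (le_trans hz hc)⟩

def hJ (t : ℕ) : Finset Ix :=
  (range t).image (fun n => (Sum.inl n : Ix)) ∪
    ((Finset.Icc (-(t:ℤ)) t).image (fun z => (Sum.inr (Sum.inl z) : Ix)) ∪
      (Finset.Icc (-(t:ℤ)) t).image (fun z => (Sum.inr (Sum.inr z) : Ix)))

theorem hfactor {F : Om → ℝ} (h : Loc F) : ∃ J : Finset Ix, ∃ G : (J → Bool) → ℝ,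
    ∀ ω, F ω = G (fun j => ω j) := by
  obtain ⟨t, ht⟩ := h
  refine ⟨hJ t, fun g => F (fun i => if hi : i ∈ hJ t then g ⟨i, hi⟩ else false), ?_⟩
  intro ω
  apply ht
  refine ⟨?_, ?_, ?_⟩
  · intro n hn
    have hm : (Sum.inl n : Ix) ∈ hJ t := by
      unfold hJ
      refine Finset.mem_union_left _ (Finset.mem_image_of_mem _ (mem_range.mpr hn))
    simp only [hm, dif_pos]
  · intro z hz
    have hm : (Sum.inr (Sum.inl z) : Ix) ∈ hJ t := by
      unfold hJ
      refine Finset.mem_union_right _ (Finset.mem_union_left _ (Finset.mem_image_of_mem _ ?_))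
      rw [Finset.mem_Icc]; exact abs_le.mp hz
    simp only [hm, dif_pos]
  · intro z hz
    have hm : (Sum.inr (Sum.inr z) : Ix) ∈ hJ t := by
      unfold hJ
      refine Finset.mem_union_right _ (Finset.mem_union_right _ (Finset.mem_image_of_mem _ ?_))
      rw [Finset.mem_Icc]; exact abs_le.mp hz
    simp only [hm, dif_pos]

theorem hLoc_bdd {F : Om → ℝ} (h : Loc F) : ∃ B, ∀ ω, |F ω| ≤ B := by
  obtain ⟨J, G, hG⟩ := hfactor h
  refine ⟨∑ g : (J → Bool), |G g|, ?_⟩
  intro ω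
  rw [hG ω]
  exact Finset.single_le_sum (f := fun g => |G g|) (fun g _ => abs_nonneg _) (Finset.mem_univ _)

theorem hLoc_meas {F : Om → ℝ} (h : Loc F) : Measurable F := by
  obtain ⟨J, G, hG⟩ := hfactor h
  have e : F = G ∘ (fun ω : Om => (fun j : J => ω j)) := by
    funext ω; exact hG ω
  rw [e]
  exact (measurable_of_countable G).comp (measurable_pi_lambda _ (fun j => measurable_pi_apply _))

theorem Loc_int {F : Om → ℝ} (h : Loc F) : Integrable F P := by
  obtain ⟨B, hB⟩ := hLoc_bdd h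
  exact Integrable.of_bound (hLoc_meas h).aestronglyMeasurable B
    (Filter.Eventually.of_forall (fun ω => by rw [Real.norm_eq_abs]; exact hB ω))
theorem Loc_bdd {F : Om → ℝ} (h : Loc F) : ∃ B, ∀ ω, |F ω| ≤ B := hLoc_bdd h
theorem Loc_const (c : ℝ) : Loc (fun _ => c) := ⟨0, fun _ _ _ => rfl⟩
theorem hLoc_op {F G : Om → ℝ} (op : ℝ → ℝ → ℝ) (hF : Loc F) (hG : Loc G) :
    Loc (fun ω => op (F ω) (G ω)) := by
  obtain ⟨s, hs⟩ := hF
  obtain ⟨t, ht⟩ := hG
  refine ⟨max s t, fun ω ω' h => ?_⟩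
  show op (F ω) (G ω) = op (F ω') (G ω')
  rw [hs ω ω' (Ag_mono (le_max_left _ _) h), ht ω ω' (Ag_mono (le_max_right _ _) h)]
theorem Loc_add {F G : Om → ℝ} (hF : Loc F) (hG : Loc G) : Loc (fun ω => F ω + G ω) :=
  hLoc_op (fun a b => a + b) hF hG
theorem Loc_sub {F G : Om → ℝ} (hF : Loc F) (hG : Loc G) : Loc (fun ω => F ω - G ω) :=
  hLoc_op (fun a b => a - b) hF hG
theorem Loc_mul {F G : Om → ℝ} (hF : Loc F) (hG : Loc G) : Loc (fun ω => F ω * G ω) :=
  hLoc_op (fun a b => a * b) hF hG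
theorem Loc_comp {F : Om → ℝ} (f : ℝ → ℝ) (hF : Loc F) : Loc (fun ω => f (F ω)) :=
  hLoc_op (fun a _ => f a) hF hF
theorem Loc_sum {ι : Type} (s : Finset ι) (F : ι → Om → ℝ) (h : ∀ i ∈ s, Loc (F i)) :
    Loc (fun ω => ∑ i ∈ s, F i ω) := by
  classical
  induction s using Finset.induction_on with
  | empty => simpa using Loc_const 0
  | insert a s ha ih =>
    have h1 : Loc (F a) := h a (Finset.mem_insert_self _ _)
    have h2 : Loc (fun ω => ∑ i ∈ s, F i ω) := ih (fun i hi => h i (Finset.mem_insert_of_mem hi))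
    have h3 := Loc_add h1 h2
    have e : (fun ω => ∑ i ∈ insert a s, F i ω) = (fun ω => F a ω + ∑ i ∈ s, F i ω) := by
      funext ω; rw [Finset.sum_insert ha]
    rw [e]; exact h3
theorem Loc_X (t : ℕ) (f : ℤ × ℤ → ℝ) : Loc (fun ω => f (X t ω)) :=
  ⟨t, fun ω ω' h => by show f (X t ω) = f (X t ω'); rw [X_ag t ω ω' h t le_rfl]⟩
theorem Loc_coord (i : Ix) (f : Bool → ℝ) : Loc (fun ω => f (ω i)) := by
  rcases i with n | z | z
  · exact ⟨n+1, fun ω ω' h => by
      show f (ω (Sum.inl n)) = f (ω' (Sum.inl n)); rw [h.1 n (Nat.lt_succ_self n)]⟩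
  · exact ⟨z.natAbs, fun ω ω' h => by
      show f (ω (Sum.inr (Sum.inl z))) = f (ω' (Sum.inr (Sum.inl z)))
      rw [h.2.1 z (by rw [Int.abs_eq_natAbs])]⟩
  · exact ⟨z.natAbs, fun ω ω' h => by
      show f (ω (Sum.inr (Sum.inr z))) = f (ω' (Sum.inr (Sum.inr z)))
      rw [h.2.2 z (by rw [Int.abs_eq_natAbs])]⟩
theorem Loc_rsX (t : ℕ) : Loc (fun ω => (rs ω (X t ω).2 : ℝ)) :=
  ⟨t, fun ω ω' h => by
    show (rs ω (X t ω).2 : ℝ) = (rs ω' (X t ω').2 : ℝ)
    rw [X_ag t ω ω' h t le_rfl]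
    unfold rs
    rw [h.2.1 _ (X_bd t ω').2]⟩
theorem Loc_Phi (t : ℕ) : Loc (Phi t) := ⟨t, fun ω ω' h => Phi_ag t ω ω' h⟩
theorem Loc_card (t : ℕ) : Loc (fun ω => ((R t ω).card : ℝ)) :=
  ⟨t, fun ω ω' h => by show ((R t ω).card : ℝ) = ((R t ω').card : ℝ); rw [R_ag t ω ω' h]⟩

theorem E_add {F G : Om → ℝ} (hF : Loc F) (hG : Loc G) : E (fun ω => F ω + G ω) = E F + E G :=
  integral_add (Loc_int hF) (Loc_int hG)
theorem E_sub {F G : Om → ℝ} (hF : Loc F) (hG : Loc G) : E (fun ω => F ω - G ω) = E F - E G :=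
  integral_sub (Loc_int hF) (Loc_int hG)
theorem E_cmul (c : ℝ) (F : Om → ℝ) : E (fun ω => c * F ω) = c * E F :=
  integral_const_mul c F
theorem E_sum {ι : Type} (s : Finset ι) (F : ι → Om → ℝ) (h : ∀ i ∈ s, Loc (F i)) :
    E (fun ω => ∑ i ∈ s, F i ω) = ∑ i ∈ s, E (F i) :=
  integral_finset_sum s (fun i hi => Loc_int (h i hi))
theorem E_mono {F G : Om → ℝ} (hF : Loc F) (hG : Loc G) (h : ∀ ω, F ω ≤ G ω) : E F ≤ E G :=
  integral_mono (Loc_int hF) (Loc_int hG) h
theorem E_const (c : ℝ) : E (fun _ => c) = c := by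
  simp [E]
theorem E_cs {F G : Om → ℝ} (hF : Loc F) (hG : Loc G) :
    (E (fun ω => F ω * G ω))^2 ≤ E (fun ω => (F ω)^2) * E (fun ω => (G ω)^2) := by
  have hFF : Loc (fun ω => (F ω)^2) := Loc_comp (fun x => x^2) hF
  have hGG : Loc (fun ω => (G ω)^2) := Loc_comp (fun x => x^2) hG
  have hFG : Loc (fun ω => F ω * G ω) := Loc_mul hF hG
  have key : ∀ x : ℝ, 0 ≤ E (fun ω => (G ω)^2) * (x * x) + (2 * E (fun ω => F ω * G ω)) * x +
      E (fun ω => (F ω)^2) := by
    intro x
    have h1 : E (fun ω => (F ω + x * G ω)^2) = E (fun ω => (G ω)^2) * (x * x) +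
        (2 * E (fun ω => F ω * G ω)) * x + E (fun ω => (F ω)^2) := by
      have e : (fun ω => (F ω + x * G ω)^2) =
          (fun ω => (x * x * (G ω)^2 + 2 * x * (F ω * G ω)) + (F ω)^2) := by
        funext ω; ring
      rw [e]
      have l1 : Loc (fun ω => x * x * (G ω)^2) := Loc_comp (fun y => x * x * y) hGG
      have l2 : Loc (fun ω => 2 * x * (F ω * G ω)) := Loc_comp (fun y => 2 * x * y) hFG
      rw [E_add (Loc_add l1 l2) hFF, E_add l1 l2, E_cmul, E_cmul]
      ring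
    rw [← h1]
    exact integral_nonneg (fun ω => sq_nonneg _)
  have hd := discrim_le_zero key
  unfold discrim at hd
  nlinarith [hd]

theorem hmeas_fl (i : Ix) : Measurable (fl i) := by
  apply measurable_pi_lambda
  intro j
  by_cases h : j = i
  · subst h
    have e : (fun ω : Om => fl j ω j) = (fun b : Bool => !b) ∘ (fun ω : Om => ω j) := by
      funext ω; simp [fl]
    rw [e]
    exact (measurable_of_countable _).comp (measurable_pi_apply j)
  · have e : (fun ω : Om => fl i ω j) = (fun ω : Om => ω j) := by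
      funext ω; simp [fl, h]
    rw [e]
    exact measurable_pi_apply j

theorem hfl_fl (i : Ix) (ω : Om) : fl i (fl i ω) = ω := by
  funext j
  by_cases h : j = i
  · subst h; simp [fl]
  · simp [fl, h]

def hequiv (i : Ix) : Om ≃ᵐ Om where
  toFun := fl i
  invFun := fl i
  left_inv := hfl_fl i
  right_inv := hfl_fl i
  measurable_toFun := hmeas_fl i
  measurable_invFun := hmeas_fl i

theorem hflip_bool (A : Set Bool) :
    (PMF.uniformOfFintype Bool).toMeasure ((fun b : Bool => !b) ⁻¹' A) =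
      (PMF.uniformOfFintype Bool).toMeasure A := by
  have h1 : (PMF.uniformOfFintype Bool).toMeasure.map (fun b : Bool => !b) =
      (PMF.uniformOfFintype Bool).toMeasure := by
    apply Measure.ext_of_singleton
    intro b
    rw [Measure.map_apply (measurable_of_countable _) (MeasurableSet.singleton b)]
    have : (fun b : Bool => !b) ⁻¹' {b} = {!b} := by
      ext x; cases x <;> cases b <;> simp
    rw [this, PMF.toMeasure_apply_singleton _ _ (MeasurableSet.singleton _),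
      PMF.toMeasure_apply_singleton _ _ (MeasurableSet.singleton _)]
    simp
  conv_rhs => rw [← h1]
  rw [Measure.map_apply (measurable_of_countable _) (Set.toFinite A).measurableSet]

theorem hmap_fl (i : Ix) : P.map (fl i) = P := by
  unfold P
  apply Measure.eq_infinitePi
  intro s t ht
  rw [Measure.map_apply (hmeas_fl i) (MeasurableSet.pi s.countable_toSet (fun j _ => ht j))]
  have e : fl i ⁻¹' (Set.pi (↑s) t) = Set.pi (↑s)
      (fun j => if j = i then (fun b : Bool => !b) ⁻¹' (t j) else t j) := by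
    ext ω
    simp only [Set.mem_preimage, Set.mem_pi]
    apply forall_congr'
    intro j
    apply imp_congr_right
    intro _
    by_cases h : j = i
    · subst h; simp [fl]
    · simp [fl, h]
  rw [e, Measure.infinitePi_pi]
  · apply Finset.prod_congr rfl
    intro j hj
    by_cases h : j = i
    · simp only [h, if_true]; exact hflip_bool _
    · simp only [h, if_false]
  · intro j hj
    exact (Set.toFinite _).measurableSet

theorem E_fl (i : Ix) (F : Om → ℝ) : E (fun ω => F (fl i ω)) = E F := by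
  have hmp : MeasurePreserving (fl i) P P := ⟨hmeas_fl i, hmap_fl i⟩
  exact hmp.integral_comp (hequiv i).measurableEmbedding F

end MV
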