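import Pool.Agent.Helper870.MV.Defs
import Pool.Agent.Helper870.MV.A1

set_option autoImplicit false
set_option linter.unusedSectionVars false

open Finset MeasureTheory

noncomputable section

-- USES: A1
namespace MV

theorem X_zero705 (ω : Om) : X 0 ω = (0, 0) := rfl

theorem X_step705 (n : ℕ) (ω : Om) : X (n+1) ω =
    if ω (Sum.inl n) = true then ((X n ω).1 + rs ω (X n ω).2, (X n ω).2)
    else ((X n ω).1, (X n ω).2 + cs ω (X n ω).1) := rfl

theorem Th_coin1_705 (ω : Om) (n : ℕ) : (Th ω) (Sum.inl n) = ω (Sum.inl (n+1)) := rfl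
theorem Th_rs705 (ω : Om) (z : ℤ) : rs (Th ω) z = rs ω (z + (X 1 ω).2) := rfl
theorem Th_cs705 (ω : Om) (z : ℤ) : cs (Th ω) z = cs ω (z + (X 1 ω).1) := rfl

theorem X_succ (n : ℕ) (ω : Om) : X (n+1) ω = X 1 ω + X n (Th ω) := by
  induction n with
  | zero =>
    rw [X_zero705]
    ext
    · simp
    · simp
  | succ n ih =>
    rw [X_step705 (n+1) ω, X_step705 n (Th ω), Th_coin1_705, Th_rs705, Th_cs705]
    have h1 : (X (n+1) ω).1 = (X 1 ω).1 + (X n (Th ω)).1 := by rw [ih]; rfl
    have h2 : (X (n+1) ω).2 = (X 1 ω).2 + (X n (Th ω)).2 := by rw [ih]; rfl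
    by_cases hc : ω (Sum.inl (n+1)) = true
    · rw [if_pos hc, if_pos hc]
      ext
      · show (X (n+1) ω).1 + rs ω (X (n+1) ω).2 = (X 1 ω).1 + ((X n (Th ω)).1 +
          rs ω ((X n (Th ω)).2 + (X 1 ω).2))
        rw [h1, h2, add_comm (X 1 ω).2 (X n (Th ω)).2, add_assoc]
      · show (X (n+1) ω).2 = (X 1 ω).2 + (X n (Th ω)).2
        exact h2
    · rw [if_neg hc, if_neg hc]
      ext
      · show (X (n+1) ω).1 = (X 1 ω).1 + (X n (Th ω)).1
        exact h1
      · show (X (n+1) ω).2 + cs ω (X (n+1) ω).1 = (X 1 ω).2 + ((X n (Th ω)).2 +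
          cs ω ((X n (Th ω)).1 + (X 1 ω).1))
        rw [h1, h2, add_comm (X 1 ω).1 (X n (Th ω)).1, add_assoc]

theorem X_add (s n : ℕ) (ω : Om) : X (s+n) ω = X s ω + X n (Th^[s] ω) := by
  induction s generalizing ω with
  | zero =>
    rw [X_zero705, Function.iterate_zero, id, Nat.zero_add]
    ext
    · simp
    · simp
  | succ s ih =>
    rw [Function.iterate_succ_apply, X_succ s ω, Nat.add_right_comm, X_succ (s+n) ω, ih (Th ω),
      add_assoc]

theorem Th_coin (s : ℕ) (ω : Om) (n : ℕ) : (Th^[s] ω) (Sum.inl n) = ω (Sum.inl (s + n)) := by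
  induction s generalizing ω with
  | zero => rw [Nat.zero_add]; rfl
  | succ s ih =>
    rw [Function.iterate_succ_apply, ih (Th ω), Th_coin1_705]
    congr 2
    omega

theorem Th_row (s : ℕ) (ω : Om) (z : ℤ) :
    (Th^[s] ω) (Sum.inr (Sum.inl z)) = ω (Sum.inr (Sum.inl (z + (X s ω).2))) := by
  induction s generalizing ω with
  | zero => rw [X_zero705, add_zero]; rfl
  | succ s ih =>
    rw [Function.iterate_succ_apply, ih (Th ω), X_succ s ω]
    show ω (Sum.inr (Sum.inl (z + (X s (Th ω)).2 + (X 1 ω).2))) =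
      ω (Sum.inr (Sum.inl (z + ((X 1 ω).2 + (X s (Th ω)).2))))
    congr 3
    ring

theorem Th_col (s : ℕ) (ω : Om) (z : ℤ) :
    (Th^[s] ω) (Sum.inr (Sum.inr z)) = ω (Sum.inr (Sum.inr (z + (X s ω).1))) := by
  induction s generalizing ω with
  | zero => rw [X_zero705, add_zero]; rfl
  | succ s ih =>
    rw [Function.iterate_succ_apply, ih (Th ω), X_succ s ω]
    show ω (Sum.inr (Sum.inr (z + (X s (Th ω)).1 + (X 1 ω).1))) =
      ω (Sum.inr (Sum.inr (z + ((X 1 ω).1 + (X s (Th ω)).1))))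
    congr 3
    ring

theorem Loc_Th {F : Om → ℝ} (h : Loc F) (s : ℕ) : Loc (fun ω => F (Th^[s] ω)) := by
  obtain ⟨t, ht⟩ := h
  refine ⟨t + s, fun ω ω' hA => ?_⟩
  apply ht
  have hX : X s ω = X s ω' := X_ag (t+s) ω ω' hA s (Nat.le_add_left _ _)
  have hb := X_bd s ω'
  obtain ⟨h1, h2, h3⟩ := hA
  have hts : ((t + s : ℕ) : ℤ) = (t:ℤ) + (s:ℤ) := by push_cast; rfl
  refine ⟨fun n hn => ?_, fun z hz => ?_, fun z hz => ?_⟩
  · rw [Th_coin, Th_coin]
    exact h1 _ (by omega)
  · rw [Th_row, Th_row, hX]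
    apply h2
    rw [hts]
    exact (abs_add_le _ _).trans (add_le_add hz hb.2)
  · rw [Th_col, Th_col, hX]
    apply h3
    rw [hts]
    exact (abs_add_le _ _).trans (add_le_add hz hb.1)

theorem map_sig705 (σ : Ix → Ix) (hσ : Function.Injective σ) :
    Measure.map (fun ω : Om => (fun i => ω (σ i) : Om)) P = P := by
  classical
  have hmeas : Measurable (fun ω : Om => (fun i => ω (σ i) : Om)) :=
    measurable_pi_lambda _ (fun i => measurable_pi_apply (σ i))
  conv_rhs => unfold P
  refine Measure.eq_infinitePi _ ?_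
  intro s t ht
  rw [Measure.map_apply hmeas (.pi s.countable_toSet fun _ _ ↦ ht _)]
  have h1 : (fun ω : Om => (fun i => ω (σ i) : Om)) ⁻¹' ((s : Set Ix).pi t) =
      ((s.image σ : Finset Ix) : Set Ix).pi (fun j => t (Function.invFun σ j)) := by
    ext ω
    simp only [Set.mem_preimage, Set.mem_pi]
    constructor
    · intro hω j hj
      obtain ⟨i, hi, rfl⟩ := Finset.mem_image.mp (Finset.mem_coe.mp hj)
      rw [Function.leftInverse_invFun hσ i]
      exact hω i (Finset.mem_coe.mpr hi)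
    · intro hω i hi
      have h2 := hω (σ i) (Finset.mem_coe.mpr (Finset.mem_image_of_mem σ (Finset.mem_coe.mp hi)))
      rw [Function.leftInverse_invFun hσ i] at h2
      exact h2
  rw [h1]
  unfold P
  rw [Measure.infinitePi_pi _ (fun i _ => ht _)]
  rw [Finset.prod_image (fun a _ b _ h => hσ h)]
  apply Finset.prod_congr rfl
  intro i _
  rw [Function.leftInverse_invFun hσ i]

theorem E_sig705 (σ : Ix → Ix) (hσ : Function.Injective σ) {F : Om → ℝ} (h : Loc F) :
    E (fun ω => F (fun i => ω (σ i))) = E F := by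
  have hmeas : Measurable (fun ω : Om => (fun i => ω (σ i) : Om)) :=
    measurable_pi_lambda _ (fun i => measurable_pi_apply (σ i))
  have hm := map_sig705 σ hσ
  have hF : AEStronglyMeasurable F (Measure.map (fun ω : Om => (fun i => ω (σ i) : Om)) P) := by
    rw [hm]
    exact (Loc_int h).aestronglyMeasurable
  unfold E
  rw [← integral_map hmeas.aemeasurable hF, hm]

/-- shift of the index set -/
def sg705 (a b : ℤ) : Ix → Ix
  | Sum.inl n => Sum.inl (n+1)
  | Sum.inr (Sum.inl z) => Sum.inr (Sum.inl (z + b))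
  | Sum.inr (Sum.inr z) => Sum.inr (Sum.inr (z + a))

theorem sg_inj705 (a b : ℤ) : Function.Injective (sg705 a b) := by
  rintro (n | z | z) (n' | z' | z') h
  · simp only [sg705, Sum.inl.injEq] at h
    have : n = n' := by omega
    rw [this]
  · simp [sg705] at h
  · simp [sg705] at h
  · simp [sg705] at h
  · simp only [sg705, Sum.inr.injEq, Sum.inl.injEq] at h
    have : z = z' := by omega
    rw [this]
  · simp [sg705] at h
  · simp [sg705] at h
  · simp [sg705] at h
  · simp only [sg705, Sum.inr.injEq] at h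
    have : z = z' := by omega
    rw [this]

theorem Th_eq705 (ω : Om) : Th ω = fun i => ω (sg705 (X 1 ω).1 (X 1 ω).2 i) := by
  funext i
  rcases i with n | z | z <;> rfl

theorem Ag_sg705 (a b : ℤ) (ha : |a| ≤ 1) (hb : |b| ≤ 1) (t : ℕ) (ω ω' : Om)
    (h : Ag (t+1) ω ω') : Ag t (fun i => ω (sg705 a b i)) (fun i => ω' (sg705 a b i)) := by
  obtain ⟨h1, h2, h3⟩ := h
  have hts : ((t + 1 : ℕ) : ℤ) = (t:ℤ) + 1 := by push_cast; rfl
  refine ⟨fun n hn => ?_, fun z hz => ?_, fun z hz => ?_⟩
  · exact h1 (n+1) (by omega)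
  · apply h2
    rw [hts]
    exact (abs_add_le _ _).trans (add_le_add hz hb)
  · apply h3
    rw [hts]
    exact (abs_add_le _ _).trans (add_le_add hz ha)

theorem Loc_sg705 (a b : ℤ) (ha : |a| ≤ 1) (hb : |b| ≤ 1) {F : Om → ℝ} (h : Loc F) :
    Loc (fun ω => F (fun i => ω (sg705 a b i))) := by
  obtain ⟨t, ht⟩ := h
  exact ⟨t+1, fun ω ω' hA => ht _ _ (Ag_sg705 a b ha hb t ω ω' hA)⟩

theorem rs_abs705 (ω : Om) (z : ℤ) : |rs ω z| ≤ 1 := by
  unfold rs; split_ifs <;> simp
theorem cs_abs705 (ω : Om) (z : ℤ) : |cs ω z| ≤ 1 := by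
  unfold cs; split_ifs <;> simp

theorem E_split705 (j : Ix) (σ₁ σ₂ : Ix → Ix) (h1 : Function.Injective σ₁)
    (h2 : Function.Injective σ₂) (hj1 : σ₁ j = j) (hj2 : σ₂ j = j) {F : Om → ℝ} (h : Loc F)
    (hL1 : ∀ G : Om → ℝ, Loc G → Loc (fun ω => G (fun i => ω (σ₁ i))))
    (hL2 : ∀ G : Om → ℝ, Loc G → Loc (fun ω => G (fun i => ω (σ₂ i)))) :
    Loc (fun ω => if ω j = true then F (fun i => ω (σ₁ i)) else F (fun i => ω (σ₂ i))) ∧
    E (fun ω => if ω j = true then F (fun i => ω (σ₁ i)) else F (fun i => ω (σ₂ i))) = E F := by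
  have hG1 : Loc (fun ω => (fun c : Bool => if c = true then (1:ℝ) else 0) (ω j) * F ω) :=
    Loc_mul (Loc_coord j (fun c : Bool => if c = true then (1:ℝ) else 0)) h
  have hG2 : Loc (fun ω => (fun c : Bool => if c = true then (0:ℝ) else 1) (ω j) * F ω) :=
    Loc_mul (Loc_coord j (fun c : Bool => if c = true then (0:ℝ) else 1)) h
  have hA1 := hL1 _ hG1
  have hA2 := hL2 _ hG2
  have hE1 := E_sig705 σ₁ h1 hG1
  have hE2 := E_sig705 σ₂ h2 hG2
  have hadd := E_add hA1 hA2
  have hfun : (fun ω : Om => if ω j = true then F (fun i => ω (σ₁ i)) else F (fun i => ω (σ₂ i))) =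
      fun ω : Om => (fun ω : Om => (fun c : Bool => if c = true then (1:ℝ) else 0) (ω j) * F ω)
        (fun i => ω (σ₁ i)) +
      (fun ω : Om => (fun c : Bool => if c = true then (0:ℝ) else 1) (ω j) * F ω)
        (fun i => ω (σ₂ i)) := by
    funext ω
    simp only [hj1, hj2]
    by_cases hc : ω j = true
    · simp [hc]
    · simp [hc]
  refine ⟨?_, ?_⟩
  · rw [hfun]
    exact Loc_add hA1 hA2
  · rw [hfun, hadd, hE1, hE2, ← E_add hG1 hG2]
    congr 1
    funext ω
    by_cases hc : ω j = true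
    · simp [hc]
    · simp [hc]

theorem E_Th1_705 {F : Om → ℝ} (h : Loc F) : E (fun ω => F (Th ω)) = E F := by
  obtain ⟨hLA, hEA⟩ := E_split705 (Sum.inr (Sum.inl 0)) (sg705 1 0) (sg705 (-1) 0)
    (sg_inj705 _ _) (sg_inj705 _ _) rfl rfl h
    (fun G hG => Loc_sg705 1 0 (by norm_num) (by norm_num) hG)
    (fun G hG => Loc_sg705 (-1) 0 (by norm_num) (by norm_num) hG)
  obtain ⟨hLB, hEB⟩ := E_split705 (Sum.inr (Sum.inr 0)) (sg705 0 1) (sg705 0 (-1))
    (sg_inj705 _ _) (sg_inj705 _ _) rfl rfl h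
    (fun G hG => Loc_sg705 0 1 (by norm_num) (by norm_num) hG)
    (fun G hG => Loc_sg705 0 (-1) (by norm_num) (by norm_num) hG)
  have hH : ∀ ω : Om, F (Th ω) = if ω (Sum.inl 0) = true then
      (if ω (Sum.inr (Sum.inl 0)) = true then F (fun i => ω (sg705 1 0 i))
        else F (fun i => ω (sg705 (-1) 0 i))) else
      (if ω (Sum.inr (Sum.inr 0)) = true then F (fun i => ω (sg705 0 1 i))
        else F (fun i => ω (sg705 0 (-1) i))) := by
    intro ω
    rw [Th_eq705, X_step705 0 ω, X_zero705]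
    unfold rs cs
    by_cases hc : ω (Sum.inl 0) = true
    · by_cases hr : ω (Sum.inr (Sum.inl 0)) = true
      · simp [hc, hr]
      · simp [hc, hr]
    · by_cases hr : ω (Sum.inr (Sum.inr 0)) = true
      · simp [hc, hr]
      · simp [hc, hr]
  have hLH : Loc (fun ω => F (Th ω)) := Loc_Th h 1
  have hflip : ∀ (ω : Om) (a b : ℤ), (fun i => (fl (Sum.inl 0) ω) (sg705 a b i)) =
      fun i => ω (sg705 a b i) := by
    intro ω a b
    funext i
    unfold fl
    apply Function.update_of_ne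
    rcases i with n | z | z
    · simp [sg705]
    · simp [sg705]
    · simp [sg705]
  have hLHf : Loc (fun ω => F (Th (fl (Sum.inl 0) ω))) := by
    obtain ⟨t, ht⟩ := hLH
    refine ⟨t, fun ω ω' hA => ?_⟩
    apply ht
    obtain ⟨h1, h2, h3⟩ := hA
    refine ⟨fun n hn => ?_, fun z hz => ?_, fun z hz => ?_⟩
    · unfold fl
      by_cases hn0 : n = 0
      · subst hn0
        rw [Function.update_self, Function.update_self, h1 0 hn]
      · have hne : (Sum.inl n : Ix) ≠ Sum.inl 0 := by simpa using hn0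
        rw [Function.update_of_ne hne, Function.update_of_ne hne]
        exact h1 n hn
    · unfold fl
      rw [Function.update_of_ne (by simp), Function.update_of_ne (by simp)]
      exact h2 z hz
    · unfold fl
      rw [Function.update_of_ne (by simp), Function.update_of_ne (by simp)]
      exact h3 z hz
  have hsum : (fun ω : Om => F (Th ω) + F (Th (fl (Sum.inl 0) ω))) = fun ω : Om =>
      (if ω (Sum.inr (Sum.inl 0)) = true then F (fun i => ω (sg705 1 0 i))
        else F (fun i => ω (sg705 (-1) 0 i))) +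
      (if ω (Sum.inr (Sum.inr 0)) = true then F (fun i => ω (sg705 0 1 i))
        else F (fun i => ω (sg705 0 (-1) i))) := by
    funext ω
    rw [hH ω, hH (fl (Sum.inl 0) ω)]
    simp only [hflip]
    have e0 : fl (Sum.inl 0) ω (Sum.inl 0) = !ω (Sum.inl 0) := by
      unfold fl; rw [Function.update_self]
    have e1 : fl (Sum.inl 0) ω (Sum.inr (Sum.inl 0)) = ω (Sum.inr (Sum.inl 0)) := by
      unfold fl; rw [Function.update_of_ne (by simp)]
    have e2 : fl (Sum.inl 0) ω (Sum.inr (Sum.inr 0)) = ω (Sum.inr (Sum.inr 0)) := by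
      unfold fl; rw [Function.update_of_ne (by simp)]
    rw [e0, e1, e2]
    by_cases hc : ω (Sum.inl 0) = true
    · simp only [hc, if_true, Bool.not_true, Bool.false_eq_true, if_false]
    · have hc' : ω (Sum.inl 0) = false := by simpa using hc
      simp only [hc', Bool.not_false, if_true, Bool.false_eq_true, if_false]
      ring
  have e1 := E_add hLH hLHf
  have e2 := E_add hLA hLB
  have e3 := E_fl (Sum.inl 0) (fun ω => F (Th ω))
  rw [hsum, e2, hEA, hEB] at e1
  rw [e3] at e1
  linarith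

/-- stationarity of coins and environment seen from the walk -/
theorem E_Th {F : Om → ℝ} (h : Loc F) (s : ℕ) : E (fun ω => F (Th^[s] ω)) = E F := by
  induction s with
  | zero => rfl
  | succ s ih =>
    rw [← ih]
    exact E_Th1_705 (Loc_Th h s)

/-- negate the coins before `t` -/
def fN705 (t : ℕ) (ω : Om) : Om := fun i => match i with
  | Sum.inl n => if n < t then !ω (Sum.inl n) else ω (Sum.inl n)
  | Sum.inr z => ω (Sum.inr z)

theorem fN_succ705 (t : ℕ) (ω : Om) : fN705 (t+1) ω = fN705 t (fl (Sum.inl t) ω) := by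
  funext i
  rcases i with n | z
  · show (if n < t+1 then !ω (Sum.inl n) else ω (Sum.inl n)) =
      (if n < t then !(fl (Sum.inl t) ω (Sum.inl n)) else fl (Sum.inl t) ω (Sum.inl n))
    by_cases hnt : n = t
    · subst hnt
      rw [if_pos (Nat.lt_succ_self _), if_neg (lt_irrefl _)]
      unfold fl
      rw [Function.update_self]
    · have hne : (Sum.inl n : Ix) ≠ Sum.inl t := by simpa using hnt
      have e : fl (Sum.inl t) ω (Sum.inl n) = ω (Sum.inl n) := by
        unfold fl; rw [Function.update_of_ne hne]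
      rw [e]
      by_cases hlt : n < t
      · rw [if_pos hlt, if_pos (by omega)]
      · rw [if_neg hlt, if_neg (by omega)]
  · show ω (Sum.inr z) = fl (Sum.inl t) ω (Sum.inr z)
    unfold fl
    rw [Function.update_of_ne (by simp)]

theorem E_fN705 (t : ℕ) (F : Om → ℝ) : E (fun ω => F (fN705 t ω)) = E F := by
  induction t with
  | zero =>
    congr 1
    funext ω
    congr 1
    funext i
    rcases i with n | z
    · show (if n < 0 then !ω (Sum.inl n) else ω (Sum.inl n)) = _
      rw [if_neg (by omega)]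
    · rfl
  | succ t ih =>
    rw [← ih, ← E_fl (Sum.inl t) (fun ω => F (fN705 t ω))]
    congr 1
    funext ω
    rw [fN_succ705]

/-- exchange rows and columns -/
def sw705 : Ix → Ix
  | Sum.inl n => Sum.inl n
  | Sum.inr (Sum.inl z) => Sum.inr (Sum.inr z)
  | Sum.inr (Sum.inr z) => Sum.inr (Sum.inl z)

theorem sw_inj705 : Function.Injective sw705 := by
  rintro (n | z | z) (n' | z' | z') h <;> simp_all [sw705]

theorem X_sw705 (T t : ℕ) (ht : t ≤ T) (ω : Om) :
    X t (fun i => (fN705 T ω) (sw705 i)) = ((X t ω).2, (X t ω).1) := by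
  induction t with
  | zero => rfl
  | succ t ih =>
    have ih' := ih (by omega)
    rw [X_step705 t (fun i => (fN705 T ω) (sw705 i)), X_step705 t ω, ih']
    have ec : (fN705 T ω) (sw705 (Sum.inl t)) = !ω (Sum.inl t) := by
      show (if t < T then !ω (Sum.inl t) else ω (Sum.inl t)) = _
      rw [if_pos (by omega)]
    have er : ∀ z, rs (fun i => (fN705 T ω) (sw705 i)) z = cs ω z := fun z => rfl
    have ecs : ∀ z, cs (fun i => (fN705 T ω) (sw705 i)) z = rs ω z := fun z => rfl
    rw [ec, er, ecs]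
    by_cases hc : ω (Sum.inl t) = true
    · simp only [hc, Bool.not_true, Bool.false_eq_true, if_false, if_true]
    · have hc' : ω (Sum.inl t) = false := by simpa using hc
      simp only [hc', Bool.not_false, if_true, Bool.false_eq_true, if_false]

/-- symmetry between the two axes -/
theorem ax_ay (t : ℕ) : ax t = ay t := by
  unfold ax ay
  have hL : Loc (fun ω => ((X t ω).1 : ℝ)^2) := Loc_X t (fun p => (p.1 : ℝ)^2)
  have h1 := E_sig705 sw705 sw_inj705 hL
  have h2 := E_fN705 t (fun ω : Om => ((X t (fun i => ω (sw705 i))).1 : ℝ)^2)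
  rw [← h1, ← h2]
  congr 1
  funext ω
  have h3 := X_sw705 t t le_rfl ω
  show ((X t (fun i => (fN705 t ω) (sw705 i))).1 : ℝ)^2 = ((X t ω).2 : ℝ)^2
  rw [h3]

end MV
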