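import Pool.Agent.Helper870.MV.Defs
import Pool.Agent.Helper870.MV.A1

set_option autoImplicit false
set_option linter.unusedSectionVars false

open Finset MeasureTheory

noncomputable section

-- USES: A1
namespace MV

theorem X_succ_aux (s : ℕ) (ω : Om) : X (s+1) ω =
    if ω (Sum.inl s) = true then
        ((X s ω).1 + (if ω (Sum.inr (Sum.inl (X s ω).2)) = true then (1 : ℤ) else -1), (X s ω).2)
      else
        ((X s ω).1, (X s ω).2 + (if ω (Sum.inr (Sum.inr (X s ω).1)) = true then (1 : ℤ) else -1)) := rfl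

theorem fl_ne_aux {i j : Ix} (h : j ≠ i) (ω : Om) : fl i ω j = ω j := by
  unfold fl
  exact Function.update_of_ne h _ _

theorem fl_self_aux (i : Ix) (ω : Om) : fl i ω i = !ω i := by
  unfold fl
  exact Function.update_self _ _ _

theorem fl_fl_aux (i : Ix) (ω : Om) : fl i (fl i ω) = ω := by
  funext j
  by_cases h : j = i
  · subst h
    rw [fl_self_aux, fl_self_aux, Bool.not_not]
  · rw [fl_ne_aux h, fl_ne_aux h]

/-- flipping a row that was not used changes nothing up to time t -/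
theorem fl_unused (t : ℕ) (z : ℤ) (ω : Om) (h : z ∉ R t ω) :
    (∀ s, s ≤ t → X s (fl (Sum.inr (Sum.inl z)) ω) = X s ω) ∧ R t (fl (Sum.inr (Sum.inl z)) ω) = R t ω ∧
      Phi t (fl (Sum.inr (Sum.inl z)) ω) = Phi t ω := by
  have hcoin : ∀ n, fl (Sum.inr (Sum.inl z)) ω (Sum.inl n) = ω (Sum.inl n) := by
    intro n
    exact fl_ne_aux (by simp) ω
  have hcol : ∀ n, fl (Sum.inr (Sum.inl z)) ω (Sum.inr (Sum.inr n)) = ω (Sum.inr (Sum.inr n)) := by
    intro n
    exact fl_ne_aux (by simp) ω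
  have hrow : ∀ n, n ≠ z → fl (Sum.inr (Sum.inl z)) ω (Sum.inr (Sum.inl n)) = ω (Sum.inr (Sum.inl n)) := by
    intro n hn
    exact fl_ne_aux (by simpa using hn) ω
  have hX : ∀ s, s ≤ t → X s (fl (Sum.inr (Sum.inl z)) ω) = X s ω := by
    intro s
    induction s with
    | zero => intro _; rfl
    | succ s ih =>
      intro hs
      have ih' := ih (by omega)
      rw [X_succ_aux, X_succ_aux, ih', hcoin, hcol]
      by_cases hc : ω (Sum.inl s) = true
      · rw [if_pos hc, if_pos hc]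
        have hne : (X s ω).2 ≠ z := by
          intro he
          apply h
          unfold R
          rw [Finset.mem_image]
          exact ⟨s, by rw [Finset.mem_filter, Finset.mem_range]; exact ⟨by omega, hc⟩, he⟩
        rw [hrow _ hne]
      · rw [if_neg hc, if_neg hc]
  have hR : R t (fl (Sum.inr (Sum.inl z)) ω) = R t ω := by
    unfold R
    have h1 : (range t).filter (fun s => fl (Sum.inr (Sum.inl z)) ω (Sum.inl s) = true)
        = (range t).filter (fun s => ω (Sum.inl s) = true) := by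
      apply Finset.filter_congr
      intro s _
      rw [hcoin]
    rw [h1]
    apply Finset.image_congr
    intro s hs
    have hs' := (Finset.mem_filter.1 (Finset.mem_coe.1 hs)).1
    rw [Finset.mem_range] at hs'
    show (X s (fl (Sum.inr (Sum.inl z)) ω)).2 = (X s ω).2
    rw [hX s (by omega)]
  refine ⟨hX, hR, ?_⟩
  unfold Phi
  rw [hR]
  apply Finset.sum_congr rfl
  intro y hy
  have hne : y ≠ z := by
    intro he
    exact h (he ▸ hy)
  unfold rs
  rw [hrow _ hne]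

theorem R_succ_aux (t : ℕ) (ω : Om) : R (t+1) ω =
    if ω (Sum.inl t) = true then insert (X t ω).2 (R t ω) else R t ω := by
  unfold R
  rw [Finset.range_add_one, Finset.filter_insert]
  by_cases h : ω (Sum.inl t) = true
  · rw [if_pos h, if_pos h, Finset.image_insert]
  · rw [if_neg h, if_neg h]

/-- a new row is used at time t -/
def Bn (t : ℕ) (ω : Om) : ℝ := if ω (Sum.inl t) = true ∧ (X t ω).2 ∉ R t ω then 1 else 0

theorem rs_sq_aux (ω : Om) (z : ℤ) : (rs ω z : ℝ)^2 = 1 := by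
  unfold rs
  split_ifs <;> norm_num

theorem Phi_succ_sq_aux (t : ℕ) (ω : Om) : (Phi (t+1) ω)^2
    = ((Phi t ω)^2 + Bn t ω) + 2 * (Phi t ω * Bn t ω * (rs ω (X t ω).2 : ℝ)) := by
  have hrs := rs_sq_aux ω (X t ω).2
  unfold Bn
  by_cases h : ω (Sum.inl t) = true ∧ (X t ω).2 ∉ R t ω
  · rw [if_pos h]
    have h1 : Phi (t+1) ω = (rs ω (X t ω).2 : ℝ) + Phi t ω := by
      unfold Phi
      rw [R_succ_aux, if_pos h.1, Finset.sum_insert h.2]
    rw [h1]
    linear_combination hrs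
  · rw [if_neg h]
    have h1 : Phi (t+1) ω = Phi t ω := by
      unfold Phi
      rw [R_succ_aux]
      by_cases hc : ω (Sum.inl t) = true
      · have h2 : (X t ω).2 ∈ R t ω := by
          by_contra hcon
          exact h ⟨hc, hcon⟩
        rw [if_pos hc, Finset.insert_eq_of_mem h2]
      · rw [if_neg hc]
    rw [h1]
    ring

theorem card_succ_aux (t : ℕ) (ω : Om) : ((R (t+1) ω).card : ℝ) = ((R t ω).card : ℝ) + Bn t ω := by
  unfold Bn
  rw [R_succ_aux]
  by_cases hc : ω (Sum.inl t) = true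
  · by_cases h2 : (X t ω).2 ∈ R t ω
    · rw [if_pos hc, Finset.insert_eq_of_mem h2, if_neg (fun h => h.2 h2)]
      ring
    · rw [if_pos hc, Finset.card_insert_of_notMem h2, if_pos ⟨hc, h2⟩]
      push_cast
      ring
  · rw [if_neg hc, if_neg (fun h => hc h.1)]
    ring

theorem Loc_Bn_aux (t : ℕ) : Loc (Bn t) := by
  refine ⟨t+1, ?_⟩
  intro ω ω' hA
  have hX := X_ag (t+1) ω ω' hA t (by omega)
  have hR := R_ag t ω ω' (Ag_mono (by omega) hA)
  unfold Bn
  rw [hX, hR, hA.1 t (by omega)]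

/-- the part of the cross term on row z -/
def Fz (t : ℕ) (z : ℤ) (ω : Om) : ℝ :=
  if ω (Sum.inl t) = true ∧ (X t ω).2 = z ∧ z ∉ R t ω then Phi t ω * (rs ω z : ℝ) else 0

theorem Loc_Fz_aux (t : ℕ) (z : ℤ) (hz : |z| ≤ (t : ℤ)) : Loc (Fz t z) := by
  refine ⟨t+1, ?_⟩
  intro ω ω' hA
  have hX := X_ag (t+1) ω ω' hA t (by omega)
  have hR := R_ag t ω ω' (Ag_mono (by omega) hA)
  have hP := Phi_ag t ω ω' (Ag_mono (by omega) hA)
  have hrs : rs ω z = rs ω' z := by
    unfold rs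
    rw [hA.2.1 z (by push_cast; omega)]
  unfold Fz
  rw [hX, hR, hP, hrs, hA.1 t (by omega)]

theorem Fz_fl_aux (t : ℕ) (z : ℤ) (ω : Om) : Fz t z (fl (Sum.inr (Sum.inl z)) ω) = (-1) * Fz t z ω := by
  have hcoin : fl (Sum.inr (Sum.inl z)) ω (Sum.inl t) = ω (Sum.inl t) :=
    fl_ne_aux (by simp) ω
  by_cases h : z ∈ R t ω
  · have h' : z ∈ R t (fl (Sum.inr (Sum.inl z)) ω) := by
      by_contra hcon
      have := (fl_unused t z _ hcon).2.1
      rw [fl_fl_aux] at this
      rw [this] at h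
      exact hcon h
    unfold Fz
    rw [if_neg (fun hh => hh.2.2 h'), if_neg (fun hh => hh.2.2 h)]
    ring
  · obtain ⟨hX, hR, hP⟩ := fl_unused t z ω h
    unfold Fz
    rw [hX t le_rfl, hR, hP, hcoin]
    by_cases hc : ω (Sum.inl t) = true ∧ (X t ω).2 = z ∧ z ∉ R t ω
    · rw [if_pos hc, if_pos hc]
      unfold rs
      rw [fl_self_aux]
      cases ω (Sum.inr (Sum.inl z)) <;> simp
    · rw [if_neg hc, if_neg hc]
      ring

theorem E_Fz_aux (t : ℕ) (z : ℤ) : E (Fz t z) = 0 := by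
  have h1 := E_fl (Sum.inr (Sum.inl z)) (Fz t z)
  have h2 : (fun ω => Fz t z (fl (Sum.inr (Sum.inl z)) ω)) = fun ω => (-1) * Fz t z ω := by
    funext ω
    exact Fz_fl_aux t z ω
  rw [h2, E_cmul] at h1
  linarith

theorem cross_aux (t : ℕ) (ω : Om) : Phi t ω * Bn t ω * (rs ω (X t ω).2 : ℝ)
    = ∑ z ∈ Finset.Icc (-(t:ℤ)) (t:ℤ), Fz t z ω := by
  have hb := (X_bd t ω).2
  rw [abs_le] at hb
  rw [Finset.sum_eq_single (X t ω).2]
  · unfold Fz Bn
    by_cases h : ω (Sum.inl t) = true ∧ (X t ω).2 ∉ R t ω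
    · rw [if_pos h, if_pos ⟨h.1, rfl, h.2⟩]
      ring
    · rw [if_neg h, if_neg (fun hh => h ⟨hh.1, hh.2.2⟩)]
      ring
  · intro z _ hz
    unfold Fz
    rw [if_neg (fun hh => hz hh.2.1.symm)]
  · intro hcon
    exfalso
    exact hcon (Finset.mem_Icc.2 hb)

/-- the score has second moment equal to the expected number of used rows -/
theorem Phi_sq (t : ℕ) : E (fun ω => (Phi t ω)^2) = E (fun ω => ((R t ω).card : ℝ)) := by
  induction t with
  | zero =>
    congr 1
    funext ω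
    simp [Phi, R]
  | succ t ih =>
    have hPhi2 : Loc (fun ω => (Phi t ω)^2) := Loc_comp (fun x => x^2) (Loc_Phi t)
    have hB : Loc (Bn t) := Loc_Bn_aux t
    have hF : ∀ z ∈ Finset.Icc (-(t:ℤ)) (t:ℤ), Loc (Fz t z) := by
      intro z hz
      rw [Finset.mem_Icc] at hz
      exact Loc_Fz_aux t z (abs_le.2 hz)
    have h1 : (fun ω => (Phi (t+1) ω)^2) = fun ω => ((Phi t ω)^2 + Bn t ω)
        + 2 * (∑ z ∈ Finset.Icc (-(t:ℤ)) (t:ℤ), Fz t z ω) := by
      funext ω
      rw [Phi_succ_sq_aux, cross_aux]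
    have h2 : (fun ω => ((R (t+1) ω).card : ℝ)) = fun ω => ((R t ω).card : ℝ) + Bn t ω := by
      funext ω
      rw [card_succ_aux]
    rw [h1, h2]
    have hsum : Loc (fun ω => ∑ z ∈ Finset.Icc (-(t:ℤ)) (t:ℤ), Fz t z ω) := Loc_sum _ _ hF
    rw [E_add (F := fun ω => (Phi t ω)^2 + Bn t ω)
      (G := fun ω => 2 * (∑ z ∈ Finset.Icc (-(t:ℤ)) (t:ℤ), Fz t z ω))
      (Loc_add hPhi2 hB) (Loc_mul (Loc_const 2) hsum)]
    rw [E_add hPhi2 hB, E_cmul, E_sum _ _ hF, ih, E_add (Loc_card t) hB]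
    have h0 : ∑ z ∈ Finset.Icc (-(t:ℤ)) (t:ℤ), E (Fz t z) = 0 :=
      Finset.sum_eq_zero (fun z _ => E_Fz_aux t z)
    have h0' : ∑ i ∈ Finset.Icc (-(t:ℤ)) (t:ℤ), E (Fz t i) = 0 := h0
    rw [h0']
    ring

end MV
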