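import Pool.Agent.Helper870.MV.Defs
import Pool.Agent.Helper870.MV.A1
import Pool.Agent.Helper870.MV.A3
import Pool.Agent.Helper870.MV.A5

set_option autoImplicit false
set_option linter.unusedSectionVars false

open Finset MeasureTheory

noncomputable section

-- USES: A1 A3 A5
namespace MV

theorem x_Phi_odd (i : Ix) (F : Om → ℝ) (h : ∀ ω, F (fl i ω) = - F ω) : E F = 0 := by
  have h1 := E_fl i F
  have h2 : E (fun ω => F (fl i ω)) = - E F := by
    have h3 := E_cmul (-1) F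
    have h4 : (fun ω => F (fl i ω)) = (fun ω => (-1) * F ω) := by
      funext ω
      rw [h]
      ring
    rw [h4, h3]
    ring
  linarith

theorem x_Phi_flfl (i : Ix) (ω : Om) : fl i (fl i ω) = ω := by
  unfold fl
  simp

theorem x_Phi_rs_same (z : ℤ) (ω : Om) : rs (fl (Sum.inr (Sum.inl z)) ω) z = - rs ω z := by
  unfold rs fl
  rw [Function.update_self]
  cases ω (Sum.inr (Sum.inl z)) <;> simp

theorem x_Phi_rs_ne (z w : ℤ) (hne : w ≠ z) (ω : Om) :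
    rs (fl (Sum.inr (Sum.inl z)) ω) w = rs ω w := by
  unfold rs fl
  rw [Function.update_of_ne]
  intro h
  apply hne
  exact Sum.inl.inj (Sum.inr.inj h)

theorem x_Phi_coin (z : ℤ) (n : ℕ) (ω : Om) :
    (fl (Sum.inr (Sum.inl z)) ω) (Sum.inl n) = ω (Sum.inl n) := by
  unfold fl
  rw [Function.update_of_ne]
  simp

theorem x_Phi_Rsub (t : ℕ) (ω : Om) (z : ℤ) (hz : z ∈ R t ω) : |z| ≤ (t:ℤ) := by
  unfold R at hz
  rw [Finset.mem_image] at hz
  obtain ⟨s, hs, rfl⟩ := hz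
  rw [Finset.mem_filter, Finset.mem_range] at hs
  have h1 := (X_bd s ω).2
  have h2 : (s:ℤ) ≤ (t:ℤ) := by exact_mod_cast hs.1.le
  exact h1.trans h2

theorem x_Phi_rssq (z : ℤ) (ω : Om) : (rs ω z : ℝ) * (rs ω z : ℝ) = 1 := by
  unfold rs
  split_ifs <;> simp

/-- the sum of the row signs in a window -/
def x_Phi_S (M : ℤ) (ω : Om) : ℝ := ∑ z ∈ Finset.Icc (-M) M, (rs ω z : ℝ)

/-- the horizontal step at time `s` -/
def x_Phi_h (s : ℕ) (ω : Om) : ℝ :=
  (if ω (Sum.inl s) = true then (1:ℝ) else 0) * (rs ω (X s ω).2 : ℝ)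

theorem x_Phi_Lrs (z : ℤ) : Loc (fun ω => (rs ω z : ℝ)) :=
  Loc_coord (Sum.inr (Sum.inl z)) (fun b => ((if b = true then (1:ℤ) else -1 : ℤ) : ℝ))

theorem x_Phi_LS (M : ℤ) : Loc (x_Phi_S M) :=
  Loc_sum _ _ (fun z _ => x_Phi_Lrs z)

theorem x_Phi_Lh (s : ℕ) : Loc (x_Phi_h s) :=
  Loc_mul (Loc_coord (Sum.inl s) (fun b => if b = true then (1:ℝ) else 0)) (Loc_rsX s)

/-- step (i) -/
theorem x_Phi_i (t : ℕ) (M : ℤ) (hM : (t:ℤ) ≤ M) :
    E (fun ω => ((X t ω).1 : ℝ) * Phi t ω) = E (fun ω => ((X t ω).1 : ℝ) * x_Phi_S M ω) := by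
  have h1 : (fun ω => ((X t ω).1 : ℝ) * x_Phi_S M ω) = (fun ω => ((X t ω).1 : ℝ) * Phi t ω +
      ∑ z ∈ Finset.Icc (-M) M, ((X t ω).1 : ℝ) * ((if z ∈ R t ω then 0 else 1) * (rs ω z : ℝ))) := by
    funext ω
    have hsub : R t ω ⊆ Finset.Icc (-M) M := by
      intro z hz
      have := x_Phi_Rsub t ω z hz
      rw [Finset.mem_Icc]
      rw [abs_le] at this
      constructor <;> linarith [this.1, this.2]
    have hPhi : Phi t ω = ∑ z ∈ Finset.Icc (-M) M, (if z ∈ R t ω then (rs ω z : ℝ) else 0) := by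
      rw [Finset.sum_ite_mem, Finset.inter_eq_right.mpr hsub]
      rfl
    rw [hPhi, ← Finset.mul_sum, ← mul_add, ← Finset.sum_add_distrib]
    unfold x_Phi_S
    congr 1
    apply Finset.sum_congr rfl
    intro z _
    split_ifs <;> ring
  have hLX : Loc (fun ω => ((X t ω).1 : ℝ)) := Loc_X t (fun p => (p.1 : ℝ))
  have hLz : ∀ z ∈ Finset.Icc (-M) M, Loc (fun ω => ((X t ω).1 : ℝ) *
      ((if z ∈ R t ω then 0 else 1) * (rs ω z : ℝ))) := by
    intro z _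
    refine Loc_mul hLX (Loc_mul ⟨t, fun ω ω' h => ?_⟩ (x_Phi_Lrs z))
    show (if z ∈ R t ω then (0:ℝ) else 1) = (if z ∈ R t ω' then (0:ℝ) else 1)
    rw [R_ag t ω ω' h]
  rw [h1, E_add (Loc_mul hLX (Loc_Phi t)) (Loc_sum _ _ hLz), E_sum _ _ hLz]
  have h2 : ∀ z ∈ Finset.Icc (-M) M, E (fun ω => ((X t ω).1 : ℝ) *
      ((if z ∈ R t ω then 0 else 1) * (rs ω z : ℝ))) = 0 := by
    intro z _
    apply x_Phi_odd (Sum.inr (Sum.inl z))
    intro ω
    by_cases hz : z ∈ R t ω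
    · have hz' : z ∈ R t (fl (Sum.inr (Sum.inl z)) ω) := by
        by_contra hcon
        have h3 := (fl_unused t z _ hcon).2.1
        rw [x_Phi_flfl] at h3
        rw [h3] at hz
        exact hcon hz
      rw [if_pos hz, if_pos hz']
      ring
    · obtain ⟨ha, hb, _⟩ := fl_unused t z ω hz
      rw [ha t le_rfl, hb, if_neg hz, x_Phi_rs_same]
      push_cast
      ring
  rw [Finset.sum_eq_zero h2, add_zero]

/-- step (ii) -/
theorem x_Phi_ii (t : ℕ) (ω : Om) : ((X t ω).1 : ℝ) = ∑ s ∈ range t, x_Phi_h s ω := by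
  induction t with
  | zero =>
    simp [X]
  | succ t ih =>
    rw [Finset.sum_range_succ, ← ih]
    have hX : X (t + 1) ω = if ω (Sum.inl t) = true then
        ((X t ω).1 + (if ω (Sum.inr (Sum.inl (X t ω).2)) = true then (1 : ℤ) else -1), (X t ω).2)
      else
        ((X t ω).1, (X t ω).2 + (if ω (Sum.inr (Sum.inr (X t ω).1)) = true then (1 : ℤ) else -1)) := rfl
    rw [hX]
    unfold x_Phi_h rs
    by_cases hc : ω (Sum.inl t) = true
    · rw [if_pos hc, if_pos hc]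
      push_cast
      ring
    · rw [if_neg hc, if_neg hc]
      ring

theorem x_Phi_coin0 : E (fun ω => if ω (Sum.inl 0) = true then (1:ℝ) else 0) = 1 / 2 := by
  have h1 := E_fl (Sum.inl 0) (fun ω => if ω (Sum.inl 0) = true then (1:ℝ) else 0)
  have hL : Loc (fun ω : Om => if ω (Sum.inl 0) = true then (1:ℝ) else 0) :=
    Loc_coord (Sum.inl 0) (fun b => if b = true then (1:ℝ) else 0)
  have h2 : (fun ω : Om => (fun ω : Om => if ω (Sum.inl 0) = true then (1:ℝ) else 0)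
      (fl (Sum.inl 0) ω)) = (fun ω : Om => 1 - (if ω (Sum.inl 0) = true then (1:ℝ) else 0)) := by
    funext ω
    unfold fl
    simp only [Function.update_self]
    cases ω (Sum.inl 0) <;> simp
  rw [h2] at h1
  have h3 := E_sub (Loc_const 1) hL
  rw [E_const] at h3
  linarith

/-- step (iii) at time `0` -/
theorem x_Phi_iii0 (M : ℤ) (hM : 0 ≤ M) : E (fun ω => x_Phi_h 0 ω * x_Phi_S M ω) = 1 / 2 := by
  have h1 : (fun ω => x_Phi_h 0 ω * x_Phi_S M ω) =
      (fun ω => ∑ z ∈ Finset.Icc (-M) M, x_Phi_h 0 ω * (rs ω z : ℝ)) := by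
    funext ω
    unfold x_Phi_S
    rw [Finset.mul_sum]
  have hX0 : ∀ ω : Om, (X 0 ω).2 = 0 := fun ω => rfl
  rw [h1, E_sum _ _ (fun z _ => Loc_mul (x_Phi_Lh 0) (x_Phi_Lrs z)),
    Finset.sum_eq_single (0 : ℤ)]
  · have h2 : (fun ω => x_Phi_h 0 ω * (rs ω 0 : ℝ)) =
        (fun ω => if ω (Sum.inl 0) = true then (1:ℝ) else 0) := by
      funext ω
      unfold x_Phi_h
      rw [hX0, mul_assoc, x_Phi_rssq, mul_one]
    rw [h2]
    exact x_Phi_coin0
  · intro z _ hz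
    apply x_Phi_odd (Sum.inr (Sum.inl z))
    intro ω
    unfold x_Phi_h
    rw [hX0, hX0, x_Phi_coin, x_Phi_rs_same, x_Phi_rs_ne z 0 (Ne.symm hz)]
    push_cast
    ring
  · intro h0
    exact absurd (Finset.mem_Icc.mpr ⟨by linarith, hM⟩) h0

/-- step (iii) -/
theorem x_Phi_iii (s : ℕ) (M : ℤ) (hM : 0 ≤ M) :
    E (fun ω => x_Phi_h s ω * x_Phi_S M (Th^[s] ω)) = 1 / 2 := by
  have h1 := E_Th (Loc_mul (x_Phi_Lh 0) (x_Phi_LS M)) s
  rw [x_Phi_iii0 M hM] at h1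
  rw [← h1]
  congr 1
  funext ω
  congr 1
  unfold x_Phi_h
  have hX0 : ∀ ω : Om, (X 0 ω).2 = 0 := fun ω => rfl
  rw [Th_coin, add_zero, hX0]
  have h2 : rs (Th^[s] ω) 0 = rs ω (X s ω).2 := by
    unfold rs
    rw [Th_row, zero_add]
  rw [h2]

theorem x_Phi_shift (g : ℤ → ℝ) (M N Y : ℤ) (h : |Y| + M ≤ N) :
    ∑ z ∈ Finset.Icc (-M) M, g (z + Y) =
      ∑ z ∈ Finset.Icc (-N) N, (if |z - Y| ≤ M then (1:ℝ) else 0) * g z := by
  have h1 : ∑ z ∈ Finset.Icc (-N) N, (if |z - Y| ≤ M then (1:ℝ) else 0) * g z =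
      ∑ z ∈ (Finset.Icc (-N) N).filter (fun z => |z - Y| ≤ M), g z := by
    rw [Finset.sum_filter]
    apply Finset.sum_congr rfl
    intro z _
    split_ifs <;> simp
  rw [h1]
  apply Finset.sum_bij' (fun z _ => z + Y) (fun z _ => z - Y)
  · intro z hz
    rw [Finset.mem_Icc] at hz
    rw [Finset.mem_filter, Finset.mem_Icc, abs_le]
    have h2 := le_abs_self Y
    have h3 := neg_abs_le Y
    refine ⟨⟨by linarith [hz.1], by linarith [hz.2]⟩, by linarith [hz.1], by linarith [hz.2]⟩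
  · intro z hz
    rw [Finset.mem_filter, Finset.mem_Icc, abs_le] at hz
    rw [Finset.mem_Icc]
    exact hz.2
  · intro z _
    ring
  · intro z _
    ring
  · intro z _
    rfl

/-- step (iv) -/
theorem x_Phi_iv (t s : ℕ) (hs : s < t) :
    E (fun ω => x_Phi_h s ω * x_Phi_S (2 * t) ω) =
      E (fun ω => x_Phi_h s ω * x_Phi_S (2 * t) (Th^[s] ω)) := by
  have hst : (s:ℤ) ≤ (t:ℤ) := by exact_mod_cast hs.le
  have hL1 : Loc (fun ω => x_Phi_h s ω * x_Phi_S (2 * t) (Th^[s] ω)) :=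
    Loc_mul (x_Phi_Lh s) (Loc_Th (x_Phi_LS _) s)
  have hLc : ∀ z : ℤ, Loc (fun ω => (if |z - 0| ≤ (2 * t : ℤ) then (1:ℝ) else 0) -
      (if |z - (X s ω).2| ≤ (2 * t : ℤ) then (1:ℝ) else 0)) := fun z =>
    Loc_X s (fun p => (if |z - 0| ≤ (2 * t : ℤ) then (1:ℝ) else 0) -
      (if |z - p.2| ≤ (2 * t : ℤ) then (1:ℝ) else 0))
  have hLz : ∀ z ∈ Finset.Icc (-(3 * t : ℤ)) (3 * t), Loc (fun ω => x_Phi_h s ω *
      (((if |z - 0| ≤ (2 * t : ℤ) then (1:ℝ) else 0) -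
      (if |z - (X s ω).2| ≤ (2 * t : ℤ) then (1:ℝ) else 0)) * (rs ω z : ℝ))) := fun z _ =>
    Loc_mul (x_Phi_Lh s) (Loc_mul (hLc z) (x_Phi_Lrs z))
  have h1 : (fun ω => x_Phi_h s ω * x_Phi_S (2 * t) ω) =
      (fun ω => x_Phi_h s ω * x_Phi_S (2 * t) (Th^[s] ω) +
      ∑ z ∈ Finset.Icc (-(3 * t : ℤ)) (3 * t), x_Phi_h s ω *
      (((if |z - 0| ≤ (2 * t : ℤ) then (1:ℝ) else 0) -
      (if |z - (X s ω).2| ≤ (2 * t : ℤ) then (1:ℝ) else 0)) * (rs ω z : ℝ))) := by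
    funext ω
    have hY := (X_bd s ω).2
    have ha : x_Phi_S (2 * t) ω = ∑ z ∈ Finset.Icc (-(3 * t : ℤ)) (3 * t),
        (if |z - 0| ≤ (2 * t : ℤ) then (1:ℝ) else 0) * (rs ω z : ℝ) := by
      rw [← x_Phi_shift (fun z => (rs ω z : ℝ)) (2 * t) (3 * t) 0 (by simp; omega)]
      unfold x_Phi_S
      simp only [add_zero]
    have hb : x_Phi_S (2 * t) (Th^[s] ω) = ∑ z ∈ Finset.Icc (-(3 * t : ℤ)) (3 * t),
        (if |z - (X s ω).2| ≤ (2 * t : ℤ) then (1:ℝ) else 0) * (rs ω z : ℝ) := by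
      rw [← x_Phi_shift (fun z => (rs ω z : ℝ)) (2 * t) (3 * t) (X s ω).2 (by linarith)]
      unfold x_Phi_S
      apply Finset.sum_congr rfl
      intro z _
      unfold rs
      rw [Th_row]
    rw [ha, hb, ← Finset.mul_sum, ← mul_add, ← Finset.sum_add_distrib]
    congr 1
    apply Finset.sum_congr rfl
    intro z _
    ring
  rw [h1, E_add hL1 (Loc_sum _ _ hLz), E_sum _ _ hLz]
  have h2 : ∀ z ∈ Finset.Icc (-(3 * t : ℤ)) (3 * t), E (fun ω => x_Phi_h s ω *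
      (((if |z - 0| ≤ (2 * t : ℤ) then (1:ℝ) else 0) -
      (if |z - (X s ω).2| ≤ (2 * t : ℤ) then (1:ℝ) else 0)) * (rs ω z : ℝ))) = 0 := by
    intro z _
    by_cases hz : |z| ≤ (t:ℤ)
    · have h3 : (fun ω => x_Phi_h s ω *
          (((if |z - 0| ≤ (2 * t : ℤ) then (1:ℝ) else 0) -
          (if |z - (X s ω).2| ≤ (2 * t : ℤ) then (1:ℝ) else 0)) * (rs ω z : ℝ))) =
          (fun _ => 0) := by
        funext ω
        have hY := (X_bd s ω).2
        have h4 : |z - 0| ≤ (2 * t : ℤ) := by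
          rw [sub_zero]
          linarith [abs_nonneg z]
        have h5 : |z - (X s ω).2| ≤ (2 * t : ℤ) := by
          have := abs_sub z (X s ω).2
          linarith
        rw [if_pos h4, if_pos h5]
        ring
      rw [h3, E_const]
    · apply x_Phi_odd (Sum.inr (Sum.inl z))
      intro ω
      have hzR : z ∉ R t ω := fun h => hz (x_Phi_Rsub t ω z h)
      obtain ⟨ha, _, _⟩ := fl_unused t z ω hzR
      have hXs := ha s hs.le
      have hne : (X s ω).2 ≠ z := by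
        intro h
        apply hz
        rw [← h]
        exact (X_bd s ω).2.trans hst
      unfold x_Phi_h
      rw [hXs, x_Phi_coin, x_Phi_rs_same, x_Phi_rs_ne z _ hne]
      push_cast
      ring
  rw [Finset.sum_eq_zero h2, add_zero]

/-- exact correlation of the displacement with the score -/
theorem x_Phi (t : ℕ) : E (fun ω => ((X t ω).1 : ℝ) * Phi t ω) = (t:ℝ) / 2 := by
  rw [x_Phi_i t (2 * t) (by omega)]
  have h1 : (fun ω => ((X t ω).1 : ℝ) * x_Phi_S (2 * t) ω) =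
      (fun ω => ∑ s ∈ range t, x_Phi_h s ω * x_Phi_S (2 * t) ω) := by
    funext ω
    rw [x_Phi_ii, Finset.sum_mul]
  rw [h1, E_sum _ _ (fun s _ => Loc_mul (x_Phi_Lh s) (x_Phi_LS _))]
  have h2 : ∀ s ∈ range t, E (fun ω => x_Phi_h s ω * x_Phi_S (2 * t) ω) = 1 / 2 := by
    intro s hs
    rw [x_Phi_iv t s (Finset.mem_range.mp hs)]
    exact x_Phi_iii s _ (by positivity)
  rw [Finset.sum_congr rfl h2, Finset.sum_const, Finset.card_range, nsmul_eq_mul]
  ring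

/-- main inequality -/
theorem main_ineq (t : ℕ) : (t:ℝ)^2 / 4 ≤ ax t * E (fun ω => ((R t ω).card : ℝ)) := by
  have h1 := E_cs (Loc_X t (fun p => (p.1 : ℝ))) (Loc_Phi t)
  rw [x_Phi, Phi_sq] at h1
  have h2 : ((t:ℝ) / 2)^2 = (t:ℝ)^2 / 4 := by ring
  rw [h2] at h1
  exact h1

end MV
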