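import Pool.Agent.Helper870.MV.Defs
import Pool.Agent.Helper870.MV.A1
import Pool.Agent.Helper870.MV.A3

set_option autoImplicit false
set_option linter.unusedSectionVars false

open Finset MeasureTheory

noncomputable section

-- USES: A1 A3
namespace MV

theorem A9_y0 (ω : Om) : X 0 ω = (0, 0) := rfl

theorem V_ay (t : ℕ) : V t = 2 * ay t := by
  unfold V
  rw [E_add (Loc_X t (fun p => (p.1 : ℝ)^2)) (Loc_X t (fun p => (p.2 : ℝ)^2))]
  have h := ax_ay t
  unfold ax at h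
  rw [h]
  unfold ay
  ring

theorem R_mono {s t : ℕ} (h : s ≤ t) (ω : Om) : R s ω ⊆ R t ω := by
  unfold R
  apply Finset.image_subset_image
  apply Finset.filter_subset_filter
  exact Finset.range_subset_range.2 h

theorem A9_dyadic (J : ℕ) : ∀ (f : ℕ → ℝ), f 0 = 0 → ∀ s : ℕ, s < 2^J →
    |f s| ≤ ∑ j ∈ range J, Real.sqrt (∑ i ∈ range (2^(J-j)), (f (i * 2^j + 2^j) - f (i * 2^j))^2) := by
  induction J with
  | zero =>
    intro f hf s hs
    have : s = 0 := by simpa using hs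
    subst this
    simp [hf]
  | succ J ih =>
    intro f hf s hs
    have h1 := ih (fun i => f (2 * i)) (by simpa using hf) (s / 2) (by rw [pow_succ] at hs; omega)
    have h2 : |f s - f (2 * (s / 2))| ≤ Real.sqrt (∑ i ∈ range (2^(J+1)), (f (i + 1) - f i)^2) := by
      rcases Nat.even_or_odd' s with ⟨c, hc | hc⟩
      · have : 2 * (s / 2) = s := by omega
        rw [this, sub_self, abs_zero]
        exact Real.sqrt_nonneg _
      · have h3 : 2 * (s / 2) = 2 * c := by omega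
        rw [h3]
        apply Real.abs_le_sqrt
        have h4 : 2 * c ∈ range (2^(J+1)) := by
          rw [mem_range]; omega
        have h5 := Finset.single_le_sum (f := fun i => (f (i + 1) - f i)^2) (fun i _ => sq_nonneg _) h4
        rw [hc]
        exact h5
    rw [Finset.sum_range_succ']
    have h6 : ∑ j ∈ range J, Real.sqrt (∑ i ∈ range (2^(J+1-(j+1))), (f (i * 2^(j+1) + 2^(j+1)) - f (i * 2^(j+1)))^2)
        = ∑ j ∈ range J, Real.sqrt (∑ i ∈ range (2^(J-j)), (f (2 * (i * 2^j + 2^j)) - f (2 * (i * 2^j)))^2) := by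
      refine Finset.sum_congr rfl fun j _ => ?_
      rw [Nat.add_sub_add_right]
      congr 1
      refine Finset.sum_congr rfl fun i _ => ?_
      rw [show i * 2^(j+1) + 2^(j+1) = 2 * (i * 2^j + 2^j) by ring, show i * 2^(j+1) = 2 * (i * 2^j) by ring]
    rw [h6]
    simp only [pow_zero, mul_one, Nat.sub_zero]
    have h7 : |f s| ≤ |f s - f (2 * (s / 2))| + |f (2 * (s / 2))| := by
      have := abs_add_le (f s - f (2 * (s / 2))) (f (2 * (s / 2)))
      simpa using this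
    linarith

theorem A9_card (J : ℕ) (ω : Om) : ((R (2^J) ω).card : ℝ)
    ≤ 1 + 2 * ∑ j ∈ range J, Real.sqrt (∑ i ∈ range (2^(J-j)),
      (((X (i * 2^j + 2^j) ω).2 : ℝ) - ((X (i * 2^j) ω).2 : ℝ))^2) := by
  set B : ℝ := ∑ j ∈ range J, Real.sqrt (∑ i ∈ range (2^(J-j)),
      (((X (i * 2^j + 2^j) ω).2 : ℝ) - ((X (i * 2^j) ω).2 : ℝ))^2) with hB
  have hB0 : 0 ≤ B := Finset.sum_nonneg fun j _ => Real.sqrt_nonneg _
  have hb : ∀ s, s < 2^J → |((X s ω).2 : ℝ)| ≤ B := fun s hs =>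
    A9_dyadic J (fun s => ((X s ω).2 : ℝ)) (by simp [A9_y0]) s hs
  have hsub : R (2^J) ω ⊆ Finset.Icc (-(⌊B⌋₊ : ℤ)) (⌊B⌋₊ : ℤ) := by
    intro z hz
    unfold R at hz
    rw [Finset.mem_image] at hz
    obtain ⟨s, hs, rfl⟩ := hz
    rw [Finset.mem_filter, Finset.mem_range] at hs
    have h1 := hb s hs.1
    have h2 : |(X s ω).2| ≤ (⌊B⌋₊ : ℤ) := by
      have h3 : ((X s ω).2).natAbs ≤ ⌊B⌋₊ := by
        apply Nat.le_floor
        have : (((X s ω).2.natAbs : ℕ) : ℝ) = |((X s ω).2 : ℝ)| := by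
          rw [← Int.cast_abs, Int.abs_eq_natAbs]
          simp
        rw [this]
        exact h1
      rw [Int.abs_eq_natAbs]
      exact_mod_cast h3
    rw [Finset.mem_Icc]
    exact abs_le.1 h2
  have h1 := Finset.card_le_card hsub
  rw [Int.card_Icc] at h1
  have h2 : ((⌊B⌋₊ : ℤ) + 1 - -(⌊B⌋₊ : ℤ)).toNat = 2 * ⌊B⌋₊ + 1 := by omega
  rw [h2] at h1
  have h3 : ((R (2^J) ω).card : ℝ) ≤ ((2 * ⌊B⌋₊ + 1 : ℕ) : ℝ) := by exact_mod_cast h1
  have h4 := Nat.floor_le hB0
  push_cast at h3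
  linarith

theorem A9_inc (s n : ℕ) : E (fun ω => (((X (s + n) ω).2 : ℝ) - ((X s ω).2 : ℝ))^2) = ay n := by
  have h := E_Th (Loc_X n (fun p => (p.2 : ℝ)^2)) s
  unfold ay
  rw [← h]
  congr 1
  funext ω
  rw [X_add]
  simp

/-- chaining bound for the expected number of used rows -/
theorem chain (J : ℕ) : E (fun ω => ((R (2^J) ω).card : ℝ))
    ≤ 1 + 2 * ∑ j ∈ range (J+1), Real.sqrt ((2:ℝ)^(J-j) * ay (2^j)) := by
  set S : ℕ → Om → ℝ := fun j ω => ∑ i ∈ range (2^(J-j)),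
      (((X (i * 2^j + 2^j) ω).2 : ℝ) - ((X (i * 2^j) ω).2 : ℝ))^2 with hS
  have hSl : ∀ j, Loc (S j) := by
    intro j
    apply Loc_sum
    intro i _
    exact Loc_comp (fun x => x^2) (Loc_sub (Loc_X (i * 2^j + 2^j) (fun p => (p.2 : ℝ)))
      (Loc_X (i * 2^j) (fun p => (p.2 : ℝ))))
  have hS0 : ∀ j ω, 0 ≤ S j ω := fun j ω => Finset.sum_nonneg fun i _ => sq_nonneg _
  have hQl : ∀ j, Loc (fun ω => Real.sqrt (S j ω)) := fun j => Loc_comp Real.sqrt (hSl j)
  have hES : ∀ j, E (S j) = (2:ℝ)^(J-j) * ay (2^j) := by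
    intro j
    have h1 : E (S j) = ∑ i ∈ range (2^(J-j)), E (fun ω => (((X (i * 2^j + 2^j) ω).2 : ℝ) - ((X (i * 2^j) ω).2 : ℝ))^2) := by
      apply E_sum
      intro i _
      exact Loc_comp (fun x => x^2) (Loc_sub (Loc_X (i * 2^j + 2^j) (fun p => (p.2 : ℝ)))
        (Loc_X (i * 2^j) (fun p => (p.2 : ℝ))))
    rw [h1]
    simp only [A9_inc]
    rw [Finset.sum_const, card_range, nsmul_eq_mul]
    push_cast
    rfl
  have hEQ : ∀ j, E (fun ω => Real.sqrt (S j ω)) ≤ Real.sqrt ((2:ℝ)^(J-j) * ay (2^j)) := by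
    intro j
    have h1 := E_cs (hQl j) (Loc_const 1)
    simp only [mul_one, one_pow, E_const] at h1
    have h2 : (fun ω => Real.sqrt (S j ω)^2) = S j := by
      funext ω
      exact Real.sq_sqrt (hS0 j ω)
    rw [h2, hES] at h1
    exact (le_abs_self _).trans (Real.abs_le_sqrt h1)
  have hsumL : Loc (fun ω => ∑ j ∈ range J, Real.sqrt (S j ω)) :=
    Loc_sum _ _ (fun j _ => hQl j)
  calc E (fun ω => ((R (2^J) ω).card : ℝ))
      ≤ E (fun ω => 1 + 2 * ∑ j ∈ range J, Real.sqrt (S j ω)) :=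
        E_mono (Loc_card _) (Loc_add (Loc_const 1) (Loc_mul (Loc_const 2) hsumL)) (fun ω => A9_card J ω)
    _ = 1 + 2 * ∑ j ∈ range J, E (fun ω => Real.sqrt (S j ω)) := by
        rw [E_add (Loc_const 1) (Loc_mul (Loc_const 2) hsumL), E_const, E_cmul,
          E_sum _ _ (fun j _ => hQl j)]
    _ ≤ 1 + 2 * ∑ j ∈ range (J+1), Real.sqrt ((2:ℝ)^(J-j) * ay (2^j)) := by
        rw [Finset.sum_range_succ]
        have h1 := Finset.sum_le_sum (fun j (_ : j ∈ range J) => hEQ j)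
        have h2 := Real.sqrt_nonneg ((2:ℝ)^(J-J) * ay (2^J))
        linarith

theorem V_sub (s n : ℕ) : V (s+n) ≤ 2 * V s + 2 * V n := by
  have hl1 := Loc_X s (fun p => (p.1 : ℝ)^2 + (p.2 : ℝ)^2)
  have hl2 := Loc_X n (fun p => (p.1 : ℝ)^2 + (p.2 : ℝ)^2)
  have hl3 := Loc_Th hl2 s
  have hl4 := Loc_X (s+n) (fun p => (p.1 : ℝ)^2 + (p.2 : ℝ)^2)
  have h1 := E_Th hl2 s
  calc V (s+n) ≤ E (fun ω => 2 * (((X s ω).1 : ℝ)^2 + ((X s ω).2 : ℝ)^2)
        + 2 * (((X n (Th^[s] ω)).1 : ℝ)^2 + ((X n (Th^[s] ω)).2 : ℝ)^2)) := by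
        apply E_mono hl4 (Loc_add (Loc_mul (Loc_const 2) hl1) (Loc_mul (Loc_const 2) hl3))
        intro ω
        rw [X_add]
        simp only [Prod.fst_add, Prod.snd_add, Int.cast_add]
        nlinarith [sq_nonneg (((X s ω).1 : ℝ) - ((X n (Th^[s] ω)).1 : ℝ)),
          sq_nonneg (((X s ω).2 : ℝ) - ((X n (Th^[s] ω)).2 : ℝ))]
    _ = 2 * V s + 2 * V n := by
        rw [E_add (Loc_mul (Loc_const 2) hl1) (Loc_mul (Loc_const 2) hl3), E_cmul, E_cmul, h1]
        rfl

theorem A9_norm (ω : Om) (t : ℕ) : |(X t ω).1| + |(X t ω).2| ≤ (t : ℤ) := by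
  induction t with
  | zero => simp [A9_y0]
  | succ n ih =>
    have h : X (n+1) ω = if ω (Sum.inl n) = true then
        ((X n ω).1 + (if ω (Sum.inr (Sum.inl (X n ω).2)) = true then (1 : ℤ) else -1), (X n ω).2)
      else
        ((X n ω).1, (X n ω).2 + (if ω (Sum.inr (Sum.inr (X n ω).1)) = true then (1 : ℤ) else -1)) := rfl
    rw [h]
    push_cast
    split_ifs <;> dsimp only
    · have := abs_add_le (X n ω).1 1
      simp at this
      linarith
    · have := abs_add_le (X n ω).1 (-1)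
      simp at this
      linarith
    · have := abs_add_le (X n ω).2 1
      simp at this
      linarith
    · have := abs_add_le (X n ω).2 (-1)
      simp at this
      linarith

theorem V_triv (t : ℕ) : 0 ≤ V t ∧ V t ≤ (t:ℝ)^2 := by
  have hl := Loc_X t (fun p => (p.1 : ℝ)^2 + (p.2 : ℝ)^2)
  constructor
  · have := E_mono (Loc_const 0) hl (fun ω => by positivity)
    rw [E_const] at this
    exact this
  · have := E_mono hl (Loc_const ((t:ℝ)^2)) (fun ω => by
      have h1 := A9_norm ω t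
      have h2 : |((X t ω).1 : ℝ)| + |((X t ω).2 : ℝ)| ≤ (t : ℝ) := by exact_mod_cast h1
      have h3 := abs_nonneg ((X t ω).1 : ℝ)
      have h4 := abs_nonneg ((X t ω).2 : ℝ)
      rw [← sq_abs ((X t ω).1 : ℝ), ← sq_abs ((X t ω).2 : ℝ)]
      nlinarith [mul_nonneg h3 h4])
    rw [E_const] at this
    exact this

theorem A9_V0 : V 0 = 0 := by
  have h := V_triv 0
  have : ((0:ℕ):ℝ)^2 = 0 := by simp
  rw [this] at h
  exact le_antisymm h.2 h.1

theorem V_avg (t : ℕ) : (t:ℝ) * V t ≤ 4 * ∑ s ∈ Icc 1 t, V s := by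
  have h1 : ∑ s ∈ Icc 1 t, V t ≤ ∑ s ∈ Icc 1 t, (2 * V s + 2 * V (t - s)) := by
    apply Finset.sum_le_sum
    intro s hs
    rw [Finset.mem_Icc] at hs
    have := V_sub s (t - s)
    rwa [Nat.add_sub_cancel' hs.2] at this
  rw [Finset.sum_const, Nat.card_Icc, nsmul_eq_mul, Nat.add_sub_cancel, Finset.sum_add_distrib,
    ← Finset.mul_sum, ← Finset.mul_sum] at h1
  have h2 : ∑ s ∈ Icc 1 t, V (t - s) ≤ ∑ s ∈ Icc 1 t, V s := by
    have h3 : ∑ s ∈ Icc 1 t, V (t - s) = ∑ s ∈ range t, V s := by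
      rw [← Finset.sum_range_reflect]
      rw [Finset.range_eq_Ico, Finset.sum_Ico_eq_sum_range]
      have h4 : Icc 1 t = Ico 1 (t+1) := by
        ext a; rw [Finset.mem_Icc, Finset.mem_Ico]; omega
      rw [h4, Finset.sum_Ico_eq_sum_range]
      simp only [Nat.add_sub_cancel, Nat.sub_zero, zero_add]
      refine Finset.sum_congr rfl fun a _ => ?_
      congr 1
      omega
    have h5 : ∑ s ∈ range (t+1), V s = ∑ s ∈ Icc 1 t, V s := by
      rw [Finset.sum_range_succ', A9_V0, add_zero]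
      have h4 : Icc 1 t = Ico 1 (t+1) := by
        ext a; rw [Finset.mem_Icc, Finset.mem_Ico]; omega
      rw [h4, Finset.sum_Ico_eq_sum_range]
      simp only [Nat.add_sub_cancel]
      refine Finset.sum_congr rfl fun a _ => ?_
      congr 1
      omega
    rw [h3, ← h5, Finset.sum_range_succ]
    linarith [(V_triv t).1]
  linarith

theorem ay_one : ay 1 = 1/2 := by
  have h0 : ay 1 = E (fun ω => (fun b : Bool => if b = true then (0:ℝ) else 1) (ω (Sum.inl 0))) := by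
    unfold ay
    congr 1
    funext ω
    have h : X 1 ω = if ω (Sum.inl 0) = true then
        ((0 : ℤ) + (if ω (Sum.inr (Sum.inl 0)) = true then (1 : ℤ) else -1), 0)
      else
        (0, (0 : ℤ) + (if ω (Sum.inr (Sum.inr 0)) = true then (1 : ℤ) else -1)) := rfl
    rw [h]
    split_ifs <;> simp [*]
  have h1 := E_fl (Sum.inl 0) (fun ω => (fun b : Bool => if b = true then (0:ℝ) else 1) (ω (Sum.inl 0)))
  have h2 : (fun ω : Om => (fun b : Bool => if b = true then (0:ℝ) else 1) (fl (Sum.inl 0) ω (Sum.inl 0)))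
      = fun ω : Om => (fun b : Bool => if b = true then (1:ℝ) else 0) (ω (Sum.inl 0)) := by
    funext ω
    have : fl (Sum.inl 0) ω (Sum.inl 0) = !ω (Sum.inl 0) := by
      unfold fl
      rw [Function.update_self]
    rw [this]
    cases ω (Sum.inl 0) <;> simp
  rw [h2] at h1
  have h3 := E_add (Loc_coord (Sum.inl 0) (fun b : Bool => if b = true then (0:ℝ) else 1))
    (Loc_coord (Sum.inl 0) (fun b : Bool => if b = true then (1:ℝ) else 0))
  have h4 : (fun ω : Om => (fun b : Bool => if b = true then (0:ℝ) else 1) (ω (Sum.inl 0))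
      + (fun b : Bool => if b = true then (1:ℝ) else 0) (ω (Sum.inl 0))) = fun _ => (1:ℝ) := by
    funext ω
    cases ω (Sum.inl 0) <;> simp
  rw [h4, E_const] at h3
  rw [h0]
  linarith

end MV
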