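import Pool.Agent.Helper870.MV.Defs
import Pool.Agent.Helper870.MV.A1

set_option autoImplicit false
set_option linter.unusedSectionVars false

open Finset MeasureTheory

noncomputable section

-- USES: A1
namespace MV

/-- time reversal up to time `t` -/
def Rev (t : ℕ) (ω : Om) : Om := fun i => match i with
  | Sum.inl n => if n < t then ω (Sum.inl (t - 1 - n)) else ω (Sum.inl n)
  | Sum.inr (Sum.inl z) => !ω (Sum.inr (Sum.inl (z + (X t ω).2)))
  | Sum.inr (Sum.inr z) => !ω (Sum.inr (Sum.inr (z + (X t ω).1)))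

theorem X_succ' (n : ℕ) (ω : Om) : X (n+1) ω =
    if ω (Sum.inl n) = true then
        ((X n ω).1 + (if ω (Sum.inr (Sum.inl (X n ω).2)) = true then (1 : ℤ) else -1), (X n ω).2)
      else
        ((X n ω).1, (X n ω).2 + (if ω (Sum.inr (Sum.inr (X n ω).1)) = true then (1 : ℤ) else -1)) := rfl

theorem X_zero' (ω : Om) : X 0 ω = (0, 0) := rfl

theorem neg_sgn (b : Bool) : (if (!b) = true then (1 : ℤ) else -1) = -(if b = true then (1 : ℤ) else -1) := by
  cases b <;> simp

theorem X_Rev (t : ℕ) (ω : Om) : ∀ s, s ≤ t → X s (Rev t ω) = X (t - s) ω - X t ω := by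
  intro s
  induction s with
  | zero => intro _; rw [X_zero']; simp
  | succ s ih =>
    intro hs
    have ih' := ih (by omega)
    obtain ⟨m, hm⟩ : ∃ m, m = t - (s + 1) := ⟨_, rfl⟩
    have h1 : t - s = m + 1 := by omega
    have h2 : t - 1 - s = m := by omega
    rw [← hm]
    rw [h1] at ih'
    have hc : Rev t ω (Sum.inl s) = ω (Sum.inl m) := by
      show (if s < t then ω (Sum.inl (t - 1 - s)) else ω (Sum.inl s)) = _
      rw [if_pos (by omega), h2]
    have hr : ∀ z, Rev t ω (Sum.inr (Sum.inl z)) = !ω (Sum.inr (Sum.inl (z + (X t ω).2))) :=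
      fun z => rfl
    have hcc : ∀ z, Rev t ω (Sum.inr (Sum.inr z)) = !ω (Sum.inr (Sum.inr (z + (X t ω).1))) :=
      fun z => rfl
    rw [X_succ', ih', hc, hr, hcc]
    rw [X_succ' m ω]
    by_cases hb : ω (Sum.inl m) = true
    · rw [if_pos hb, if_pos hb, neg_sgn]
      ext
      · simp
        ring
      · simp
    · rw [if_neg hb, if_neg hb, neg_sgn]
      ext
      · simp
      · simp
        ring

theorem Loc_Rev {F : Om → ℝ} (h : Loc F) (t : ℕ) : Loc (fun ω => F (Rev t ω)) := by
  obtain ⟨t0, h0⟩ := h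
  refine ⟨t0 + t, fun ω ω' hA => h0 _ _ ?_⟩
  have hX : X t ω = X t ω' := X_ag (t0 + t) ω ω' hA t (by omega)
  have hb := X_bd t ω
  obtain ⟨h1, h2, h3⟩ := hA
  refine ⟨?_, ?_, ?_⟩
  · intro n hn
    show (if n < t then ω (Sum.inl (t - 1 - n)) else ω (Sum.inl n)) =
      (if n < t then ω' (Sum.inl (t - 1 - n)) else ω' (Sum.inl n))
    by_cases hnt : n < t
    · rw [if_pos hnt, if_pos hnt]; exact h1 _ (by omega)
    · rw [if_neg hnt, if_neg hnt]; exact h1 _ (by omega)
  · intro z hz
    show (!ω (Sum.inr (Sum.inl (z + (X t ω).2)))) = (!ω' (Sum.inr (Sum.inl (z + (X t ω').2))))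
    rw [← hX]
    rw [h2]
    have := abs_add_le z (X t ω).2
    push_cast
    linarith [hb.2]
  · intro z hz
    show (!ω (Sum.inr (Sum.inr (z + (X t ω).1)))) = (!ω' (Sum.inr (Sum.inr (z + (X t ω').1))))
    rw [← hX]
    rw [h3]
    have := abs_add_le z (X t ω).1
    push_cast
    linarith [hb.1]

/-- index map of the reversal -/
def pw (t : ℕ) (w : ℤ × ℤ) : Ix → Ix := fun i => match i with
  | Sum.inl n => if n < t then Sum.inl (t - 1 - n) else Sum.inl n
  | Sum.inr (Sum.inl z) => Sum.inr (Sum.inl (z + w.2))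
  | Sum.inr (Sum.inr z) => Sum.inr (Sum.inr (z + w.1))

def gw : Ix → Bool → Bool := fun i b => match i with
  | Sum.inl _ => b
  | Sum.inr _ => !b

def rw' (t : ℕ) (w : ℤ × ℤ) (ω : Om) : Om := fun i => gw i (ω (pw t w i))

theorem pw_pw (t : ℕ) (w : ℤ × ℤ) (i : Ix) : pw t w (pw t (-w) i) = i := by
  rcases i with n | z | z
  · show pw t w (if n < t then Sum.inl (t - 1 - n) else Sum.inl n) = _
    by_cases hn : n < t
    · rw [if_pos hn]
      show (if t - 1 - n < t then Sum.inl (t - 1 - (t - 1 - n)) else Sum.inl (t - 1 - n)) = _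
      rw [if_pos (by omega)]
      congr 1
      omega
    · rw [if_neg hn]
      show (if n < t then Sum.inl (t - 1 - n) else Sum.inl n) = _
      rw [if_neg hn]
  · show Sum.inr (Sum.inl (z + (-w).2 + w.2)) = _
    simp
  · show Sum.inr (Sum.inr (z + (-w).1 + w.1)) = _
    simp

theorem pw_inj (t : ℕ) (w : ℤ × ℤ) : Function.Injective (pw t w) := by
  have h : ∀ i, pw t (-w) (pw t w i) = i := by
    intro i
    have := pw_pw t (-w) i
    rwa [neg_neg] at this
  exact Function.LeftInverse.injective h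

theorem gw_pw (t : ℕ) (w : ℤ × ℤ) (i : Ix) (b : Bool) : gw i (gw (pw t w i) b) = b := by
  rcases i with n | z | z
  · by_cases hn : n < t
    · have : pw t w (Sum.inl n) = Sum.inl (t - 1 - n) := by
        show (if n < t then Sum.inl (t - 1 - n) else Sum.inl n) = _
        rw [if_pos hn]
      rw [this]; rfl
    · have : pw t w (Sum.inl n) = Sum.inl n := by
        show (if n < t then Sum.inl (t - 1 - n) else Sum.inl n) = _
        rw [if_neg hn]
      rw [this]; rfl
  · show (!(!b)) = b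
    simp
  · show (!(!b)) = b
    simp

theorem rw_rw (t : ℕ) (w : ℤ × ℤ) (ω : Om) : rw' t (-w) (rw' t w ω) = ω := by
  funext i
  show gw i (gw (pw t (-w) i) (ω (pw t w (pw t (-w) i)))) = ω i
  rw [gw_pw, pw_pw]

theorem Rev_eq (t : ℕ) (ω : Om) : Rev t ω = rw' t (X t ω) ω := by
  funext i
  rcases i with n | z | z
  · show (if n < t then ω (Sum.inl (t - 1 - n)) else ω (Sum.inl n)) =
      ω (if n < t then Sum.inl (t - 1 - n) else Sum.inl n)
    by_cases hn : n < t
    · rw [if_pos hn, if_pos hn]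
    · rw [if_neg hn, if_neg hn]
  · rfl
  · rfl

theorem X_rw1 (t : ℕ) (w : ℤ × ℤ) (ω : Om) (h : X t ω = w) : X t (rw' t w ω) = -w := by
  have h1 := X_Rev t ω t le_rfl
  rw [Rev_eq, h] at h1
  rw [h1]
  simp [X_zero']

theorem X_rw (t : ℕ) (w : ℤ × ℤ) (ω : Om) : X t ω = w ↔ X t (rw' t w ω) = -w := by
  constructor
  · exact X_rw1 t w ω
  · intro h
    have := X_rw1 t (-w) (rw' t w ω) h
    rw [rw_rw, neg_neg] at this
    exact this

theorem map_not : (PMF.uniformOfFintype Bool).toMeasure.map (fun b => !b) =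
    (PMF.uniformOfFintype Bool).toMeasure := by
  rw [PMF.toMeasure_map]
  · congr 1
    ext b
    rw [PMF.map_apply, tsum_bool]
    cases b <;> simp
  · exact measurable_of_finite _

theorem P_rw (t : ℕ) (w : ℤ × ℤ) : P.map (rw' t w) = P := by
  have h1 : P.map (fun (ω : Om) i => ω (pw t w i)) = P :=
    Measure.map_infinitePi_infinitePi_of_inj (P := fun _ : Ix => (PMF.uniformOfFintype Bool).toMeasure)
      (pw_inj t w)
  have h2 : P.map (fun (ω : Om) i => gw i (ω i)) = P := by
    have := Measure.infinitePi_map_pi (μ := fun _ : Ix => (PMF.uniformOfFintype Bool).toMeasure)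
      (f := gw) (fun i => measurable_of_finite _)
    unfold P
    rw [this]
    congr 1
    funext i
    rcases i with n | z
    · show Measure.map (fun b => b) _ = _
      exact Measure.map_id
    · exact map_not
  have h3 : Measurable (fun (ω : Om) (i : Ix) => ω (pw t w i)) := by
    exact measurable_pi_lambda _ (fun i => measurable_pi_apply _)
  have h4 : Measurable (fun (ω : Om) (i : Ix) => gw i (ω i)) := by
    refine measurable_pi_lambda _ (fun i => ?_)
    exact (measurable_of_finite (gw i)).comp (measurable_pi_apply i)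
  have h5 : rw' t w = (fun (ω : Om) i => gw i (ω i)) ∘ (fun (ω : Om) i => ω (pw t w i)) := rfl
  rw [h5, ← Measure.map_map h4 h3, h1, h2]

theorem meas_rw (t : ℕ) (w : ℤ × ℤ) : Measurable (rw' t w) := by
  refine measurable_pi_lambda _ (fun i => ?_)
  exact (measurable_of_finite (gw i)).comp (measurable_pi_apply _)

theorem E_rw {G : Om → ℝ} (hG : Loc G) (t : ℕ) (w : ℤ × ℤ) : E (fun ω => G (rw' t w ω)) = E G := by
  unfold E
  rw [← integral_map (φ := rw' t w) (f := G) (meas_rw t w).aemeasurable]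
  · rw [P_rw]
  · rw [P_rw]
    exact (Loc_int hG).aestronglyMeasurable

theorem E_Rev {F : Om → ℝ} (h : Loc F) (t : ℕ) : E (fun ω => F (Rev t ω)) = E F := by
  set B : Finset (ℤ × ℤ) := Finset.Icc (-(t:ℤ)) t ×ˢ Finset.Icc (-(t:ℤ)) t with hB
  have hmem : ∀ ω, X t ω ∈ B := by
    intro ω
    have := X_bd t ω
    rw [hB, Finset.mem_product, Finset.mem_Icc, Finset.mem_Icc]
    exact ⟨abs_le.mp this.1, abs_le.mp this.2⟩
  have hmem' : ∀ ω, - X t ω ∈ B := by
    intro ω
    have := X_bd t ω
    rw [hB, Finset.mem_product, Finset.mem_Icc, Finset.mem_Icc]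
    have h1 := abs_le.mp this.1
    have h2 := abs_le.mp this.2
    simp only [Prod.fst_neg, Prod.snd_neg]
    refine ⟨⟨by linarith [h1.2], by linarith [h1.1]⟩, ⟨by linarith [h2.2], by linarith [h2.1]⟩⟩
  have e1 : (fun ω => F (Rev t ω)) =
      fun ω => ∑ w ∈ B, (if X t ω = w then (1:ℝ) else 0) * F (Rev t ω) := by
    funext ω
    rw [← Finset.sum_mul, Finset.sum_ite_eq, if_pos (hmem ω), one_mul]
  have e2 : F = fun ω => ∑ w ∈ B, (if X t ω = -w then (1:ℝ) else 0) * F ω := by
    funext ω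
    have : ∀ w ∈ B, (if X t ω = -w then (1:ℝ) else 0) = (if -X t ω = w then (1:ℝ) else 0) := by
      intro w _
      by_cases hw : X t ω = -w
      · rw [if_pos hw, if_pos (by rw [hw, neg_neg])]
      · rw [if_neg hw, if_neg (by intro h'; apply hw; rw [← h', neg_neg])]
    rw [← Finset.sum_mul, Finset.sum_congr rfl this, Finset.sum_ite_eq, if_pos (hmem' ω), one_mul]
  rw [e1]
  rw [E_sum B (fun w ω => (if X t ω = w then (1:ℝ) else 0) * F (Rev t ω))
    (fun w _ => Loc_mul (Loc_X t (fun p => if p = w then (1:ℝ) else 0)) (Loc_Rev h t))]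
  conv_rhs => rw [e2]
  rw [E_sum B (fun w ω => (if X t ω = -w then (1:ℝ) else 0) * F ω)
    (fun w _ => Loc_mul (Loc_X t (fun p => if p = -w then (1:ℝ) else 0)) h)]
  refine Finset.sum_congr rfl (fun w _ => ?_)
  rw [← E_rw (Loc_mul (Loc_X t (fun p => if p = -w then (1:ℝ) else 0)) h) t w]
  congr 1
  funext ω
  show (if X t ω = w then (1:ℝ) else 0) * F (Rev t ω) =
    (if X t (rw' t w ω) = -w then (1:ℝ) else 0) * F (rw' t w ω)
  by_cases hw : X t ω = w
  · rw [if_pos hw, if_pos ((X_rw t w ω).mp hw), Rev_eq, hw]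
  · rw [if_neg hw, if_neg (fun h' => hw ((X_rw t w ω).mpr h'))]
    simp

end MV
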