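import Pool.Agent.Helper870.MV.Defs
import Pool.Agent.Helper870.MV.A1
import Pool.Agent.Helper870.MV.A3

set_option autoImplicit false
set_option linter.unusedSectionVars false

open Finset MeasureTheory

noncomputable section

-- USES: A1 A3
namespace MV

/-- moving average of the columns -/
def va (m : ℕ) (ω : Om) (x : ℤ) : ℝ := (∑ z ∈ range m, (cs ω (x - (z:ℤ)) : ℝ)) / (m:ℝ)
/-- potential -/
def W (m : ℕ) (ω : Om) (x : ℤ) : ℝ := ∑ z ∈ range m, (1 - ((z:ℝ)+1)/(m:ℝ)) * (cs ω (x - (z:ℤ)) : ℝ)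
/-- increment of the primitive of `W` along the horizontal step available at time `s` -/
def DG (m s : ℕ) (ω : Om) : ℝ :=
  if rs ω (X s ω).2 = 1 then W m ω (X s ω).1 else - W m ω ((X s ω).1 - 1)
/-- increment of the primitive of `W` against the available horizontal step at time `s` -/
def DGb (m s : ℕ) (ω : Om) : ℝ :=
  if rs ω (X s ω).2 = 1 then - W m ω ((X s ω).1 - 1) else W m ω (X s ω).1
/-- primitive of `W` -/
def Gp (m : ℕ) (ω : Om) (x : ℤ) : ℝ :=
  (∑ z ∈ Ico (0:ℤ) x, W m ω z) - ∑ z ∈ Ico x (0:ℤ), W m ω z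
/-- coin centred -/
def ch (s : ℕ) (ω : Om) : ℝ := (if ω (Sum.inl s) = true then (1:ℝ) else 0) - 1/2
/-- martingale -/
def Mt (m t : ℕ) (ω : Om) : ℝ := ∑ s ∈ range t, ch s ω * DG m s ω

theorem E_anti (i : Ix) (F : Om → ℝ) (h : ∀ ω, F (fl i ω) = - F ω) : E F = 0 := by
  have h1 := E_fl i F
  have h2 : (fun ω => F (fl i ω)) = fun ω => (-1) * F ω := by
    funext ω; rw [h]; ring
  rw [h2, E_cmul] at h1
  linarith

theorem E_orth (n : ℕ) (f : ℕ → Om → ℝ) (hL : ∀ i, Loc (f i))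
    (h0 : ∀ i j, i < j → j < n → E (fun ω => f i ω * f j ω) = 0) (B : ℕ → ℝ)
    (hB : ∀ i, i < n → E (fun ω => (f i ω)^2) ≤ B i) :
    E (fun ω => (∑ i ∈ range n, f i ω)^2) ≤ ∑ i ∈ range n, B i := by
  induction n with
  | zero => simp [E_const]
  | succ n ih =>
    have ih' := ih (fun i j hij hj => h0 i j hij (by omega)) (fun i hi => hB i (by omega))
    have hS : Loc (fun ω => ∑ i ∈ range n, f i ω) := Loc_sum _ _ (fun i _ => hL i)
    have h1 : (fun ω => (∑ i ∈ range (n+1), f i ω)^2) = fun ω =>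
        ((∑ i ∈ range n, f i ω)^2 + 2 * ((∑ i ∈ range n, f i ω) * f n ω)) + (f n ω)^2 := by
      funext ω; rw [sum_range_succ]; ring
    have hsq : Loc (fun ω => (∑ i ∈ range n, f i ω)^2) := Loc_comp (fun x => x^2) hS
    have hfn : Loc (fun ω => (f n ω)^2) := Loc_comp (fun x => x^2) (hL n)
    have hm : Loc (fun ω => (∑ i ∈ range n, f i ω) * f n ω) := Loc_mul hS (hL n)
    have hm2 : Loc (fun ω => 2 * ((∑ i ∈ range n, f i ω) * f n ω)) :=
      Loc_comp (fun x => 2 * x) hm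
    have h2 : E (fun ω => (∑ i ∈ range n, f i ω) * f n ω) = 0 := by
      have : (fun ω => (∑ i ∈ range n, f i ω) * f n ω) =
          fun ω => ∑ i ∈ range n, f i ω * f n ω := by
        funext ω; rw [sum_mul]
      rw [this, E_sum _ _ (fun i _ => Loc_mul (hL i) (hL n))]
      exact sum_eq_zero (fun i hi => h0 i n (mem_range.1 hi) (by omega))
    rw [h1, E_add (Loc_add hsq hm2) hfn, E_add hsq hm2, E_cmul, h2, sum_range_succ]
    have := hB n (by omega)
    linarith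

theorem cs_sq (ω : Om) (z : ℤ) : ((cs ω z : ℤ) : ℝ)^2 = 1 := by
  unfold cs; split_ifs <;> norm_num

theorem cs_fl_col (a b : ℤ) (ω : Om) :
    cs (fl (Sum.inr (Sum.inr a)) ω) b = if a = b then - cs ω b else cs ω b := by
  unfold cs fl
  by_cases h : a = b
  · subst h
    simp only [Function.update_self, if_true]
    cases ω (Sum.inr (Sum.inr a)) <;> simp
  · have : (Sum.inr (Sum.inr b) : Ix) ≠ Sum.inr (Sum.inr a) := by
      intro e; exact h (Sum.inr.inj (Sum.inr.inj e)).symm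
    simp only [Function.update_of_ne this, h, if_false]

theorem Loc_cs (z : ℤ) : Loc (fun ω => (cs ω z : ℝ)) := by
  have := Loc_coord (Sum.inr (Sum.inr z)) (fun b => if b = true then (1:ℝ) else -1)
  refine (congrArg Loc ?_).mp this
  funext ω
  unfold cs
  split_ifs <;> simp

theorem W_sub (m : ℕ) (hm : 0 < m) (ω : Om) (x : ℤ) : (cs ω x : ℝ) = va m ω x + (W m ω x - W m ω (x-1)) := by
  have hm' : (m : ℝ) ≠ 0 := by exact_mod_cast hm.ne'
  let g : ℕ → ℝ := fun z => (1 - (z:ℝ)/(m:ℝ)) * (cs ω (x - (z:ℤ)) : ℝ)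
  have h1 : W m ω x = ∑ z ∈ range m, g z - va m ω x := by
    unfold W va
    rw [sum_div, ← sum_sub_distrib]
    refine sum_congr rfl (fun z _ => ?_)
    simp only [g]
    field_simp
    ring
  have h2 : W m ω (x-1) = ∑ z ∈ range m, g (z+1) := by
    unfold W
    refine sum_congr rfl (fun z _ => ?_)
    simp only [g]
    have : x - 1 - (z:ℤ) = x - ((z+1 : ℕ) : ℤ) := by push_cast; ring
    rw [this]
    push_cast
    ring
  have h3 : ∑ z ∈ range m, g z - ∑ z ∈ range m, g (z+1) = g 0 - g m := by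
    rw [← sum_sub_distrib]
    exact sum_range_sub' g m
  have h4 : g 0 = (cs ω x : ℝ) := by simp [g]
  have h5 : g m = 0 := by simp [g, div_self hm']
  linarith

theorem E_colsum (m : ℕ) (x : ℤ) (k : ℕ → ℝ) (C : ℝ) (hk : ∀ z, z < m → (k z)^2 ≤ C) :
    E (fun ω => (∑ z ∈ range m, k z * (cs ω (x - (z:ℤ)) : ℝ))^2) ≤ m * C := by
  have h := E_orth m (fun z ω => k z * (cs ω (x - (z:ℤ)) : ℝ))
    (fun z => Loc_comp (fun y => k z * y) (Loc_cs _))
    (by
      intro i j hij _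
      apply E_anti (Sum.inr (Sum.inr (x - (j:ℤ))))
      intro ω
      rw [cs_fl_col, cs_fl_col]
      have : x - (j:ℤ) ≠ x - (i:ℤ) := by omega
      simp only [this, if_false, if_true]
      push_cast
      ring)
    (fun _ => C)
    (by
      intro i hi
      have : (fun ω => (k i * (cs ω (x - (i:ℤ)) : ℝ))^2) = fun _ : Om => (k i)^2 := by
        funext ω; rw [mul_pow, cs_sq, mul_one]
      rw [this, E_const]
      exact hk i hi)
  simpa using h

theorem EW (m : ℕ) (x : ℤ) : E (fun ω => (W m ω x)^2) ≤ m := by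
  have h := E_colsum m x (fun z => 1 - ((z:ℝ)+1)/(m:ℝ)) 1 (by
    intro z hz
    have hm : (0:ℝ) < m := by exact_mod_cast (by omega : 0 < m)
    have h1 : ((z:ℝ)+1)/(m:ℝ) ≤ 1 := by
      rw [div_le_one hm]; exact_mod_cast hz
    have h2 : 0 ≤ ((z:ℝ)+1)/(m:ℝ) := by positivity
    nlinarith)
  simpa [W] using h

theorem Eva (m : ℕ) (hm : 0 < m) (x : ℤ) : E (fun ω => (va m ω x)^2) ≤ 1/(m:ℝ) := by
  have h := E_colsum m x (fun _ => 1/(m:ℝ)) ((1/(m:ℝ))^2) (fun z _ => le_rfl)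
  have e : (fun ω => (va m ω x)^2) =
      fun ω => (∑ z ∈ range m, (1/(m:ℝ)) * (cs ω (x - (z:ℤ)) : ℝ))^2 := by
    funext ω
    unfold va
    rw [← mul_sum]
    ring
  rw [e]
  refine h.trans (le_of_eq ?_)
  have hm' : (m : ℝ) ≠ 0 := by exact_mod_cast hm.ne'
  field_simp

theorem cs_ag {t : ℕ} {ω ω' : Om} (h : Ag t ω ω') {z : ℤ} (hz : |z| ≤ (t:ℤ)) :
    cs ω z = cs ω' z := by
  unfold cs; rw [h.2.2 z hz]

theorem rs_ag {t : ℕ} {ω ω' : Om} (h : Ag t ω ω') {z : ℤ} (hz : |z| ≤ (t:ℤ)) :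
    rs ω z = rs ω' z := by
  unfold rs; rw [h.2.1 z hz]

theorem W_ag {t m : ℕ} {ω ω' : Om} (h : Ag t ω ω') {x : ℤ} (hx : |x| + m ≤ (t:ℤ)) :
    W m ω x = W m ω' x := by
  unfold W
  refine sum_congr rfl (fun z hz => ?_)
  have hz' := mem_range.1 hz
  rw [cs_ag h]
  have := abs_le.1 (le_refl |x|)
  rw [abs_le]
  constructor <;> omega

theorem va_ag {t m : ℕ} {ω ω' : Om} (h : Ag t ω ω') {x : ℤ} (hx : |x| + m ≤ (t:ℤ)) :
    va m ω x = va m ω' x := by
  unfold va
  congr 1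
  refine sum_congr rfl (fun z hz => ?_)
  have hz' := mem_range.1 hz
  rw [cs_ag h]
  have := abs_le.1 (le_refl |x|)
  rw [abs_le]
  constructor <;> omega

theorem abs_sub_one_le (x : ℤ) (s : ℕ) (h : |x| ≤ (s:ℤ)) : |x - 1| ≤ (s:ℤ) + 1 := by
  rw [abs_le] at h ⊢
  constructor <;> omega

theorem Loc_DG (m s : ℕ) : Loc (DG m s) := by
  refine ⟨s + m + 1, fun ω ω' h => ?_⟩
  have hX := X_ag (s+m+1) ω ω' h s (by omega)
  have hb := X_bd s ω'
  have hb1 := abs_sub_one_le _ _ hb.1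
  unfold DG
  rw [hX, rs_ag h (hb.2.trans (by push_cast; omega)), W_ag h (by push_cast; omega),
    W_ag (x := (X s ω').1 - 1) h (by push_cast; omega)]

theorem Loc_DGb (m s : ℕ) : Loc (DGb m s) := by
  refine ⟨s + m + 1, fun ω ω' h => ?_⟩
  have hX := X_ag (s+m+1) ω ω' h s (by omega)
  have hb := X_bd s ω'
  have hb1 := abs_sub_one_le _ _ hb.1
  unfold DGb
  rw [hX, rs_ag h (hb.2.trans (by push_cast; omega)),
    W_ag (x := (X s ω').1) h (by push_cast; omega),
    W_ag (x := (X s ω').1 - 1) h (by push_cast; omega)]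

theorem Loc_ch (s : ℕ) : Loc (ch s) :=
  Loc_coord (Sum.inl s) (fun b => (if b = true then (1:ℝ) else 0) - 1/2)

theorem Loc_Mt (m t : ℕ) : Loc (Mt m t) :=
  Loc_sum _ _ (fun s _ => Loc_mul (Loc_ch s) (Loc_DG m s))

theorem rs_Th (s : ℕ) (ω : Om) (z : ℤ) : rs (Th^[s] ω) z = rs ω (z + (X s ω).2) := by
  unfold rs; rw [Th_row]

theorem cs_Th (s : ℕ) (ω : Om) (z : ℤ) : cs (Th^[s] ω) z = cs ω (z + (X s ω).1) := by
  unfold cs; rw [Th_col]

theorem W_Th (m s : ℕ) (ω : Om) (x : ℤ) : W m (Th^[s] ω) x = W m ω (x + (X s ω).1) := by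
  unfold W
  refine sum_congr rfl (fun z _ => ?_)
  rw [cs_Th]
  congr 3
  ring

theorem va_Th (m s : ℕ) (ω : Om) (x : ℤ) : va m (Th^[s] ω) x = va m ω (x + (X s ω).1) := by
  unfold va
  congr 1
  refine sum_congr rfl (fun z _ => ?_)
  rw [cs_Th]
  congr 2
  ring

theorem X_zero (ω : Om) : X 0 ω = (0, 0) := rfl

theorem DG_Th (m s : ℕ) (ω : Om) : DG m 0 (Th^[s] ω) = DG m s ω := by
  unfold DG
  rw [X_zero, rs_Th, W_Th, W_Th]
  simp only [zero_add]
  rw [show (0:ℤ) - 1 + (X s ω).1 = (X s ω).1 - 1 by ring]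

theorem DGb_Th (m s : ℕ) (ω : Om) : DGb m 0 (Th^[s] ω) = DGb m s ω := by
  unfold DGb
  rw [X_zero, rs_Th, W_Th, W_Th]
  simp only [zero_add]
  rw [show (0:ℤ) - 1 + (X s ω).1 = (X s ω).1 - 1 by ring]

theorem Loc_W (m : ℕ) (x : ℤ) : Loc (fun ω => W m ω x) := by
  refine ⟨x.natAbs + m, fun ω ω' h => ?_⟩
  exact W_ag h (by rw [Int.abs_eq_natAbs]; push_cast; omega)

theorem EDG (m s : ℕ) : E (fun ω => (DG m s ω)^2) ≤ 2 * m := by
  have h1 : (fun ω => (DG m s ω)^2) = fun ω => (fun ω' => (DG m 0 ω')^2) (Th^[s] ω) := by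
    funext ω; simp only [DG_Th]
  have hL : Loc (fun ω' => (DG m 0 ω')^2) := Loc_comp (fun x => x^2) (Loc_DG m 0)
  rw [h1, E_Th hL s]
  have hW0 : Loc (fun ω => (W m ω 0)^2) := Loc_comp (fun x => x^2) (Loc_W m 0)
  have hW1 : Loc (fun ω => (W m ω (-1))^2) := Loc_comp (fun x => x^2) (Loc_W m (-1))
  have h2 : E (fun ω' => (DG m 0 ω')^2) ≤ E (fun ω => (W m ω 0)^2 + (W m ω (-1))^2) := by
    apply E_mono hL (Loc_add hW0 hW1)
    intro ω
    unfold DG
    rw [X_zero]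
    simp only [zero_sub]
    split_ifs
    · nlinarith [sq_nonneg (W m ω (-1))]
    · nlinarith [sq_nonneg (W m ω 0)]
  rw [E_add hW0 hW1] at h2
  have h3 := EW m 0
  have h4 := EW m (-1)
  linarith

theorem EDGb (m s : ℕ) : E (fun ω => (DGb m s ω)^2) ≤ 2 * m := by
  have h1 : (fun ω => (DGb m s ω)^2) = fun ω => (fun ω' => (DGb m 0 ω')^2) (Th^[s] ω) := by
    funext ω; simp only [DGb_Th]
  have hL : Loc (fun ω' => (DGb m 0 ω')^2) := Loc_comp (fun x => x^2) (Loc_DGb m 0)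
  rw [h1, E_Th hL s]
  have hW0 : Loc (fun ω => (W m ω 0)^2) := Loc_comp (fun x => x^2) (Loc_W m 0)
  have hW1 : Loc (fun ω => (W m ω (-1))^2) := Loc_comp (fun x => x^2) (Loc_W m (-1))
  have h2 : E (fun ω' => (DGb m 0 ω')^2) ≤ E (fun ω => (W m ω 0)^2 + (W m ω (-1))^2) := by
    apply E_mono hL (Loc_add hW0 hW1)
    intro ω
    unfold DGb
    rw [X_zero]
    simp only [zero_sub]
    split_ifs
    · nlinarith [sq_nonneg (W m ω 0)]
    · nlinarith [sq_nonneg (W m ω (-1))]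
  rw [E_add hW0 hW1] at h2
  have h3 := EW m 0
  have h4 := EW m (-1)
  linarith

theorem Ag_fl (s u : ℕ) (hsu : s ≤ u) (ω : Om) : Ag s (fl (Sum.inl u) ω) ω := by
  refine ⟨fun n hn => ?_, fun z _ => ?_, fun z _ => ?_⟩
  · unfold fl
    rw [Function.update_of_ne]
    intro e
    have := Sum.inl.inj e
    omega
  · unfold fl
    rw [Function.update_of_ne]
    intro e
    exact absurd e (by simp)
  · unfold fl
    rw [Function.update_of_ne]
    intro e
    exact absurd e (by simp)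

theorem X_flc (s u : ℕ) (hsu : s ≤ u) (ω : Om) : X s (fl (Sum.inl u) ω) = X s ω :=
  X_ag s _ _ (Ag_fl s u hsu ω) s le_rfl

theorem rs_flc (u : ℕ) (ω : Om) (z : ℤ) : rs (fl (Sum.inl u) ω) z = rs ω z := by
  unfold rs fl
  rw [Function.update_of_ne]
  intro e
  exact absurd e (by simp)

theorem cs_flc (u : ℕ) (ω : Om) (z : ℤ) : cs (fl (Sum.inl u) ω) z = cs ω z := by
  unfold cs fl
  rw [Function.update_of_ne]
  intro e
  exact absurd e (by simp)

theorem W_flc (m u : ℕ) (ω : Om) (x : ℤ) : W m (fl (Sum.inl u) ω) x = W m ω x := by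
  unfold W
  refine sum_congr rfl (fun z _ => ?_)
  rw [cs_flc]

theorem DG_flc (m s u : ℕ) (hsu : s ≤ u) (ω : Om) : DG m s (fl (Sum.inl u) ω) = DG m s ω := by
  unfold DG
  rw [X_flc s u hsu, rs_flc, W_flc, W_flc]

theorem ch_flc_ne (s u : ℕ) (hsu : s ≠ u) (ω : Om) : ch s (fl (Sum.inl u) ω) = ch s ω := by
  unfold ch fl
  rw [Function.update_of_ne]
  intro e
  exact hsu (Sum.inl.inj e)

theorem ch_flc_self (u : ℕ) (ω : Om) : ch u (fl (Sum.inl u) ω) = - ch u ω := by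
  unfold ch fl
  rw [Function.update_self]
  cases ω (Sum.inl u) <;> norm_num

theorem ch_sq (s : ℕ) (ω : Om) : (ch s ω)^2 = 1/4 := by
  unfold ch
  split_ifs <;> norm_num

theorem EMt (m t : ℕ) : E (fun ω => (Mt m t ω)^2) ≤ (t:ℝ) * m := by
  have h := E_orth t (fun s ω => ch s ω * DG m s ω)
    (fun s => Loc_mul (Loc_ch s) (Loc_DG m s))
    (by
      intro i j hij _
      apply E_anti (Sum.inl j)
      intro ω
      rw [ch_flc_ne i j (by omega), DG_flc m i j (by omega), ch_flc_self, DG_flc m j j le_rfl]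
      ring)
    (fun _ => (m:ℝ))
    (by
      intro i _
      have : (fun ω => (ch i ω * DG m i ω)^2) = fun ω => (1/4) * (DG m i ω)^2 := by
        funext ω; rw [mul_pow, ch_sq]
      rw [this, E_cmul]
      have h1 := EDG m i
      have h2 : (0:ℝ) ≤ m := Nat.cast_nonneg m
      linarith)
  simpa [Mt] using h

theorem Loc_va_X (m s : ℕ) : Loc (fun ω => va m ω (X s ω).1) := by
  refine ⟨s + m, fun ω ω' h => ?_⟩
  have hX := X_ag (s+m) ω ω' h s (by omega)
  have hb := X_bd s ω'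
  show va m ω (X s ω).1 = va m ω' (X s ω').1
  rw [hX]
  exact va_ag h (by push_cast; omega)

theorem Loc_va (m : ℕ) (x : ℤ) : Loc (fun ω => va m ω x) := by
  refine ⟨x.natAbs + m, fun ω ω' h => ?_⟩
  exact va_ag h (by rw [Int.abs_eq_natAbs]; push_cast; omega)

theorem Eva_sum (m : ℕ) (hm : 0 < m) (t : ℕ) :
    E (fun ω => (∑ s ∈ range t, va m ω (X s ω).1)^2) ≤ (t:ℝ)^2 / m := by
  have hLs : ∀ s, Loc (fun ω => (va m ω (X s ω).1)^2) := fun s =>
    Loc_comp (fun x => x^2) (Loc_va_X m s)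
  have hs : ∀ s, E (fun ω => (va m ω (X s ω).1)^2) ≤ 1/(m:ℝ) := by
    intro s
    have h1 : (fun ω => (va m ω (X s ω).1)^2) =
        fun ω => (fun ω' => (va m ω' 0)^2) (Th^[s] ω) := by
      funext ω; simp only [va_Th, zero_add]
    rw [h1, E_Th (Loc_comp (fun x => x^2) (Loc_va m 0)) s]
    exact Eva m hm 0
  have hL1 : Loc (fun ω => (∑ s ∈ range t, va m ω (X s ω).1)^2) :=
    Loc_comp (fun x => x^2) (Loc_sum _ _ (fun s _ => Loc_va_X m s))
  have hL2 : Loc (fun ω => ∑ s ∈ range t, (va m ω (X s ω).1)^2) :=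
    Loc_sum _ _ (fun s _ => hLs s)
  have h2 : E (fun ω => (∑ s ∈ range t, va m ω (X s ω).1)^2) ≤
      E (fun ω => (t:ℝ) * ∑ s ∈ range t, (va m ω (X s ω).1)^2) := by
    apply E_mono hL1 (Loc_comp (fun x => (t:ℝ) * x) hL2)
    intro ω
    have := sq_sum_le_card_mul_sum_sq (s := range t) (f := fun s => va m ω (X s ω).1)
    simpa using this
  rw [E_cmul, E_sum _ _ (fun s _ => hLs s)] at h2
  have h3 : ∑ s ∈ range t, E (fun ω => (va m ω (X s ω).1)^2) ≤ (t:ℝ) * (1/(m:ℝ)) := by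
    calc ∑ s ∈ range t, E (fun ω => (va m ω (X s ω).1)^2) ≤ ∑ s ∈ range t, (1/(m:ℝ)) :=
          sum_le_sum (fun s _ => hs s)
      _ = (t:ℝ) * (1/(m:ℝ)) := by simp
  calc _ ≤ (t:ℝ) * ∑ s ∈ range t, E (fun ω => (va m ω (X s ω).1)^2) := h2
    _ ≤ (t:ℝ) * ((t:ℝ) * (1/(m:ℝ))) := mul_le_mul_of_nonneg_left h3 (Nat.cast_nonneg t)
    _ = (t:ℝ)^2 / m := by ring

theorem Gp_succ (m : ℕ) (ω : Om) (x : ℤ) : Gp m ω (x+1) = Gp m ω x + W m ω x := by
  unfold Gp
  rcases le_or_gt 0 x with h | h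
  · have e1 : Ico (0:ℤ) (x+1) = insert x (Ico (0:ℤ) x) := by
      ext z; simp only [mem_insert, mem_Ico]; omega
    have e2 : Ico (x+1) (0:ℤ) = ∅ := Ico_eq_empty (by omega)
    have e3 : Ico x (0:ℤ) = ∅ := Ico_eq_empty (by omega)
    rw [e1, e2, e3, sum_insert (by simp)]
    ring
  · have e1 : Ico x (0:ℤ) = insert x (Ico (x+1) (0:ℤ)) := by
      ext z; simp only [mem_insert, mem_Ico]; omega
    have e2 : Ico (0:ℤ) (x+1) = ∅ := Ico_eq_empty (by omega)
    have e3 : Ico (0:ℤ) x = ∅ := Ico_eq_empty (by omega)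
    rw [e1, e2, e3, sum_insert (by simp)]
    ring

theorem X_step (n : ℕ) (ω : Om) : X (n+1) ω =
      if ω (Sum.inl n) = true then
        ((X n ω).1 + rs ω (X n ω).2, (X n ω).2)
      else
        ((X n ω).1, (X n ω).2 + cs ω (X n ω).1) := rfl

/-- telescoping along the path -/
theorem Gp_path (m t : ℕ) (ω : Om) :
    Gp m ω (X t ω).1 = Mt m t ω + (∑ s ∈ range t, DG m s ω) / 2 := by
  induction t with
  | zero => simp [Gp, Mt, X_zero]
  | succ t ih =>
    unfold Mt at ih ⊢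
    rw [sum_range_succ, sum_range_succ, X_step]
    by_cases hc : ω (Sum.inl t) = true
    · rw [if_pos hc]
      have h1 : ch t ω = 1/2 := by unfold ch; rw [if_pos hc]; norm_num
      have h2 : Gp m ω ((X t ω).1 + rs ω (X t ω).2) = Gp m ω (X t ω).1 + DG m t ω := by
        unfold DG
        by_cases hr : rs ω (X t ω).2 = 1
        · rw [if_pos hr, hr, Gp_succ]
        · have hr' : rs ω (X t ω).2 = -1 := by
            unfold rs at hr ⊢
            split_ifs with h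
            · rw [if_pos h] at hr; exact absurd rfl hr
            · rfl
          rw [if_neg hr, hr']
          have := Gp_succ m ω ((X t ω).1 - 1)
          rw [sub_add_cancel] at this
          rw [this, ← sub_eq_add_neg]
          ring
      show Gp m ω ((X t ω).1 + rs ω (X t ω).2) = _
      rw [h2, ih, h1]
      ring
    · rw [if_neg hc]
      have h1 : ch t ω = -(1/2) := by unfold ch; rw [if_neg hc]; norm_num
      show Gp m ω (X t ω).1 = _
      rw [ih, h1]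
      ring

/-- vertical displacement -/
theorem y_eq (t : ℕ) (ω : Om) :
    ((X t ω).2 : ℝ) = (∑ s ∈ range t, (cs ω (X s ω).1 : ℝ)) / 2 - ∑ s ∈ range t, ch s ω * (cs ω (X s ω).1 : ℝ) := by
  induction t with
  | zero => simp [X_zero]
  | succ t ih =>
    rw [sum_range_succ, sum_range_succ, X_step]
    by_cases hc : ω (Sum.inl t) = true
    · rw [if_pos hc]
      have h1 : ch t ω = 1/2 := by unfold ch; rw [if_pos hc]; norm_num
      show (((X t ω).2 : ℤ) : ℝ) = _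
      rw [ih, h1]
      ring
    · rw [if_neg hc]
      have h1 : ch t ω = -(1/2) := by unfold ch; rw [if_neg hc]; norm_num
      show ((((X t ω).2 + cs ω (X t ω).1 : ℤ)) : ℝ) = _
      push_cast
      rw [ih, h1]
      ring

theorem Loc_csX (s : ℕ) : Loc (fun ω => (cs ω (X s ω).1 : ℝ)) := by
  refine ⟨s, fun ω ω' h => ?_⟩
  have hX := X_ag s ω ω' h s le_rfl
  have hb := X_bd s ω'
  show ((cs ω (X s ω).1 : ℤ) : ℝ) = ((cs ω' (X s ω').1 : ℤ) : ℝ)
  rw [hX, cs_ag h hb.1]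

theorem Ey_mart (t : ℕ) : E (fun ω => (∑ s ∈ range t, ch s ω * (cs ω (X s ω).1 : ℝ))^2) ≤ t := by
  have h := E_orth t (fun s ω => ch s ω * (cs ω (X s ω).1 : ℝ))
    (fun s => Loc_mul (Loc_ch s) (Loc_csX s))
    (by
      intro i j hij _
      apply E_anti (Sum.inl j)
      intro ω
      rw [ch_flc_ne i j (by omega), X_flc i j (by omega), ch_flc_self, X_flc j j le_rfl,
        cs_flc, cs_flc]
      ring)
    (fun _ => (1:ℝ))
    (by
      intro i _
      have : (fun ω => (ch i ω * (cs ω (X i ω).1 : ℝ))^2) = fun _ : Om => (1/4 : ℝ) := by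
        funext ω; rw [mul_pow, ch_sq, cs_sq, mul_one]
      rw [this, E_const]
      norm_num)
  simpa using h

end MV
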