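import Pool.Agent.Helper870.MV.Defs
import Pool.Agent.Helper870.MV.A1
import Pool.Agent.Helper870.MV.A3
import Pool.Agent.Helper870.MV.B1
import Pool.Agent.Helper870.MV.B2

set_option autoImplicit false
set_option linter.unusedSectionVars false

open Finset MeasureTheory

noncomputable section

-- USES: A1 A3 B1 B2
namespace MV

theorem b3_rs_Rev (t : ℕ) (ω : Om) (y : ℤ) : rs (Rev t ω) y = - rs ω (y + (X t ω).2) := by
  unfold rs
  show (if (!ω (Sum.inr (Sum.inl (y + (X t ω).2)))) = true then (1:ℤ) else -1) = _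
  cases ω (Sum.inr (Sum.inl (y + (X t ω).2))) <;> simp

theorem b3_cs_Rev (t : ℕ) (ω : Om) (y : ℤ) : cs (Rev t ω) y = - cs ω (y + (X t ω).1) := by
  unfold cs
  show (if (!ω (Sum.inr (Sum.inr (y + (X t ω).1)))) = true then (1:ℤ) else -1) = _
  cases ω (Sum.inr (Sum.inr (y + (X t ω).1))) <;> simp

theorem b3_W_Rev (m t : ℕ) (ω : Om) (x : ℤ) : W m (Rev t ω) x = - W m ω (x + (X t ω).1) := by
  unfold W
  rw [← Finset.sum_neg_distrib]
  apply Finset.sum_congr rfl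
  intro z _
  rw [b3_cs_Rev]
  have : x - (z:ℤ) + (X t ω).1 = x + (X t ω).1 - (z:ℤ) := by ring
  rw [this]
  push_cast
  ring

theorem b3_rs_cases (ω : Om) (y : ℤ) : rs ω y = 1 ∨ rs ω y = -1 := by
  unfold rs
  split_ifs
  · left; rfl
  · right; rfl

theorem DG_Rev (m t s : ℕ) (hs : s ≤ t) (ω : Om) : DG m s (Rev t ω) = - DGb m (t - s) ω := by
  have hX := X_Rev t ω s hs
  have h1 : (X s (Rev t ω)).1 = (X (t - s) ω).1 - (X t ω).1 := by rw [hX]; rfl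
  have h2 : (X s (Rev t ω)).2 = (X (t - s) ω).2 - (X t ω).2 := by rw [hX]; rfl
  unfold DG DGb
  rw [h1, h2, b3_rs_Rev, b3_W_Rev, b3_W_Rev]
  have e1 : (X (t - s) ω).2 - (X t ω).2 + (X t ω).2 = (X (t - s) ω).2 := by ring
  have e2 : (X (t - s) ω).1 - (X t ω).1 + (X t ω).1 = (X (t - s) ω).1 := by ring
  have e3 : (X (t - s) ω).1 - (X t ω).1 - 1 + (X t ω).1 = (X (t - s) ω).1 - 1 := by ring
  rw [e1, e2, e3]
  rcases b3_rs_cases ω (X (t - s) ω).2 with h | h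
  · rw [h]; norm_num
  · rw [h]; norm_num

theorem Gp_Rev (m t : ℕ) (ω : Om) : Gp m (Rev t ω) (X t (Rev t ω)).1 = Gp m ω (X t ω).1 := by
  have hX := X_Rev t ω t le_rfl
  have h0 : X (t - t) ω = ((0:ℤ), (0:ℤ)) := by rw [Nat.sub_self]; rfl
  have h1 : (X t (Rev t ω)).1 = - (X t ω).1 := by
    rw [hX, h0]
    show (0:ℤ) - (X t ω).1 = _
    ring
  rw [h1]
  unfold Gp
  simp_rw [b3_W_Rev]
  rw [Finset.sum_neg_distrib, Finset.sum_neg_distrib,
    Finset.sum_Ico_add' (fun z => W m ω z) 0 (-(X t ω).1) (X t ω).1,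
    Finset.sum_Ico_add' (fun z => W m ω z) (-(X t ω).1) 0 (X t ω).1]
  have e1 : (0:ℤ) + (X t ω).1 = (X t ω).1 := by ring
  have e2 : -(X t ω).1 + (X t ω).1 = 0 := by ring
  rw [e1, e2]
  ring

theorem W_path (m t : ℕ) (ω : Om) :
    ∑ s ∈ range t, (W m ω (X s ω).1 - W m ω ((X s ω).1 - 1))
      = 2 * (Mt m t (Rev t ω) - Mt m t ω) - DGb m t ω + DGb m 0 ω := by
  have h1 := Gp_path m t ω
  have h2 := Gp_path m t (Rev t ω)
  rw [Gp_Rev, h1] at h2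
  have h3 : ∑ s ∈ range t, DG m s (Rev t ω) = - ∑ u ∈ range t, DGb m (u + 1) ω := by
    rw [← Finset.sum_range_reflect (fun u => DGb m (u + 1) ω) t, ← Finset.sum_neg_distrib]
    apply Finset.sum_congr rfl
    intro s hs
    have hs' := Finset.mem_range.mp hs
    rw [DG_Rev m t s (le_of_lt hs') ω]
    have : t - 1 - s + 1 = t - s := by omega
    rw [this]
  have h4 : ∑ u ∈ range t, DGb m (u + 1) ω = ∑ u ∈ range t, DGb m u ω + DGb m t ω - DGb m 0 ω := by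
    have a1 := Finset.sum_range_succ (fun u => DGb m u ω) t
    have a2 := Finset.sum_range_succ' (fun u => DGb m u ω) t
    linarith
  have h5 : ∑ s ∈ range t, (W m ω (X s ω).1 - W m ω ((X s ω).1 - 1)) =
      ∑ s ∈ range t, DG m s ω + ∑ s ∈ range t, DGb m s ω := by
    rw [← Finset.sum_add_distrib]
    apply Finset.sum_congr rfl
    intro s _
    unfold DG DGb
    split_ifs <;> ring
  rw [h3, h4] at h2
  rw [h5]
  linarith

theorem b3_Loc_cs (s : ℕ) : Loc (fun ω => (cs ω (X s ω).1 : ℝ)) := by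
  refine ⟨s, fun ω ω' h => ?_⟩
  have h1 := X_ag s ω ω' h s le_rfl
  have h2 := (X_bd s ω).1
  have h3 := h.2.2 (X s ω).1 h2
  show (cs ω (X s ω).1 : ℝ) = (cs ω' (X s ω').1 : ℝ)
  rw [← h1]
  unfold cs
  rw [h3]

theorem b3_Loc_ch (s : ℕ) : Loc (ch s) :=
  Loc_coord (Sum.inl s) (fun b => (if b = true then (1:ℝ) else 0) - 1/2)

theorem ay_upper (t : ℕ) (ht : 1 ≤ t) : ay t ≤ 52 * (t:ℝ)^(3/2:ℝ) := by
  set m := Nat.sqrt t with hm
  have hm1 : 1 ≤ m := by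
    rw [hm]; exact Nat.le_sqrt.mpr (by simpa using ht)
  have hmpos : 0 < m := hm1
  -- functions
  set S : Om → ℝ := fun ω => ∑ s ∈ range t, (cs ω (X s ω).1 : ℝ) with hS
  set N : Om → ℝ := fun ω => ∑ s ∈ range t, ch s ω * (cs ω (X s ω).1 : ℝ) with hN
  set B : Om → ℝ := fun ω => 2 * (Mt m t (Rev t ω) - Mt m t ω) - DGb m t ω + DGb m 0 ω with hB
  set A : Om → ℝ := fun ω => S ω - B ω with hA
  have LS : Loc S := Loc_sum (range t) (fun s ω => (cs ω (X s ω).1 : ℝ)) (fun s _ => b3_Loc_cs s)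
  have LN : Loc N := Loc_sum (range t) (fun s ω => ch s ω * (cs ω (X s ω).1 : ℝ))
    (fun s _ => Loc_mul (b3_Loc_ch s) (b3_Loc_cs s))
  have LMR : Loc (fun ω => Mt m t (Rev t ω)) := Loc_Rev (Loc_Mt m t) t
  have LM : Loc (fun ω => Mt m t ω) := Loc_Mt m t
  have LB : Loc B := Loc_add (Loc_sub (Loc_mul (Loc_const 2) (Loc_sub LMR LM)) (Loc_DGb m t))
    (Loc_DGb m 0)
  have LA : Loc A := Loc_sub LS LB
  have hAeq : ∀ ω, A ω = ∑ s ∈ range t, va m ω (X s ω).1 := by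
    intro ω
    have h1 := W_path m t ω
    have h2 : S ω = ∑ s ∈ range t, va m ω (X s ω).1 +
        ∑ s ∈ range t, (W m ω (X s ω).1 - W m ω ((X s ω).1 - 1)) := by
      rw [← Finset.sum_add_distrib]
      apply Finset.sum_congr rfl
      intro s _
      exact W_sub m hmpos ω (X s ω).1
    show S ω - B ω = _
    rw [h2, h1]
    show _ + B ω - B ω = _
    ring
  have EA : E (fun ω => (A ω)^2) ≤ (t:ℝ)^2 / m := by
    have := Eva_sum m hmpos t
    have e : (fun ω => (A ω)^2) = (fun ω => (∑ s ∈ range t, va m ω (X s ω).1)^2) := by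
      funext ω; rw [hAeq]
    rw [e]; exact this
  have sq : ∀ {F : Om → ℝ}, Loc F → Loc (fun ω => (F ω)^2) := fun hF => Loc_comp (fun x => x^2) hF
  have EB : E (fun ω => (B ω)^2) ≤ 48 * (t:ℝ) * m := by
    have e1 : E (fun ω => (Mt m t (Rev t ω))^2) ≤ (t:ℝ) * m := by
      have h := E_Rev (F := fun ω => (Mt m t ω)^2) (sq (Loc_Mt m t)) t
      have h' : E (fun ω => (Mt m t (Rev t ω))^2) = E (fun ω => (Mt m t ω)^2) := h
      rw [h']; exact EMt m t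
    have e2 := EMt m t
    have e3 := EDGb m t
    have e4 := EDGb m 0
    have L1 : Loc (fun ω => (16:ℝ) * (Mt m t (Rev t ω))^2) := Loc_mul (Loc_const 16) (sq LMR)
    have L2 : Loc (fun ω => (16:ℝ) * (Mt m t ω)^2) := Loc_mul (Loc_const 16) (sq LM)
    have L3 : Loc (fun ω => (4:ℝ) * (DGb m t ω)^2) := Loc_mul (Loc_const 4) (sq (Loc_DGb m t))
    have L4 : Loc (fun ω => (4:ℝ) * (DGb m 0 ω)^2) := Loc_mul (Loc_const 4) (sq (Loc_DGb m 0))
    have hle : E (fun ω => (B ω)^2) ≤ E (fun ω => (16 * (Mt m t (Rev t ω))^2 + 16 * (Mt m t ω)^2) +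
        (4 * (DGb m t ω)^2 + 4 * (DGb m 0 ω)^2)) := by
      apply E_mono (sq LB) (Loc_add (Loc_add L1 L2) (Loc_add L3 L4))
      intro ω
      show (2 * (Mt m t (Rev t ω) - Mt m t ω) - DGb m t ω + DGb m 0 ω)^2 ≤ _
      set a := Mt m t (Rev t ω)
      set b := Mt m t ω
      set c := DGb m t ω
      set d := DGb m 0 ω
      nlinarith [sq_nonneg (2*a + 2*b), sq_nonneg (2*a + c), sq_nonneg (2*a - d),
        sq_nonneg (2*b - c), sq_nonneg (2*b + d), sq_nonneg (c + d)]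
    rw [E_add (Loc_add L1 L2) (Loc_add L3 L4), E_add L1 L2, E_add L3 L4, E_cmul, E_cmul, E_cmul,
      E_cmul] at hle
    have ht' : (1:ℝ) ≤ t := by exact_mod_cast ht
    have hm' : (0:ℝ) ≤ m := Nat.cast_nonneg m
    nlinarith [mul_le_mul_of_nonneg_right ht' hm']
  have ES : E (fun ω => (S ω)^2) ≤ 2 * ((t:ℝ)^2 / m) + 96 * (t:ℝ) * m := by
    have L1 : Loc (fun ω => (2:ℝ) * (A ω)^2) := Loc_mul (Loc_const 2) (sq LA)
    have L2 : Loc (fun ω => (2:ℝ) * (B ω)^2) := Loc_mul (Loc_const 2) (sq LB)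
    have hle : E (fun ω => (S ω)^2) ≤ E (fun ω => 2 * (A ω)^2 + 2 * (B ω)^2) := by
      apply E_mono (sq LS) (Loc_add L1 L2)
      intro ω
      have : S ω = A ω + B ω := by show S ω = S ω - B ω + B ω; ring
      rw [this]
      nlinarith [sq_nonneg (A ω - B ω)]
    rw [E_add L1 L2, E_cmul, E_cmul] at hle
    linarith
  have EN : E (fun ω => (N ω)^2) ≤ t := Ey_mart t
  have Hay : ay t ≤ (1/2) * E (fun ω => (S ω)^2) + 2 * E (fun ω => (N ω)^2) := by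
    have L1 : Loc (fun ω => ((1/2:ℝ)) * (S ω)^2) := Loc_mul (Loc_const (1/2)) (sq LS)
    have L2 : Loc (fun ω => (2:ℝ) * (N ω)^2) := Loc_mul (Loc_const 2) (sq LN)
    have hle : E (fun ω => ((X t ω).2 : ℝ)^2) ≤ E (fun ω => (1/2) * (S ω)^2 + 2 * (N ω)^2) := by
      apply E_mono (Loc_X t (fun p => (p.2 : ℝ)^2)) (Loc_add L1 L2)
      intro ω
      have : ((X t ω).2 : ℝ) = S ω / 2 - N ω := y_eq t ω
      rw [this]
      nlinarith [sq_nonneg (S ω / 2 + N ω)]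
    rw [E_add L1 L2, E_cmul, E_cmul] at hle
    exact hle
  have ht0 : (0:ℝ) < t := by exact_mod_cast (by omega : 0 < t)
  have ht1 : (1:ℝ) ≤ t := by exact_mod_cast ht
  set r := Real.sqrt t with hr
  have hr1 : 1 ≤ r := by rw [hr]; exact Real.one_le_sqrt.mpr ht1
  have hrr : r * r = t := Real.mul_self_sqrt ht0.le
  have hpow : (t:ℝ)^(3/2:ℝ) = t * r := by
    have : (3/2:ℝ) = 1 + 1/2 := by norm_num
    rw [this, Real.rpow_add ht0, Real.rpow_one, ← Real.sqrt_eq_rpow]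
  have hm_le : (m:ℝ) ≤ r := by
    rw [hr]
    apply Real.le_sqrt_of_sq_le
    have h := Nat.sqrt_le' t
    rw [← hm] at h
    exact_mod_cast h
  have hm_ge : r ≤ 2 * m := by
    have h := Nat.succ_le_succ_sqrt' t
    have h2 : r ≤ (m:ℝ) + 1 := by
      rw [hr]
      apply Real.sqrt_le_iff.mpr
      constructor
      · positivity
      · have h3 := Nat.lt_succ_sqrt' t
        rw [← hm] at h3
        have h4 : (t:ℝ) < ((m.succ ^ 2 : ℕ) : ℝ) := by exact_mod_cast h3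
        have h5 : ((m.succ ^ 2 : ℕ) : ℝ) = ((m:ℝ) + 1)^2 := by push_cast; ring
        linarith
    have h6 : (1:ℝ) ≤ m := by exact_mod_cast hm1
    linarith
  have hmr : (0:ℝ) < m := by exact_mod_cast hmpos
  have f1 : (t:ℝ)^2 / m ≤ 2 * (t * r) := by
    rw [div_le_iff₀ hmr]
    have : (t:ℝ)^2 = t * (r * r) := by rw [hrr]; ring
    rw [this]
    have h7 : (t:ℝ) * r * r ≤ t * r * (2 * m) := mul_le_mul_of_nonneg_left hm_ge (by positivity)
    nlinarith [h7]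
  have f2 : (t:ℝ) * m ≤ t * r := mul_le_mul_of_nonneg_left hm_le ht0.le
  have f3 : (t:ℝ) ≤ t * r := by nlinarith
  rw [hpow]
  linarith

theorem V_rev (s u : ℕ) : V s ≤ 2 * V (s+u) + 2 * V u := by
  have L1 : Loc (fun ω => (2:ℝ) * (((X (s+u) ω).1 : ℝ)^2 + ((X (s+u) ω).2 : ℝ)^2)) :=
    Loc_X (s+u) (fun p => 2 * ((p.1 : ℝ)^2 + (p.2 : ℝ)^2))
  have LV : Loc (fun ω => ((X u ω).1 : ℝ)^2 + ((X u ω).2 : ℝ)^2) :=
    Loc_X u (fun p => (p.1 : ℝ)^2 + (p.2 : ℝ)^2)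
  have L2' : Loc (fun ω => ((X u (Th^[s] ω)).1 : ℝ)^2 + ((X u (Th^[s] ω)).2 : ℝ)^2) := Loc_Th LV s
  have L2 : Loc (fun ω => (2:ℝ) * (((X u (Th^[s] ω)).1 : ℝ)^2 + ((X u (Th^[s] ω)).2 : ℝ)^2)) :=
    Loc_mul (Loc_const 2) L2'
  have LS : Loc (fun ω => ((X s ω).1 : ℝ)^2 + ((X s ω).2 : ℝ)^2) :=
    Loc_X s (fun p => (p.1 : ℝ)^2 + (p.2 : ℝ)^2)
  have hle : V s ≤ E (fun ω => 2 * (((X (s+u) ω).1 : ℝ)^2 + ((X (s+u) ω).2 : ℝ)^2) +
      2 * (((X u (Th^[s] ω)).1 : ℝ)^2 + ((X u (Th^[s] ω)).2 : ℝ)^2)) := by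
    apply E_mono LS (Loc_add L1 L2)
    intro ω
    have h := X_add s u ω
    have h1 : ((X (s+u) ω).1 : ℝ) = ((X s ω).1 : ℝ) + ((X u (Th^[s] ω)).1 : ℝ) := by
      rw [h]; push_cast [Prod.fst_add]; rfl
    have h2 : ((X (s+u) ω).2 : ℝ) = ((X s ω).2 : ℝ) + ((X u (Th^[s] ω)).2 : ℝ) := by
      rw [h]; push_cast [Prod.snd_add]; rfl
    show ((X s ω).1 : ℝ)^2 + ((X s ω).2 : ℝ)^2 ≤ _
    rw [h1, h2]
    nlinarith [sq_nonneg (((X s ω).1 : ℝ) + 2 * ((X u (Th^[s] ω)).1 : ℝ)),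
      sq_nonneg (((X s ω).2 : ℝ) + 2 * ((X u (Th^[s] ω)).2 : ℝ))]
  rw [E_add L1 L2, E_cmul, E_cmul] at hle
  have hTh : E (fun ω => ((X u (Th^[s] ω)).1 : ℝ)^2 + ((X u (Th^[s] ω)).2 : ℝ)^2) = V u :=
    E_Th LV s
  rw [hTh] at hle
  exact hle

end MV
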