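import Pool.Agent.Helper870.MV.Defs
import Pool.Agent.Helper870.MV.A1
import Pool.Agent.Helper870.MV.A3
import Pool.Agent.Helper870.MV.B1
import Pool.Agent.Helper870.MV.B2
import Pool.Agent.Helper870.MV.B3

set_option autoImplicit false
set_option linter.unusedSectionVars false

open Finset MeasureTheory

noncomputable section

-- USES: A1 A3 B1 B2 B3
namespace MV

theorem MVq_Loc_cs (z : ℤ) : Loc (fun ω => (cs ω z : ℝ)) :=
  Loc_coord (Sum.inr (Sum.inr z)) (fun b => (((if b = true then (1:ℤ) else -1) : ℤ) : ℝ))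

theorem MVq_Loc_ch (s : ℕ) : Loc (ch s) :=
  Loc_coord (Sum.inl s) (fun b => (if b = true then (1:ℝ) else 0) - 1/2)

theorem MVq_Loc_W (m : ℕ) (x : ℤ) : Loc (fun ω => W m ω x) := by
  unfold W
  exact Loc_sum _ _ (fun z _ => Loc_mul (Loc_const _) (MVq_Loc_cs _))

theorem MVq_Loc_va (m : ℕ) (x : ℤ) : Loc (fun ω => va m ω x) := by
  unfold va
  exact Loc_comp (fun r => r / (m:ℝ)) (Loc_sum _ _ (fun z _ => MVq_Loc_cs _))

theorem MVq_Loc_csX (t : ℕ) : Loc (fun ω => (cs ω (X t ω).1 : ℝ)) := by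
  refine ⟨t, fun ω ω' h => ?_⟩
  have h1 := X_ag t ω ω' h t (le_refl t)
  have h2 := (X_bd t ω).1
  have h3 := h.2.2 (X t ω).1 h2
  show ((cs ω (X t ω).1 : ℤ) : ℝ) = ((cs ω' (X t ω').1 : ℤ) : ℝ)
  rw [← h1]
  unfold cs
  rw [h3]

theorem MVq_Loc_vaX (m t : ℕ) : Loc (fun ω => va m ω (X t ω).1) := by
  refine ⟨t + m, fun ω ω' h => ?_⟩
  have h1 := X_ag (t + m) ω ω' h t (by omega)
  have h2 := (X_bd t ω).1
  show va m ω (X t ω).1 = va m ω' (X t ω').1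
  rw [← h1]
  unfold va
  congr 1
  apply Finset.sum_congr rfl
  intro z hz
  rw [Finset.mem_range] at hz
  have h3 := h.2.2 ((X t ω).1 - z) (by
    rw [abs_le] at h2 ⊢
    push_cast
    omega)
  unfold cs
  rw [h3]

theorem MVq_odd (i : Ix) (F : Om → ℝ) (h : ∀ ω, F (fl i ω) = - F ω) : E F = 0 := by
  have h1 := E_fl i F
  have h2 : E (fun ω => F (fl i ω)) = E (fun ω => (-1) * F ω) := by
    congr 1; funext ω; rw [h]; ring
  rw [h2, E_cmul] at h1
  linarith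

theorem MVq_sum (x : ℤ) (a : ℕ → ℝ) (n : ℕ) :
    E (fun ω => (∑ z ∈ range n, a z * (cs ω (x - (z:ℤ)) : ℝ))^2) = ∑ z ∈ range n, (a z)^2 ∧
    E (fun ω => (∑ z ∈ range n, a z * (cs ω (x - (z:ℤ)) : ℝ))^4) ≤ 3 * (∑ z ∈ range n, (a z)^2)^2 := by
  induction n with
  | zero =>
    constructor
    · simp only [Finset.range_zero, Finset.sum_empty]
      rw [show (fun _ : Om => (0:ℝ)^2) = (fun _ : Om => (0:ℝ)) by funext ω; norm_num]
      exact E_const 0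
    · simp only [Finset.range_zero, Finset.sum_empty]
      rw [show (fun _ : Om => (0:ℝ)^4) = (fun _ : Om => (0:ℝ)) by funext ω; norm_num]
      rw [E_const 0]; norm_num
  | succ n ih =>
    set S : Om → ℝ := fun ω => ∑ z ∈ range n, a z * (cs ω (x - (z:ℤ)) : ℝ) with hSdef
    set s : Om → ℝ := fun ω => (cs ω (x - (n:ℤ)) : ℝ) with hsdef
    have hLS : Loc S := Loc_sum _ _ (fun z _ => Loc_mul (Loc_const _) (MVq_Loc_cs _))
    have hLs : Loc s := MVq_Loc_cs _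
    set i : Ix := Sum.inr (Sum.inr (x - (n:ℤ))) with hi
    have hflS : ∀ ω, S (fl i ω) = S ω := by
      intro ω
      simp only [hSdef]
      apply Finset.sum_congr rfl
      intro z hz
      rw [Finset.mem_range] at hz
      have : (fl i ω) (Sum.inr (Sum.inr (x - (z:ℤ)))) = ω (Sum.inr (Sum.inr (x - (z:ℤ)))) := by
        unfold fl
        apply Function.update_of_ne
        intro h
        rw [hi] at h
        have h2 := Sum.inr.inj (Sum.inr.inj h)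
        omega
      unfold cs
      rw [this]
    have hfls : ∀ ω, s (fl i ω) = - s ω := by
      intro ω
      simp only [hsdef]
      have : (fl i ω) (Sum.inr (Sum.inr (x - (n:ℤ)))) = ! ω (Sum.inr (Sum.inr (x - (n:ℤ)))) := by
        unfold fl
        rw [hi, Function.update_self]
      unfold cs
      rw [this]
      cases ω (Sum.inr (Sum.inr (x - (n:ℤ)))) <;> simp
    have hsq : ∀ ω, s ω ^ 2 = 1 := by
      intro ω
      simp only [hsdef]
      unfold cs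
      cases ω (Sum.inr (Sum.inr (x - (n:ℤ)))) <;> simp
    have hrec : ∀ ω, (∑ z ∈ range (n+1), a z * (cs ω (x - (z:ℤ)) : ℝ)) = S ω + a n * s ω := by
      intro ω
      rw [Finset.sum_range_succ]
    have hodd1 : E (fun ω => 2 * a n * (S ω * s ω)) = 0 := by
      apply MVq_odd i
      intro ω
      rw [hflS, hfls]; ring
    have hodd2 : E (fun ω => 4 * a n * (S ω ^3 * s ω) + 4 * (a n)^3 * (S ω * s ω)) = 0 := by
      apply MVq_odd i
      intro ω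
      rw [hflS, hfls]; ring
    have hL2 : Loc (fun ω => S ω ^ 2) := Loc_comp (fun r => r^2) hLS
    have hL3 : Loc (fun ω => S ω ^ 3) := Loc_comp (fun r => r^3) hLS
    have hL4 : Loc (fun ω => S ω ^ 4) := Loc_comp (fun r => r^4) hLS
    have hLSs : Loc (fun ω => S ω * s ω) := Loc_mul hLS hLs
    have hLo1 : Loc (fun ω => 2 * a n * (S ω * s ω)) := Loc_mul (Loc_const _) hLSs
    have hLo2 : Loc (fun ω => 4 * a n * (S ω ^3 * s ω) + 4 * (a n)^3 * (S ω * s ω)) :=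
      Loc_add (Loc_mul (Loc_const _) (Loc_mul hL3 hLs)) (Loc_mul (Loc_const _) hLSs)
    have hE2 : E (fun ω => (∑ z ∈ range (n+1), a z * (cs ω (x - (z:ℤ)) : ℝ))^2) =
        E (fun ω => S ω ^ 2) + (a n)^2 := by
      have h1 : (fun ω => (∑ z ∈ range (n+1), a z * (cs ω (x - (z:ℤ)) : ℝ))^2) =
          (fun ω => (S ω ^ 2 + (a n)^2) + 2 * a n * (S ω * s ω)) := by
        funext ω
        rw [hrec]
        linear_combination (a n)^2 * hsq ω
      rw [h1, E_add (Loc_add hL2 (Loc_const _)) hLo1, hodd1, E_add hL2 (Loc_const _), E_const]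
      ring
    have hE4 : E (fun ω => (∑ z ∈ range (n+1), a z * (cs ω (x - (z:ℤ)) : ℝ))^4) =
        E (fun ω => S ω ^ 4) + 6 * (a n)^2 * E (fun ω => S ω ^ 2) + (a n)^4 := by
      have h1 : (fun ω => (∑ z ∈ range (n+1), a z * (cs ω (x - (z:ℤ)) : ℝ))^4) =
          (fun ω => ((S ω ^ 4 + 6 * (a n)^2 * S ω ^ 2) + (a n)^4) +
            (4 * a n * (S ω ^3 * s ω) + 4 * (a n)^3 * (S ω * s ω))) := by
        funext ω
        rw [hrec]
        linear_combination (6 * (a n)^2 * S ω ^2 + 4 * S ω * (a n)^3 * s ω + (a n)^4 * (s ω ^2 + 1)) * hsq ω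
      have hLq : Loc (fun ω => 6 * (a n)^2 * S ω ^ 2) := Loc_mul (Loc_const _) hL2
      rw [h1, E_add (Loc_add (Loc_add hL4 hLq) (Loc_const _)) hLo2, hodd2,
        E_add (Loc_add hL4 hLq) (Loc_const _), E_add hL4 hLq, E_const, E_cmul]
      ring
    refine ⟨?_, ?_⟩
    · rw [hE2, ih.1, Finset.sum_range_succ]
    · rw [hE4, ih.1, Finset.sum_range_succ]
      have h2 := ih.2
      have h3 : 0 ≤ (a n)^4 := by positivity
      nlinarith

theorem EW4 (m : ℕ) (x : ℤ) : E (fun ω => (W m ω x)^4) ≤ 3 * (m:ℝ)^2 := by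
  have h := (MVq_sum x (fun z => 1 - ((z:ℝ)+1)/(m:ℝ)) m).2
  have hb : ∑ z ∈ range m, (1 - ((z:ℝ)+1)/(m:ℝ))^2 ≤ (m:ℝ) := by
    calc ∑ z ∈ range m, (1 - ((z:ℝ)+1)/(m:ℝ))^2 ≤ ∑ z ∈ range m, (1:ℝ) := by
          apply Finset.sum_le_sum
          intro z hz
          rw [Finset.mem_range] at hz
          have hm : (0:ℝ) < m := by exact_mod_cast (by omega : 0 < m)
          have hz' : (z:ℝ) + 1 ≤ m := by exact_mod_cast hz
          have h1 : 0 ≤ ((z:ℝ)+1)/(m:ℝ) := by positivity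
          have h2 : ((z:ℝ)+1)/(m:ℝ) ≤ 1 := by rw [div_le_one hm]; exact hz'
          nlinarith
      _ = m := by simp
  have hb0 : 0 ≤ ∑ z ∈ range m, (1 - ((z:ℝ)+1)/(m:ℝ))^2 := Finset.sum_nonneg (fun _ _ => sq_nonneg _)
  have h' : E (fun ω => (W m ω x)^4) ≤ 3 * (∑ z ∈ range m, (1 - ((z:ℝ)+1)/(m:ℝ))^2)^2 := h
  refine h'.trans ?_
  have := pow_le_pow_left₀ hb0 hb 2
  linarith

theorem Eva4 (m : ℕ) (hm : 0 < m) (x : ℤ) : E (fun ω => (va m ω x)^4) ≤ 3 / (m:ℝ)^2 := by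
  have h := (MVq_sum x (fun _ => 1/(m:ℝ)) m).2
  have hm' : (0:ℝ) < m := by exact_mod_cast hm
  have h1 : (fun ω => (va m ω x)^4) = (fun ω => (∑ z ∈ range m, 1/(m:ℝ) * (cs ω (x - (z:ℤ)) : ℝ))^4) := by
    funext ω
    unfold va
    rw [← Finset.mul_sum]
    congr 1
    ring
  rw [h1]
  refine h.trans (le_of_eq ?_)
  rw [Finset.sum_const, Finset.card_range, nsmul_eq_mul]
  field_simp

theorem MVq_DG_Th (m s : ℕ) (ω : Om) : DG m s ω = DG m 0 (Th^[s] ω) := by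
  have h1 : rs (Th^[s] ω) (X 0 (Th^[s] ω)).2 = rs ω (X s ω).2 := by
    have h0 : (X 0 (Th^[s] ω)).2 = 0 := rfl
    rw [h0]
    unfold rs
    rw [Th_row, zero_add]
  have h2 : ∀ x : ℤ, W m (Th^[s] ω) x = W m ω (x + (X s ω).1) := by
    intro x
    unfold W
    apply Finset.sum_congr rfl
    intro z _
    have : cs (Th^[s] ω) (x - (z:ℤ)) = cs ω (x + (X s ω).1 - (z:ℤ)) := by
      unfold cs
      rw [Th_col]
      have : x - (z:ℤ) + (X s ω).1 = x + (X s ω).1 - (z:ℤ) := by ring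
      rw [this]
    rw [this]
  have h3 : (X 0 (Th^[s] ω)).1 = 0 := rfl
  unfold DG
  rw [h1, h2, h2, h3, zero_add]
  have : (0:ℤ) - 1 + (X s ω).1 = (X s ω).1 - 1 := by ring
  rw [this]

theorem MVq_DG0 (m : ℕ) : E (fun ω => (DG m 0 ω)^4) ≤ 6 * (m:ℝ)^2 := by
  have hL1 : Loc (fun ω => (W m ω 0)^4) := Loc_comp (fun r => r^4) (MVq_Loc_W m 0)
  have hL2 : Loc (fun ω => (W m ω (-1))^4) := Loc_comp (fun r => r^4) (MVq_Loc_W m (-1))
  have hL : Loc (fun ω => (DG m 0 ω)^4) := Loc_comp (fun r => r^4) (Loc_DG m 0)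
  have h1 : E (fun ω => (DG m 0 ω)^4) ≤ E (fun ω => (W m ω 0)^4 + (W m ω (-1))^4) := by
    apply E_mono hL (Loc_add hL1 hL2)
    intro ω
    have h3 : (X 0 ω).1 = 0 := rfl
    have hp1 : 0 ≤ (W m ω 0)^4 := by positivity
    have hp2 : 0 ≤ (W m ω (-1))^4 := by positivity
    unfold DG
    rw [h3]
    split_ifs
    · linarith
    · have : (0:ℤ) - 1 = -1 := by ring
      rw [this]
      have : (-W m ω (-1))^4 = (W m ω (-1))^4 := by ring
      rw [this]; linarith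
  rw [E_add hL1 hL2] at h1
  have := EW4 m 0
  have := EW4 m (-1)
  linarith

theorem EDG4 (m s : ℕ) : E (fun ω => (DG m s ω)^4) ≤ 6 * (m:ℝ)^2 := by
  have hL : Loc (fun ω => (DG m 0 ω)^4) := Loc_comp (fun r => r^4) (Loc_DG m 0)
  have h1 : E (fun ω => (DG m s ω)^4) = E (fun ω => (DG m 0 (Th^[s] ω))^4) := by
    congr 1; funext ω; rw [MVq_DG_Th]
  rw [h1, E_Th hL s]
  exact MVq_DG0 m

theorem EDGb4 (m s : ℕ) : E (fun ω => (DGb m s ω)^4) ≤ 6 * (m:ℝ)^2 := by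
  have hL : Loc (fun ω => (DG m 0 ω)^4) := Loc_comp (fun r => r^4) (Loc_DG m 0)
  have h1 : E (fun ω => (DGb m s ω)^4) = E (fun ω => (DG m 0 (Rev s ω))^4) := by
    congr 1; funext ω
    rw [DG_Rev m s 0 (Nat.zero_le s), Nat.sub_zero]
    ring
  rw [h1, E_Rev hL s]
  exact MVq_DG0 m

theorem MVq_X_fl (s t : ℕ) (hst : s ≤ t) (ω : Om) : X s (fl (Sum.inl t) ω) = X s ω := by
  symm
  refine X_ag t ω (fl (Sum.inl t) ω) ⟨?_, ?_, ?_⟩ s hst
  · intro n hn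
    unfold fl
    rw [Function.update_of_ne]
    intro h
    have := Sum.inl.inj h
    omega
  · intro z _
    unfold fl
    rw [Function.update_of_ne]
    simp
  · intro z _
    unfold fl
    rw [Function.update_of_ne]
    simp

theorem MVq_cs_fl (t : ℕ) (ω : Om) (z : ℤ) : cs (fl (Sum.inl t) ω) z = cs ω z := by
  unfold cs fl
  rw [Function.update_of_ne (by simp)]

theorem MVq_rs_fl (t : ℕ) (ω : Om) (z : ℤ) : rs (fl (Sum.inl t) ω) z = rs ω z := by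
  unfold rs fl
  rw [Function.update_of_ne (by simp)]

theorem MVq_mg (D : ℕ → Om → ℝ) (hL : ∀ s, Loc (D s)) (d : ℝ) (hd : 0 ≤ d)
    (hD : ∀ s, E (fun ω => (D s ω)^4) ≤ d)
    (hfl : ∀ s t, s ≤ t → ∀ ω, D s (fl (Sum.inl t) ω) = D s ω) (t : ℕ) :
    E (fun ω => (∑ s ∈ range t, ch s ω * D s ω)^4) ≤ (t:ℝ)^2 * d := by
  induction t with
  | zero =>
    simp only [Finset.range_zero, Finset.sum_empty]
    rw [show (fun _ : Om => (0:ℝ)^4) = (fun _ : Om => (0:ℝ)) by funext ω; norm_num]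
    rw [E_const 0]; norm_num
  | succ t ih =>
    set M : Om → ℝ := fun ω => ∑ s ∈ range t, ch s ω * D s ω with hM
    set G : Om → ℝ := D t with hG
    set c : Om → ℝ := ch t with hc
    have hLM : Loc M := Loc_sum _ _ (fun s _ => Loc_mul (MVq_Loc_ch s) (hL s))
    have hLG : Loc G := hL t
    have hLc : Loc c := MVq_Loc_ch t
    have hflM : ∀ ω, M (fl (Sum.inl t) ω) = M ω := by
      intro ω
      simp only [hM]
      apply Finset.sum_congr rfl
      intro s hs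
      rw [Finset.mem_range] at hs
      rw [hfl s t hs.le]
      congr 1
      unfold ch fl
      rw [Function.update_of_ne]
      intro h
      have := Sum.inl.inj h
      omega
    have hflc : ∀ ω, c (fl (Sum.inl t) ω) = - c ω := by
      intro ω
      simp only [hc]
      unfold ch fl
      rw [Function.update_self]
      cases ω (Sum.inl t) <;> norm_num
    have hcsq : ∀ ω, c ω ^ 2 = 1/4 := by
      intro ω
      simp only [hc]
      unfold ch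
      cases ω (Sum.inl t) <;> norm_num
    have hflG : ∀ ω, G (fl (Sum.inl t) ω) = G ω := fun ω => hfl t t (le_refl t) ω
    have hodd : E (fun ω => c ω * (4 * (M ω ^3 * G ω) + M ω * G ω ^3)) = 0 := by
      apply MVq_odd (Sum.inl t)
      intro ω
      rw [hflM, hflc, hflG]; ring
    have hLM2 : Loc (fun ω => M ω ^ 2) := Loc_comp (fun r => r^2) hLM
    have hLG2 : Loc (fun ω => G ω ^ 2) := Loc_comp (fun r => r^2) hLG
    have hLM3 : Loc (fun ω => M ω ^ 3) := Loc_comp (fun r => r^3) hLM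
    have hLG3 : Loc (fun ω => G ω ^ 3) := Loc_comp (fun r => r^3) hLG
    have hLM4 : Loc (fun ω => M ω ^ 4) := Loc_comp (fun r => r^4) hLM
    have hLG4 : Loc (fun ω => G ω ^ 4) := Loc_comp (fun r => r^4) hLG
    have hLMG : Loc (fun ω => M ω ^ 2 * G ω ^ 2) := Loc_mul hLM2 hLG2
    have hLo : Loc (fun ω => c ω * (4 * (M ω ^3 * G ω) + M ω * G ω ^3)) :=
      Loc_mul hLc (Loc_add (Loc_mul (Loc_const _) (Loc_mul hLM3 hLG)) (Loc_mul hLM hLG3))
    have hLa : Loc (fun ω => 3/2 * (M ω ^ 2 * G ω ^ 2)) := Loc_mul (Loc_const _) hLMG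
    have hLb : Loc (fun ω => 1/16 * G ω ^ 4) := Loc_mul (Loc_const _) hLG4
    have hE : E (fun ω => (∑ s ∈ range (t+1), ch s ω * D s ω)^4) =
        E (fun ω => M ω ^ 4) + 3/2 * E (fun ω => M ω ^ 2 * G ω ^ 2) + 1/16 * E (fun ω => G ω ^ 4) := by
      have h1 : (fun ω => (∑ s ∈ range (t+1), ch s ω * D s ω)^4) =
          (fun ω => ((M ω ^ 4 + 3/2 * (M ω ^ 2 * G ω ^ 2)) + 1/16 * G ω ^ 4) +
            c ω * (4 * (M ω ^3 * G ω) + M ω * G ω ^3)) := by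
        funext ω
        rw [Finset.sum_range_succ]
        show (M ω + c ω * G ω)^4 = _
        linear_combination (6 * M ω ^2 * G ω ^2 + 4 * M ω * c ω * G ω ^3 + G ω ^4 * (c ω ^2 + 1/4)) * hcsq ω
      rw [h1, E_add (Loc_add (Loc_add hLM4 hLa) hLb) hLo, hodd, E_add (Loc_add hLM4 hLa) hLb,
        E_add hLM4 hLa, E_cmul, E_cmul]
      ring
    have hcs := E_cs hLM2 hLG2
    have hcs' : (E (fun ω => M ω ^ 2 * G ω ^ 2))^2 ≤ E (fun ω => M ω ^ 4) * E (fun ω => G ω ^ 4) := by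
      have e1 : (fun ω => (M ω ^ 2)^2) = (fun ω => M ω ^ 4) := by funext ω; ring
      have e2 : (fun ω => (G ω ^ 2)^2) = (fun ω => G ω ^ 4) := by funext ω; ring
      rw [e1, e2] at hcs
      exact hcs
    have hG4 : E (fun ω => G ω ^ 4) ≤ d := hD t
    have hM4 : E (fun ω => M ω ^ 4) ≤ (t:ℝ)^2 * d := ih
    have hG40 : 0 ≤ E (fun ω => G ω ^ 4) := by
      have := E_mono (Loc_const 0) hLG4 (fun ω => by positivity)
      rwa [E_const] at this
    have hM40 : 0 ≤ E (fun ω => M ω ^ 4) := by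
      have := E_mono (Loc_const 0) hLM4 (fun ω => by positivity)
      rwa [E_const] at this
    have hmid : E (fun ω => M ω ^ 2 * G ω ^ 2) ≤ (t:ℝ) * d := by
      have h1 : E (fun ω => M ω ^ 4) * E (fun ω => G ω ^ 4) ≤ ((t:ℝ)^2 * d) * d :=
        mul_le_mul hM4 hG4 hG40 (by positivity)
      have h2 : (E (fun ω => M ω ^ 2 * G ω ^ 2))^2 ≤ ((t:ℝ) * d)^2 := by
        calc _ ≤ _ := hcs'
          _ ≤ _ := h1
          _ = _ := by ring
      exact le_of_sq_le_sq h2 (by positivity)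
    rw [hE]
    push_cast
    have ht0 : (0:ℝ) ≤ t := Nat.cast_nonneg t
    nlinarith [mul_nonneg ht0 hd]

theorem EMt4 (m t : ℕ) : E (fun ω => (Mt m t ω)^4) ≤ 6 * (t:ℝ)^2 * (m:ℝ)^2 := by
  have h := MVq_mg (fun s => DG m s) (Loc_DG m) (6 * (m:ℝ)^2) (by positivity) (EDG4 m) (by
    intro s t' hst ω
    have hW : ∀ x, W m (fl (Sum.inl t') ω) x = W m ω x := by
      intro x
      unfold W
      apply Finset.sum_congr rfl
      intro z _
      rw [MVq_cs_fl]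
    show DG m s (fl (Sum.inl t') ω) = DG m s ω
    unfold DG
    rw [MVq_X_fl s t' hst, MVq_rs_fl, hW, hW]) t
  have h2 : (fun ω => (Mt m t ω)^4) = (fun ω => (∑ s ∈ range t, ch s ω * DG m s ω)^4) := rfl
  rw [h2]
  refine h.trans (le_of_eq ?_)
  ring

theorem MVq_pow4_add (a b : ℝ) : (a + b)^4 ≤ 8 * (a^4 + b^4) := by
  have h1 : (a + b)^2 ≤ 2 * (a^2 + b^2) := by nlinarith [sq_nonneg (a - b)]
  have h2 : ((a + b)^2)^2 ≤ (2 * (a^2 + b^2))^2 := pow_le_pow_left₀ (sq_nonneg _) h1 2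
  nlinarith [sq_nonneg (a^2 - b^2)]

theorem MVq_sum4 (t : ℕ) (f : ℕ → ℝ) : (∑ s ∈ range t, f s)^4 ≤ (t:ℝ)^3 * ∑ s ∈ range t, (f s)^4 := by
  have h1 := sq_sum_le_card_mul_sum_sq (s := range t) (f := f)
  have h2 := sq_sum_le_card_mul_sum_sq (s := range t) (f := fun s => (f s)^2)
  rw [Finset.card_range] at h1 h2
  have h3 : ((∑ s ∈ range t, f s)^2)^2 ≤ ((t:ℝ) * ∑ s ∈ range t, (f s)^2)^2 :=
    pow_le_pow_left₀ (sq_nonneg _) h1 2
  have e : ∀ s, ((f s)^2)^2 = (f s)^4 := fun s => by ring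
  simp only [e] at h2
  have ht0 : (0:ℝ) ≤ (t:ℝ)^2 := by positivity
  have h4 := mul_le_mul_of_nonneg_left h2 ht0
  nlinarith

theorem MVq_A (m : ℕ) (hm : 0 < m) (t : ℕ) :
    E (fun ω => (∑ s ∈ range t, va m ω (X s ω).1)^4) ≤ 3 * (t:ℝ)^4 / (m:ℝ)^2 := by
  have hstat : ∀ s, E (fun ω => (va m ω (X s ω).1)^4) ≤ 3 / (m:ℝ)^2 := by
    intro s
    have hL : Loc (fun ω => (va m ω 0)^4) := Loc_comp (fun r => r^4) (MVq_Loc_va m 0)
    have h1 : E (fun ω => (va m ω (X s ω).1)^4) = E (fun ω => (va m (Th^[s] ω) 0)^4) := by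
      congr 1; funext ω
      have : va m (Th^[s] ω) 0 = va m ω (X s ω).1 := by
        unfold va
        congr 1
        apply Finset.sum_congr rfl
        intro z _
        unfold cs
        rw [Th_col]
        have : (0:ℤ) - (z:ℤ) + (X s ω).1 = (X s ω).1 - (z:ℤ) := by ring
        rw [this]
      rw [this]
    rw [h1, E_Th hL s]
    exact Eva4 m hm 0
  have hLs : ∀ s, Loc (fun ω => (va m ω (X s ω).1)^4) := fun s => Loc_comp (fun r => r^4) (MVq_Loc_vaX m s)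
  have hL1 : Loc (fun ω => (∑ s ∈ range t, va m ω (X s ω).1)^4) :=
    Loc_comp (fun r => r^4) (Loc_sum _ _ (fun s _ => MVq_Loc_vaX m s))
  have hL2 : Loc (fun ω => ∑ s ∈ range t, (va m ω (X s ω).1)^4) := Loc_sum _ _ (fun s _ => hLs s)
  calc E (fun ω => (∑ s ∈ range t, va m ω (X s ω).1)^4)
      ≤ E (fun ω => (t:ℝ)^3 * ∑ s ∈ range t, (va m ω (X s ω).1)^4) :=
        E_mono hL1 (Loc_mul (Loc_const _) hL2) (fun ω => MVq_sum4 t _)
    _ = (t:ℝ)^3 * ∑ s ∈ range t, E (fun ω => (va m ω (X s ω).1)^4) := by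
        rw [E_cmul, E_sum _ _ (fun s _ => hLs s)]
    _ ≤ (t:ℝ)^3 * ∑ s ∈ range t, (3 / (m:ℝ)^2) := by
        apply mul_le_mul_of_nonneg_left (Finset.sum_le_sum (fun s _ => hstat s)) (by positivity)
    _ = 3 * (t:ℝ)^4 / (m:ℝ)^2 := by
        rw [Finset.sum_const, Finset.card_range, nsmul_eq_mul]
        ring

theorem MVq_B (m : ℕ) (t : ℕ) (ht : 1 ≤ t) :
    E (fun ω => (∑ s ∈ range t, (W m ω (X s ω).1 - W m ω ((X s ω).1 - 1)))^4) ≤ 13056 * (t:ℝ)^2 * (m:ℝ)^2 := by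
  have hLM : Loc (Mt m t) := Loc_Mt m t
  have hLM4 : Loc (fun ω => (Mt m t ω)^4) := Loc_comp (fun r => r^4) hLM
  have hLR4 : Loc (fun ω => (Mt m t (Rev t ω))^4) := Loc_Rev hLM4 t
  have hLR : Loc (fun ω => Mt m t (Rev t ω)) := Loc_Rev hLM t
  have hLb : Loc (fun ω => (DGb m t ω)^4) := Loc_comp (fun r => r^4) (Loc_DGb m t)
  have hLb0 : Loc (fun ω => (DGb m 0 ω)^4) := Loc_comp (fun r => r^4) (Loc_DGb m 0)
  have hR : E (fun ω => (Mt m t (Rev t ω))^4) = E (fun ω => (Mt m t ω)^4) := E_Rev hLM4 t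
  have hpt : ∀ ω, (∑ s ∈ range t, (W m ω (X s ω).1 - W m ω ((X s ω).1 - 1)))^4 ≤
      ((1024 * (Mt m t (Rev t ω))^4 + 1024 * (Mt m t ω)^4) + 64 * (DGb m t ω)^4) + 64 * (DGb m 0 ω)^4 := by
    intro ω
    rw [W_path]
    have h1 := MVq_pow4_add (2 * Mt m t (Rev t ω) + (-(2 * Mt m t ω))) (-DGb m t ω + DGb m 0 ω)
    have h2 := MVq_pow4_add (2 * Mt m t (Rev t ω)) (-(2 * Mt m t ω))
    have h3 := MVq_pow4_add (-DGb m t ω) (DGb m 0 ω)
    have e : 2 * (Mt m t (Rev t ω) - Mt m t ω) - DGb m t ω + DGb m 0 ω =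
        (2 * Mt m t (Rev t ω) + (-(2 * Mt m t ω))) + (-DGb m t ω + DGb m 0 ω) := by ring
    rw [e]
    have e1 : (2 * Mt m t (Rev t ω))^4 = 16 * (Mt m t (Rev t ω))^4 := by ring
    have e2 : (-(2 * Mt m t ω))^4 = 16 * (Mt m t ω)^4 := by ring
    have e3 : (-DGb m t ω)^4 = (DGb m t ω)^4 := by ring
    rw [e1, e2] at h2
    rw [e3] at h3
    linarith
  have hLsum : Loc (fun ω => (∑ s ∈ range t, (W m ω (X s ω).1 - W m ω ((X s ω).1 - 1)))^4) := by
    have e : (fun ω => (∑ s ∈ range t, (W m ω (X s ω).1 - W m ω ((X s ω).1 - 1)))^4) =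
        (fun ω => (2 * (Mt m t (Rev t ω) - Mt m t ω) - DGb m t ω + DGb m 0 ω)^4) := by
      funext ω; rw [W_path]
    rw [e]
    exact Loc_comp (fun r => r^4) (Loc_add (Loc_sub (Loc_mul (Loc_const 2) (Loc_sub hLR hLM)) (Loc_DGb m t)) (Loc_DGb m 0))
  have hl1 : Loc (fun ω => 1024 * (Mt m t (Rev t ω))^4) := Loc_mul (Loc_const _) hLR4
  have hl2 : Loc (fun ω => 1024 * (Mt m t ω)^4) := Loc_mul (Loc_const _) hLM4
  have hl3 : Loc (fun ω => 64 * (DGb m t ω)^4) := Loc_mul (Loc_const _) hLb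
  have hl4 : Loc (fun ω => 64 * (DGb m 0 ω)^4) := Loc_mul (Loc_const _) hLb0
  have h := E_mono hLsum (Loc_add (Loc_add (Loc_add hl1 hl2) hl3) hl4) hpt
  rw [E_add (Loc_add (Loc_add hl1 hl2) hl3) hl4, E_add (Loc_add hl1 hl2) hl3, E_add hl1 hl2,
    E_cmul, E_cmul, E_cmul, E_cmul, hR] at h
  have h1 := EMt4 m t
  have h2 := EDGb4 m t
  have h3 := EDGb4 m 0
  have ht' : (1:ℝ) ≤ (t:ℝ) := by exact_mod_cast ht
  have ht2 : (1:ℝ) ≤ (t:ℝ)^2 := by nlinarith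
  have hm2 : 0 ≤ (m:ℝ)^2 := by positivity
  nlinarith [mul_le_mul_of_nonneg_right ht2 hm2]

theorem y4 (t : ℕ) (ht : 1 ≤ t) : E (fun ω => ((X t ω).2 : ℝ)^4) ≤ 10^5 * (t:ℝ)^3 := by
  set m := Nat.sqrt t with hmdef
  have hm : 0 < m := Nat.sqrt_pos.mpr (by omega)
  have hm' : (0:ℝ) < m := by exact_mod_cast hm
  have hm1 : (m:ℝ)^2 ≤ t := by
    have := Nat.sqrt_le' t
    exact_mod_cast this
  have hm2 : (t:ℝ) ≤ 4 * (m:ℝ)^2 := by
    have h1 := Nat.lt_succ_sqrt' t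
    have h2 : t < (m + 1)^2 := h1
    have h3 : (t:ℝ) < ((m:ℝ) + 1)^2 := by exact_mod_cast h2
    have h4 : (1:ℝ) ≤ m := by exact_mod_cast hm
    nlinarith
  have hA := MVq_A m hm t
  have hB := MVq_B m t ht
  have hN := MVq_mg (fun s ω => (cs ω (X s ω).1 : ℝ)) MVq_Loc_csX 1 zero_le_one (by
    intro s
    have : (fun ω : Om => ((cs ω (X s ω).1 : ℤ) : ℝ)^4) = fun _ => (1:ℝ) := by
      funext ω
      unfold cs
      split_ifs <;> norm_num
    show E (fun ω => ((cs ω (X s ω).1 : ℤ) : ℝ)^4) ≤ 1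
    rw [this, E_const]) (by
    intro s t' hst ω
    show ((cs (fl (Sum.inl t') ω) (X s (fl (Sum.inl t') ω)).1 : ℤ) : ℝ) = _
    rw [MVq_X_fl s t' hst, MVq_cs_fl]) t
  have hLA : Loc (fun ω => ∑ s ∈ range t, va m ω (X s ω).1) := Loc_sum _ _ (fun s _ => MVq_Loc_vaX m s)
  have hLS : Loc (fun ω => ∑ s ∈ range t, (cs ω (X s ω).1 : ℝ)) := Loc_sum _ _ (fun s _ => MVq_Loc_csX s)
  have hLN : Loc (fun ω => ∑ s ∈ range t, ch s ω * (cs ω (X s ω).1 : ℝ)) :=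
    Loc_sum _ _ (fun s _ => Loc_mul (MVq_Loc_ch s) (MVq_Loc_csX s))
  have hsplit : ∀ ω, ∑ s ∈ range t, (cs ω (X s ω).1 : ℝ) =
      (∑ s ∈ range t, va m ω (X s ω).1) + ∑ s ∈ range t, (W m ω (X s ω).1 - W m ω ((X s ω).1 - 1)) := by
    intro ω
    rw [← Finset.sum_add_distrib]
    apply Finset.sum_congr rfl
    intro s _
    exact W_sub m hm ω _
  have hLB : Loc (fun ω => ∑ s ∈ range t, (W m ω (X s ω).1 - W m ω ((X s ω).1 - 1))) := by
    have e : (fun ω => ∑ s ∈ range t, (W m ω (X s ω).1 - W m ω ((X s ω).1 - 1))) =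
        (fun ω => (∑ s ∈ range t, (cs ω (X s ω).1 : ℝ)) - ∑ s ∈ range t, va m ω (X s ω).1) := by
      funext ω; rw [hsplit]; ring
    rw [e]
    exact Loc_sub hLS hLA
  have hL4A := Loc_comp (fun r => r^4) hLA
  have hL4B := Loc_comp (fun r => r^4) hLB
  have hL4N := Loc_comp (fun r => r^4) hLN
  have hLy : Loc (fun ω => ((X t ω).2 : ℝ)^4) := Loc_X t (fun z => ((z.2 : ℤ) : ℝ)^4)
  have hpt : ∀ ω, ((X t ω).2 : ℝ)^4 ≤ (4 * (∑ s ∈ range t, va m ω (X s ω).1)^4 +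
      4 * (∑ s ∈ range t, (W m ω (X s ω).1 - W m ω ((X s ω).1 - 1)))^4) +
      8 * (∑ s ∈ range t, ch s ω * (cs ω (X s ω).1 : ℝ))^4 := by
    intro ω
    rw [y_eq, hsplit]
    set a := ∑ s ∈ range t, va m ω (X s ω).1
    set b := ∑ s ∈ range t, (W m ω (X s ω).1 - W m ω ((X s ω).1 - 1))
    set c := ∑ s ∈ range t, ch s ω * (cs ω (X s ω).1 : ℝ)
    have h1 := MVq_pow4_add ((a + b)/2) (-c)
    have h2 := MVq_pow4_add a b
    have e1 : ((a + b)/2)^4 = (a+b)^4/16 := by ring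
    have e2 : (-c)^4 = c^4 := by ring
    rw [e1, e2] at h1
    have e3 : (a + b)/2 - c = (a+b)/2 + -c := by ring
    rw [e3]
    linarith
  have hl1 : Loc (fun ω => 4 * (∑ s ∈ range t, va m ω (X s ω).1)^4) := Loc_mul (Loc_const _) hL4A
  have hl2 : Loc (fun ω => 4 * (∑ s ∈ range t, (W m ω (X s ω).1 - W m ω ((X s ω).1 - 1)))^4) :=
    Loc_mul (Loc_const _) hL4B
  have hl3 : Loc (fun ω => 8 * (∑ s ∈ range t, ch s ω * (cs ω (X s ω).1 : ℝ))^4) := Loc_mul (Loc_const _) hL4N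
  have h := E_mono hLy (Loc_add (Loc_add hl1 hl2) hl3) hpt
  rw [E_add (Loc_add hl1 hl2) hl3, E_add hl1 hl2, E_cmul, E_cmul, E_cmul] at h
  have ht' : (1:ℝ) ≤ (t:ℝ) := by exact_mod_cast ht
  have hA' : 3 * (t:ℝ)^4 / (m:ℝ)^2 ≤ 12 * (t:ℝ)^3 := by
    rw [div_le_iff₀ (by positivity)]
    have : 0 ≤ 3 * (t:ℝ)^3 := by positivity
    nlinarith [mul_le_mul_of_nonneg_left hm2 this]
  have hB' : 13056 * (t:ℝ)^2 * (m:ℝ)^2 ≤ 13056 * (t:ℝ)^3 := by
    have : 0 ≤ 13056 * (t:ℝ)^2 := by positivity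
    nlinarith [mul_le_mul_of_nonneg_left hm1 this]
  have hN' : E (fun ω => (∑ s ∈ range t, ch s ω * (cs ω (X s ω).1 : ℝ))^4) ≤ (t:ℝ)^3 := by
    refine hN.trans ?_
    have : 0 ≤ (t:ℝ)^2 := by positivity
    nlinarith [mul_le_mul_of_nonneg_left ht' this]
  have ht3 : 0 ≤ (t:ℝ)^3 := by positivity
  nlinarith

end MV
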