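import Pool.Agent.Helper870.MV.Defs
import Pool.Agent.Helper870.MV.A1
import Pool.Agent.Helper870.MV.A3
import Pool.Agent.Helper870.MV.B3p

set_option autoImplicit false
set_option linter.unusedSectionVars false

open Finset MeasureTheory

noncomputable section

-- USES: A1 A3 B3p
namespace MV

def yy (s : ℕ) (ω : Om) : ℝ := ((X s ω).2 : ℝ)

def Dl (j i : ℕ) (ω : Om) : ℝ := yy ((i+1)*2^j) ω - yy (i*2^j) ω

theorem Dl_eq (j i : ℕ) (ω : Om) : Dl j i ω = yy (2^j) (Th^[i*2^j] ω) := by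
  unfold Dl yy
  have h : (i+1)*2^j = i*2^j + 2^j := by ring
  rw [h, X_add]
  simp

theorem Loc_yy (s : ℕ) : Loc (yy s) := Loc_X s (fun p => (p.2 : ℝ))

theorem Loc_Dl (j i : ℕ) : Loc (Dl j i) := Loc_sub (Loc_yy _) (Loc_yy _)

def Q2 (J j : ℕ) (ω : Om) : ℝ := Real.sqrt (∑ i ∈ range (2^(J-j)), (Dl j i ω)^2)

def Q4 (J j : ℕ) (ω : Om) : ℝ := Real.sqrt (Real.sqrt (∑ i ∈ range (2^(J-j)), (Dl j i ω)^4))

def Mn (J j : ℕ) (ω : Om) : ℝ := min (Q2 J j ω) (Q4 J j ω)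

theorem Loc_S2 (J j : ℕ) : Loc (fun ω => ∑ i ∈ range (2^(J-j)), (Dl j i ω)^2) :=
  Loc_sum _ (fun i ω => (Dl j i ω)^2) fun i _ => Loc_comp (fun x => x^2) (Loc_Dl j i)

theorem Loc_S4 (J j : ℕ) : Loc (fun ω => ∑ i ∈ range (2^(J-j)), (Dl j i ω)^4) :=
  Loc_sum _ (fun i ω => (Dl j i ω)^4) fun i _ => Loc_comp (fun x => x^4) (Loc_Dl j i)

theorem Loc_Q2 (J j : ℕ) : Loc (Q2 J j) := Loc_comp Real.sqrt (Loc_S2 J j)

theorem Loc_Q4 (J j : ℕ) : Loc (Q4 J j) := Loc_comp Real.sqrt (Loc_comp Real.sqrt (Loc_S4 J j))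

theorem Loc_Mn (J j : ℕ) : Loc (Mn J j) := by
  obtain ⟨s, hs⟩ := Loc_Q2 J j
  obtain ⟨t, ht⟩ := Loc_Q4 J j
  refine ⟨max s t, fun ω ω' h => ?_⟩
  unfold Mn
  rw [hs ω ω' (Ag_mono (le_max_left s t) h), ht ω ω' (Ag_mono (le_max_right s t) h)]

theorem Dl_le_Mn (J j i : ℕ) (hi : i < 2^(J-j)) (ω : Om) : |Dl j i ω| ≤ Mn J j ω := by
  unfold Mn
  refine le_min ?_ ?_
  · unfold Q2
    apply Real.abs_le_sqrt
    exact Finset.single_le_sum (f := fun i => (Dl j i ω)^2) (fun k _ => sq_nonneg _)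
      (Finset.mem_range.2 hi)
  · unfold Q4
    apply Real.abs_le_sqrt
    apply Real.le_sqrt_of_sq_le
    have h : (Dl j i ω)^4 ≤ ∑ i ∈ range (2^(J-j)), (Dl j i ω)^4 :=
      Finset.single_le_sum (f := fun i => (Dl j i ω)^4) (fun k _ => by positivity)
        (Finset.mem_range.2 hi)
    calc ((Dl j i ω)^2)^2 = (Dl j i ω)^4 := by ring
      _ ≤ _ := h

theorem Mn_nonneg (J j : ℕ) (ω : Om) : 0 ≤ Mn J j ω :=
  le_min (Real.sqrt_nonneg _) (Real.sqrt_nonneg _)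

theorem E_le_sqrt {F : Om → ℝ} (hF : Loc F) : E F ≤ Real.sqrt (E (fun ω => (F ω)^2)) := by
  have h := E_cs hF (Loc_const 1)
  have h1 : E (fun ω => F ω * 1) = E F := by congr 1; funext ω; ring
  have h2 : E (fun _ : Om => (1:ℝ)^2) = 1 := by rw [one_pow]; exact E_const 1
  rw [h1, h2, mul_one] at h
  exact (le_abs_self _).trans (Real.abs_le_sqrt h)

theorem E_Dl_pow (j i k : ℕ) : E (fun ω => (Dl j i ω)^k) = E (fun ω => (yy (2^j) ω)^k) := by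
  have h := E_Th (F := fun ω => (yy (2^j) ω)^k) (Loc_comp (fun x => x^k) (Loc_yy (2^j))) (i*2^j)
  rw [← h]
  congr 1
  funext ω
  rw [Dl_eq]

theorem E_Q2 (J j : ℕ) : E (Q2 J j) ≤ Real.sqrt ((2:ℝ)^(J-j) * ay (2^j)) := by
  refine (E_le_sqrt (Loc_Q2 J j)).trans (le_of_eq ?_)
  congr 1
  have h1 : (fun ω => (Q2 J j ω)^2) = fun ω => ∑ i ∈ range (2^(J-j)), (Dl j i ω)^2 := by
    funext ω
    unfold Q2
    exact Real.sq_sqrt (Finset.sum_nonneg fun i _ => sq_nonneg _)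
  rw [h1, E_sum (range (2^(J-j))) (fun i ω => (Dl j i ω)^2)
    (fun i _ => Loc_comp (fun x => x^2) (Loc_Dl j i))]
  simp only [E_Dl_pow]
  rw [Finset.sum_const, Finset.card_range, nsmul_eq_mul]
  push_cast
  rfl

theorem E_Q4 (J j : ℕ) (hj : j ≤ J) : E (Q4 J j) ≤ 18 * (2:ℝ)^((J:ℝ)/4) * (2:ℝ)^((j:ℝ)/2) := by
  obtain ⟨B, hB⟩ : ∃ B : ℝ, B = 18 * (2:ℝ)^((J:ℝ)/4) * (2:ℝ)^((j:ℝ)/2) := ⟨_, rfl⟩
  have hB0 : 0 ≤ B := by rw [hB]; positivity
  rw [← hB]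
  have h0 := E_le_sqrt (Loc_Q4 J j)
  have h1 : (fun ω => (Q4 J j ω)^2) =
      fun ω => Real.sqrt (∑ i ∈ range (2^(J-j)), (Dl j i ω)^4) := by
    funext ω
    unfold Q4
    exact Real.sq_sqrt (Real.sqrt_nonneg _)
  rw [h1] at h0
  have h2 := E_le_sqrt (Loc_comp Real.sqrt (Loc_S4 J j))
  have h3 : (fun ω => (Real.sqrt (∑ i ∈ range (2^(J-j)), (Dl j i ω)^4))^2) =
      fun ω => ∑ i ∈ range (2^(J-j)), (Dl j i ω)^4 := by
    funext ω
    exact Real.sq_sqrt (Finset.sum_nonneg fun i _ => by positivity)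
  rw [h3, E_sum (range (2^(J-j))) (fun i ω => (Dl j i ω)^4)
    (fun i _ => Loc_comp (fun x => x^4) (Loc_Dl j i))] at h2
  simp only [E_Dl_pow] at h2
  rw [Finset.sum_const, Finset.card_range, nsmul_eq_mul] at h2
  have h4 : E (fun ω => (yy (2^j) ω)^4) ≤ 10^5 * ((2^j : ℕ):ℝ)^3 := y4 (2^j) Nat.one_le_two_pow
  have hJ : (2:ℝ)^J = (2:ℝ)^(J-j) * (2:ℝ)^j := by
    rw [← pow_add]; congr 1; omega
  have hB4 : B^4 = 104976 * ((2:ℝ)^(J-j) * (2:ℝ)^j) * ((2:ℝ)^j)^2 := by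
    rw [hB, mul_pow, mul_pow]
    have e1 : ((2:ℝ)^((J:ℝ)/4))^4 = (2:ℝ)^J := by
      rw [← Real.rpow_natCast, ← Real.rpow_mul (by norm_num)]
      have : (J:ℝ)/4 * ((4:ℕ):ℝ) = (J:ℝ) := by push_cast; ring
      rw [this, Real.rpow_natCast]
    have e2 : ((2:ℝ)^((j:ℝ)/2))^4 = ((2:ℝ)^j)^2 := by
      rw [← Real.rpow_natCast, ← Real.rpow_mul (by norm_num)]
      have : (j:ℝ)/2 * ((4:ℕ):ℝ) = ((j*2 : ℕ):ℝ) := by push_cast; ring
      rw [this, Real.rpow_natCast, pow_mul]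
    rw [e1, e2, hJ]
    norm_num
  have h5 : ((2^(J-j) : ℕ):ℝ) * E (fun ω => (yy (2^j) ω)^4) ≤ B^4 := by
    have hp1 : (0:ℝ) ≤ (2:ℝ)^(J-j) := by positivity
    have h6 : ((2^(J-j) : ℕ):ℝ) * E (fun ω => (yy (2^j) ω)^4) ≤
        (2:ℝ)^(J-j) * (10^5 * ((2^j : ℕ):ℝ)^3) := by
      push_cast
      push_cast at h4
      exact mul_le_mul_of_nonneg_left h4 hp1
    refine h6.trans ?_
    rw [hB4]
    push_cast
    have hp2 : (0:ℝ) ≤ (2:ℝ)^(J-j) * ((2:ℝ)^j)^3 := by positivity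
    nlinarith [hp2]
  have h7 : Real.sqrt (((2^(J-j) : ℕ):ℝ) * E (fun ω => (yy (2^j) ω)^4)) ≤ B^2 := by
    rw [show B^2 = Real.sqrt (B^4) by
      rw [show B^4 = (B^2)^2 by ring, Real.sqrt_sq (by positivity)]]
    exact Real.sqrt_le_sqrt h5
  refine h0.trans ?_
  rw [show B = Real.sqrt (B^2) by rw [Real.sqrt_sq hB0]]
  exact Real.sqrt_le_sqrt (h2.trans h7)

theorem chain_step (J k s : ℕ) (hk : k < J) (hs : s < 2^J) (ω : Om) :
    |yy (2^k * (s / 2^k)) ω - yy (2^(k+1) * (s / 2^(k+1))) ω| ≤ Mn J k ω := by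
  have h1 : s / 2^(k+1) = s / 2^k / 2 := by rw [pow_succ, Nat.div_div_eq_div_mul]
  have h2 : s / 2^k < 2^(J-k) := by
    rw [Nat.div_lt_iff_lt_mul (by positivity), ← pow_add]
    have : J - k + k = J := by omega
    rwa [this]
  obtain ⟨q, hq⟩ : ∃ q, q = s / 2^k := ⟨_, rfl⟩
  rw [h1, ← hq]
  rw [← hq] at h2
  rcases Nat.even_or_odd' q with ⟨c, hc | hc⟩
  · have e : 2^(k+1) * (q / 2) = 2^k * q := by
      rw [hc, Nat.mul_div_cancel_left c (by norm_num)]; ring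
    rw [e, sub_self, abs_zero]
    exact Mn_nonneg J k ω
  · have e1 : q / 2 = c := by omega
    have e2 : 2^k * q = (2*c+1) * 2^k := by rw [hc]; ring
    have e3 : 2^(k+1) * (q / 2) = (2*c) * 2^k := by rw [e1]; ring
    rw [e2, e3]
    exact Dl_le_Mn J k (2*c) (by omega) ω

theorem chain_y (J s : ℕ) (hs : s < 2^J) (ω : Om) : |yy s ω| ≤ ∑ k ∈ range J, Mn J k ω := by
  have h : ∀ m, m ≤ J → |yy s ω - yy (2^m * (s / 2^m)) ω| ≤ ∑ k ∈ range m, Mn J k ω := by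
    intro m
    induction m with
    | zero => intro _; simp
    | succ m ih =>
      intro hm
      rw [Finset.sum_range_succ]
      have h1 := ih (by omega)
      have h2 := chain_step J m s (by omega) hs ω
      have e : yy s ω - yy (2^(m+1) * (s / 2^(m+1))) ω =
        (yy s ω - yy (2^m * (s / 2^m)) ω) +
        (yy (2^m * (s / 2^m)) ω - yy (2^(m+1) * (s / 2^(m+1))) ω) := by ring
      rw [e]
      exact (abs_add_le _ _).trans (add_le_add h1 h2)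
  have h1 := h J le_rfl
  rw [Nat.div_eq_of_lt hs, mul_zero] at h1
  have h0 : yy 0 ω = 0 := by simp [yy, X]
  rwa [h0, sub_zero] at h1

theorem card_R_le (J : ℕ) (ω : Om) :
    ((R (2^J) ω).card : ℝ) ≤ 1 + 2 * ∑ k ∈ range J, Mn J k ω := by
  obtain ⟨B, hB⟩ : ∃ B : ℝ, B = ∑ k ∈ range J, Mn J k ω := ⟨_, rfl⟩
  have hB0 : 0 ≤ B := by rw [hB]; exact Finset.sum_nonneg fun k _ => Mn_nonneg J k ω
  rw [← hB]
  have hsub : R (2^J) ω ⊆ Finset.Icc (-⌊B⌋) ⌊B⌋ := by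
    intro z hz
    unfold R at hz
    rw [Finset.mem_image] at hz
    obtain ⟨s, hs, rfl⟩ := hz
    have hs' : s < 2^J := Finset.mem_range.1 (Finset.mem_filter.1 hs).1
    have h1 := chain_y J s hs' ω
    rw [← hB] at h1
    unfold yy at h1
    rw [abs_le] at h1
    rw [Finset.mem_Icc]
    constructor
    · rw [neg_le]
      apply Int.le_floor.2
      push_cast
      linarith [h1.1]
    · apply Int.le_floor.2
      exact h1.2
  have h2 := Finset.card_le_card hsub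
  rw [Int.card_Icc] at h2
  have hfl : 0 ≤ ⌊B⌋ := Int.floor_nonneg.2 hB0
  have h3 : ((R (2^J) ω).card : ℤ) ≤ 2 * ⌊B⌋ + 1 := by omega
  have h4 : ((R (2^J) ω).card : ℝ) ≤ 2 * (⌊B⌋ : ℝ) + 1 := by exact_mod_cast h3
  have h5 := Int.floor_le B
  linarith

/-- chaining with second and fourth moments -/
theorem chain4 (J : ℕ) : E (fun ω => ((R (2^J) ω).card : ℝ))
    ≤ 1 + 2 * ∑ j ∈ range (J+1), min (Real.sqrt ((2:ℝ)^(J-j) * ay (2^j)))
        (18 * (2:ℝ)^((J:ℝ)/4) * (2:ℝ)^((j:ℝ)/2)) := by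
  have hLs : Loc (fun ω => ∑ k ∈ range J, Mn J k ω) := Loc_sum _ _ fun k _ => Loc_Mn J k
  have h1 : E (fun ω => ((R (2^J) ω).card : ℝ)) ≤ E (fun ω => 1 + 2 * ∑ k ∈ range J, Mn J k ω) :=
    E_mono (Loc_card _) (Loc_add (Loc_const 1) (Loc_comp (fun x => 2 * x) hLs))
      fun ω => card_R_le J ω
  rw [E_add (Loc_const 1) (Loc_comp (fun x => 2 * x) hLs), E_const, E_cmul,
    E_sum _ _ fun k _ => Loc_Mn J k] at h1
  refine h1.trans ?_
  have h2 : ∑ j ∈ range J, E (Mn J j) ≤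
      ∑ j ∈ range (J+1), min (Real.sqrt ((2:ℝ)^(J-j) * ay (2^j)))
        (18 * (2:ℝ)^((J:ℝ)/4) * (2:ℝ)^((j:ℝ)/2)) := by
    rw [Finset.sum_range_succ]
    have h3 : ∑ j ∈ range J, E (Mn J j) ≤
        ∑ j ∈ range J, min (Real.sqrt ((2:ℝ)^(J-j) * ay (2^j)))
          (18 * (2:ℝ)^((J:ℝ)/4) * (2:ℝ)^((j:ℝ)/2)) := by
      refine Finset.sum_le_sum fun j hj => ?_
      have hj' : j < J := Finset.mem_range.1 hj
      refine le_min ?_ ?_
      · exact (E_mono (Loc_Mn J j) (Loc_Q2 J j) fun ω => min_le_left _ _).trans (E_Q2 J j)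
      · exact (E_mono (Loc_Mn J j) (Loc_Q4 J j) fun ω => min_le_right _ _).trans
          (E_Q4 J j hj'.le)
    have h4 : 0 ≤ min (Real.sqrt ((2:ℝ)^(J-J) * ay (2^J)))
        (18 * (2:ℝ)^((J:ℝ)/4) * (2:ℝ)^((J:ℝ)/2)) := le_min (Real.sqrt_nonneg _) (by positivity)
    linarith
  linarith

end MV
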