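import Mathlib

set_option autoImplicit false
set_option linter.unusedSectionVars false

open Finset MeasureTheory

noncomputable section

namespace MV

/-- index set: coins, row signs, column signs -/
abbrev Ix := ℕ ⊕ (ℤ ⊕ ℤ)
abbrev Om := Ix → Bool

/-- all coins and signs independent and fair -/
def P : Measure Om := Measure.infinitePi (fun _ : Ix => (PMF.uniformOfFintype Bool).toMeasure)

/-- the walk -/
def X (t : ℕ) (ω : Om) : ℤ × ℤ :=
  Nat.rec (motive := fun _ => ℤ × ℤ) ((0 : ℤ), (0 : ℤ))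
    (fun n x =>
      if ω (Sum.inl n) = true then
        (x.1 + (if ω (Sum.inr (Sum.inl x.2)) = true then (1 : ℤ) else -1), x.2)
      else
        (x.1, x.2 + (if ω (Sum.inr (Sum.inr x.1)) = true then (1 : ℤ) else -1)))
    t

/-- row and column signs -/
def rs (ω : Om) (z : ℤ) : ℤ := if ω (Sum.inr (Sum.inl z)) = true then 1 else -1
def cs (ω : Om) (z : ℤ) : ℤ := if ω (Sum.inr (Sum.inr z)) = true then 1 else -1

/-- expectation -/
def E (F : Om → ℝ) : ℝ := ∫ ω, F ω ∂P

/-- mean squared displacement -/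
def V (t : ℕ) : ℝ := E (fun ω => ((X t ω).1 : ℝ)^2 + ((X t ω).2 : ℝ)^2)
def ax (t : ℕ) : ℝ := E (fun ω => ((X t ω).1 : ℝ)^2)
def ay (t : ℕ) : ℝ := E (fun ω => ((X t ω).2 : ℝ)^2)

/-- rows on which a horizontal step was made before time `t` -/
def R (t : ℕ) (ω : Om) : Finset ℤ :=
  ((range t).filter (fun s => ω (Sum.inl s) = true)).image (fun s => (X s ω).2)

/-- score of the row bias -/
def Phi (t : ℕ) (ω : Om) : ℝ := ∑ z ∈ R t ω, (rs ω z : ℝ)

/-- coins and environment seen after one step -/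
def Th (ω : Om) : Om := fun i => match i with
  | Sum.inl n => ω (Sum.inl (n+1))
  | Sum.inr (Sum.inl z) => ω (Sum.inr (Sum.inl (z + (X 1 ω).2)))
  | Sum.inr (Sum.inr z) => ω (Sum.inr (Sum.inr (z + (X 1 ω).1)))

/-- flip one coordinate -/
def fl (i : Ix) (ω : Om) : Om := Function.update ω i (!ω i)

/-- the two points agree on the coins before `t` and on rows and columns in `[-t,t]` -/
def Ag (t : ℕ) (ω ω' : Om) : Prop :=
  (∀ n, n < t → ω (Sum.inl n) = ω' (Sum.inl n)) ∧
  (∀ z : ℤ, |z| ≤ (t:ℤ) → ω (Sum.inr (Sum.inl z)) = ω' (Sum.inr (Sum.inl z))) ∧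
  (∀ z : ℤ, |z| ≤ (t:ℤ) → ω (Sum.inr (Sum.inr z)) = ω' (Sum.inr (Sum.inr z)))

/-- `F` depends only on finitely many coordinates -/
def Loc (F : Om → ℝ) : Prop := ∃ t : ℕ, ∀ ω ω', Ag t ω ω' → F ω = F ω'

end MV
-- ==== END DEFS ====
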