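import Pool.Agent.Helper870.MV.Defs
import Pool.Agent.Helper870.MV.A1
import Pool.Agent.Helper870.MV.A3
import Pool.Agent.Helper870.MV.A6
import Pool.Agent.Helper870.MV.A9
import Pool.Agent.Helper870.MV.B3s

set_option autoImplicit false
set_option linter.unusedSectionVars false

open Finset MeasureTheory

noncomputable section

-- USES: A1 A3 A6 A9 B3s
namespace MV

theorem fin2_g1 (q : ℝ) (hq : 1.1 ≤ q) (n : ℕ) : ∑ j ∈ range n, q ^ j ≤ 10 * q ^ n := by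
  induction n with
  | zero => norm_num
  | succ n ih =>
    rw [Finset.sum_range_succ, pow_succ]
    have h0 : (0:ℝ) ≤ q ^ n := pow_nonneg (by linarith) n
    nlinarith

theorem fin2_g2 (q K : ℝ) (hq : 1.1 ≤ q) (hK : 0 ≤ K) (n : ℕ) :
    ∑ j ∈ range n, (if q ^ j < K then q ^ j else 0) ≤ 10 * q ^ n ∧
    ∑ j ∈ range n, (if q ^ j < K then q ^ j else 0) ≤ 10 * (q * K) := by
  induction n with
  | zero =>
    refine ⟨by norm_num, ?_⟩
    simp only [Finset.range_zero, Finset.sum_empty]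
    have : 0 ≤ q * K := mul_nonneg (by linarith) hK
    linarith
  | succ n ih =>
    have h0 : (0:ℝ) ≤ q ^ n := pow_nonneg (by linarith) n
    rw [Finset.sum_range_succ]
    obtain ⟨ih1, ih2⟩ := ih
    split_ifs with h
    · have h1 : ∑ j ∈ range n, (if q ^ j < K then q ^ j else 0) + q ^ n ≤ 10 * q ^ (n+1) := by
        rw [pow_succ]; nlinarith
      refine ⟨h1, h1.trans ?_⟩
      rw [pow_succ]
      have : q ^ n * q ≤ K * q := mul_le_mul_of_nonneg_right h.le (by linarith)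
      linarith
    · rw [add_zero]
      refine ⟨ih1.trans ?_, ih2⟩
      rw [pow_succ]
      nlinarith

theorem fin2 : ∃ c : ℝ, 0 < c ∧ ∀ T : ℕ, 1 ≤ T → ∃ t : ℕ, 1 ≤ t ∧ t ≤ T ∧ c * (T:ℝ)^(2/3:ℝ) ≤ (t:ℝ) ∧
    c * (t:ℝ)^(4/3:ℝ) ≤ V t := by
  by_contra hcon
  push Not at hcon
  obtain ⟨T, hT1, hT⟩ := hcon (1/10^12) (by norm_num)
  -- the base
  obtain ⟨r, hrdef⟩ : ∃ r : ℝ, r = (2:ℝ)^(1/12:ℝ) := ⟨_, rfl⟩
  have hr12 : r ^ 12 = 2 := by
    rw [hrdef, ← Real.rpow_natCast, ← Real.rpow_mul (by norm_num)]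
    norm_num
  have hr1 : 1 < r := by
    rw [hrdef]; exact Real.one_lt_rpow (by norm_num) (by norm_num)
  have hr0 : 0 < r := by linarith
  have hr2 : 1.1 ≤ r ^ 2 := by
    by_contra h
    push Not at h
    have h1 : (r ^ 2) ^ 6 < (1.1 : ℝ) ^ 6 := pow_lt_pow_left₀ h (by positivity) (by norm_num)
    rw [← pow_mul] at h1
    norm_num at h1
    rw [hr12] at h1
    norm_num at h1
  have hr3 : 1.1 ≤ r ^ 3 := by
    have : r ^ 2 ≤ r ^ 3 := pow_le_pow_right₀ hr1.le (by norm_num)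
    linarith
  have hr2' : r ^ 2 ≤ 2 := by
    rw [← hr12]; exact pow_le_pow_right₀ hr1.le (by norm_num)
  have hr5' : r ^ 5 ≤ 2 := by
    rw [← hr12]; exact pow_le_pow_right₀ hr1.le (by norm_num)
  have hr8' : r ^ 8 ≤ 2 := by
    rw [← hr12]; exact pow_le_pow_right₀ hr1.le (by norm_num)
  have hpow2 : ∀ j : ℕ, (2:ℝ) ^ j = r ^ (12 * j) := by
    intro j; rw [pow_mul, hr12]
  have h43 : ∀ j : ℕ, (((2 ^ j : ℕ)) : ℝ)^(4/3:ℝ) = r ^ (16 * j) := by
    intro j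
    rw [hrdef, ← Real.rpow_natCast, ← Real.rpow_mul (by norm_num)]
    push_cast
    rw [← Real.rpow_natCast, ← Real.rpow_mul (by norm_num)]
    congr 1
    push_cast
    ring
  have h32 : ∀ j : ℕ, (((2 ^ j : ℕ)) : ℝ)^(3/2:ℝ) = r ^ (18 * j) := by
    intro j
    rw [hrdef, ← Real.rpow_natCast, ← Real.rpow_mul (by norm_num)]
    push_cast
    rw [← Real.rpow_natCast, ← Real.rpow_mul (by norm_num)]
    congr 1
    push_cast
    ring
  have h23 : ∀ j : ℕ, (((2 ^ j : ℕ)) : ℝ)^(2/3:ℝ) = r ^ (8 * j) := by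
    intro j
    rw [hrdef, ← Real.rpow_natCast, ← Real.rpow_mul (by norm_num)]
    push_cast
    rw [← Real.rpow_natCast, ← Real.rpow_mul (by norm_num)]
    congr 1
    push_cast
    ring
  obtain ⟨J, hJ1, hJ2⟩ : ∃ J : ℕ, 2 ^ J ≤ T ∧ T < 2 ^ (J + 1) :=
    ⟨Nat.log 2 T, Nat.pow_log_le_self 2 (by omega), Nat.lt_pow_succ_log_self (by norm_num) T⟩
  have hTup : (T:ℝ)^(2/3:ℝ) ≤ r ^ (8 * (J + 1)) := by
    rw [← h23]
    exact Real.rpow_le_rpow (Nat.cast_nonneg _) (by exact_mod_cast hJ2.le) (by norm_num)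
  have hay0 : ∀ t : ℕ, 0 ≤ ay t := by
    intro t
    have h1 := (V_triv t).1
    rw [V_ay] at h1
    linarith
  -- case A
  have hA : ∀ j : ℕ, j ≤ J → (1/10^12 : ℝ) * (T:ℝ)^(2/3:ℝ) ≤ (((2 ^ j : ℕ)) : ℝ) →
      ay (2 ^ j) ≤ (1/10^12 : ℝ) * r ^ (16 * j) / 2 := by
    intro j hj hc
    have h1 := hT (2 ^ j) (Nat.one_le_two_pow) ((Nat.pow_le_pow_right (by norm_num) hj).trans hJ1) hc
    rw [h43, V_ay] at h1
    linarith
  have hterm : ∀ j ∈ range (J+1), Real.sqrt ((2:ℝ)^(J-j) * ay (2^j)) ≤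
      (1/10^6 : ℝ) * r ^ (6 * J) * (r ^ 2) ^ j +
        8 * r ^ (6 * J) * (if (r ^ 3) ^ j < (1/10^3 : ℝ) * r ^ (2 * J + 2) then (r ^ 3) ^ j else 0) := by
    intro j hj
    have hjJ : j ≤ J := by have := mem_range.1 hj; omega
    by_cases hc : (1/10^12 : ℝ) * (T:ℝ)^(2/3:ℝ) ≤ (((2 ^ j : ℕ)) : ℝ)
    · have h1 : Real.sqrt ((2:ℝ)^(J-j) * ay (2^j)) ≤ (1/10^6 : ℝ) * r ^ (6 * J) * (r ^ 2) ^ j := by
        rw [Real.sqrt_le_iff]
        refine ⟨by positivity, ?_⟩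
        calc (2:ℝ)^(J-j) * ay (2^j) ≤ (2:ℝ)^(J-j) * ((1/10^12 : ℝ) * r ^ (16 * j) / 2) :=
              mul_le_mul_of_nonneg_left (hA j hjJ hc) (by positivity)
          _ = (1/10^12 : ℝ) / 2 * (r ^ (12 * (J - j)) * r ^ (16 * j)) := by rw [hpow2]; ring
          _ = (1/10^12 : ℝ) / 2 * r ^ (12 * J + 4 * j) := by
              rw [← pow_add]; congr 2; omega
          _ ≤ (1/10^12 : ℝ) * r ^ (12 * J + 4 * j) := by
              have : 0 ≤ r ^ (12 * J + 4 * j) := by positivity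
              linarith
          _ = ((1/10^6 : ℝ) * r ^ (6 * J) * (r ^ 2) ^ j) ^ 2 := by
              rw [← pow_mul, mul_pow, mul_pow, ← pow_mul, ← pow_mul, mul_assoc, ← pow_add]
              congr 1
              · norm_num
              · congr 1; ring
      refine h1.trans ?_
      have h2 : 0 ≤ 8 * r ^ (6 * J) * (if (r ^ 3) ^ j < (1/10^3 : ℝ) * r ^ (2 * J + 2) then (r ^ 3) ^ j else 0) := by
        apply mul_nonneg (by positivity)
        split_ifs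
        · positivity
        · exact le_refl _
      linarith
    · push Not at hc
      have h3 : (r ^ 3) ^ j < (1/10^3 : ℝ) * r ^ (2 * J + 2) := by
        refine lt_of_pow_lt_pow_left₀ 4 (by positivity) ?_
        calc ((r ^ 3) ^ j) ^ 4 = (((2 ^ j : ℕ)) : ℝ) := by
              push_cast
              rw [hpow2, ← pow_mul, ← pow_mul]; congr 1; ring
          _ < (1/10^12 : ℝ) * (T:ℝ)^(2/3:ℝ) := hc
          _ ≤ (1/10^12 : ℝ) * r ^ (8 * (J + 1)) := mul_le_mul_of_nonneg_left hTup (by norm_num)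
          _ = ((1/10^3 : ℝ) * r ^ (2 * J + 2)) ^ 4 := by
              rw [mul_pow, ← pow_mul]
              congr 1
              · norm_num
              · congr 1; ring
      rw [if_pos h3]
      have h1 : Real.sqrt ((2:ℝ)^(J-j) * ay (2^j)) ≤ 8 * r ^ (6 * J) * (r ^ 3) ^ j := by
        rw [Real.sqrt_le_iff]
        refine ⟨by positivity, ?_⟩
        have h4 := ay_upper (2 ^ j) Nat.one_le_two_pow
        rw [h32] at h4
        calc (2:ℝ)^(J-j) * ay (2^j) ≤ (2:ℝ)^(J-j) * (52 * r ^ (18 * j)) :=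
              mul_le_mul_of_nonneg_left h4 (by positivity)
          _ = 52 * (r ^ (12 * (J - j)) * r ^ (18 * j)) := by rw [hpow2]; ring
          _ = 52 * r ^ (12 * J + 6 * j) := by
              rw [← pow_add]; congr 2; omega
          _ ≤ 64 * r ^ (12 * J + 6 * j) := by
              have : 0 ≤ r ^ (12 * J + 6 * j) := by positivity
              linarith
          _ = (8 * r ^ (6 * J) * (r ^ 3) ^ j) ^ 2 := by
              rw [← pow_mul, mul_pow, mul_pow, ← pow_mul, ← pow_mul, mul_assoc, ← pow_add]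
              congr 1
              · norm_num
              · congr 1; ring
      refine h1.trans ?_
      have h2 : 0 ≤ (1/10^6 : ℝ) * r ^ (6 * J) * (r ^ 2) ^ j := by positivity
      linarith
  -- the sum
  have hsum : ∑ j ∈ range (J+1), Real.sqrt ((2:ℝ)^(J-j) * ay (2^j)) ≤ (1/5 : ℝ) * r ^ (8 * J) := by
    refine (Finset.sum_le_sum hterm).trans ?_
    rw [Finset.sum_add_distrib, ← Finset.mul_sum, ← Finset.mul_sum]
    have g1 := fin2_g1 (r ^ 2) hr2 (J + 1)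
    have g2 := (fin2_g2 (r ^ 3) ((1/10^3 : ℝ) * r ^ (2 * J + 2)) hr3 (by positivity) (J + 1)).2
    have hp6 : 0 ≤ r ^ (6 * J) := by positivity
    have e1 : (1/10^6 : ℝ) * r ^ (6 * J) * ∑ j ∈ range (J+1), (r ^ 2) ^ j ≤
        (1/10^5 : ℝ) * (r ^ (8 * J) * r ^ 2) := by
      calc (1/10^6 : ℝ) * r ^ (6 * J) * ∑ j ∈ range (J+1), (r ^ 2) ^ j
          ≤ (1/10^6 : ℝ) * r ^ (6 * J) * (10 * (r ^ 2) ^ (J + 1)) :=
            mul_le_mul_of_nonneg_left g1 (by positivity)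
        _ = (1/10^5 : ℝ) * (r ^ (6 * J) * r ^ (2 * (J + 1))) := by rw [← pow_mul]; ring
        _ = (1/10^5 : ℝ) * (r ^ (8 * J) * r ^ 2) := by
            rw [← pow_add, ← pow_add]; congr 2; ring
    have e2 : 8 * r ^ (6 * J) * ∑ j ∈ range (J+1), (if (r ^ 3) ^ j < (1/10^3 : ℝ) * r ^ (2 * J + 2) then (r ^ 3) ^ j else 0) ≤
        (8/10^2 : ℝ) * (r ^ (8 * J) * r ^ 5) := by
      calc 8 * r ^ (6 * J) * ∑ j ∈ range (J+1), (if (r ^ 3) ^ j < (1/10^3 : ℝ) * r ^ (2 * J + 2) then (r ^ 3) ^ j else 0)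
          ≤ 8 * r ^ (6 * J) * (10 * (r ^ 3 * ((1/10^3 : ℝ) * r ^ (2 * J + 2)))) :=
            mul_le_mul_of_nonneg_left g2 (by positivity)
        _ = (8/10^2 : ℝ) * (r ^ (6 * J) * r ^ 3 * r ^ (2 * J + 2)) := by ring
        _ = (8/10^2 : ℝ) * (r ^ (8 * J) * r ^ 5) := by
            rw [← pow_add, ← pow_add, ← pow_add]; congr 2; ring
    have hp8 : 0 ≤ r ^ (8 * J) := by positivity
    have e3 : r ^ (8 * J) * r ^ 2 ≤ r ^ (8 * J) * 2 := mul_le_mul_of_nonneg_left hr2' hp8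
    have e4 : r ^ (8 * J) * r ^ 5 ≤ r ^ (8 * J) * 2 := mul_le_mul_of_nonneg_left hr5' hp8
    nlinarith
  have hrho := chain J
  have hp8 : 1 ≤ r ^ (8 * J) := one_le_pow₀ hr1.le
  have hrho2 : E (fun ω => ((R (2^J) ω).card : ℝ)) ≤ 2 * r ^ (8 * J) := by linarith
  have hcJ : (1/10^12 : ℝ) * (T:ℝ)^(2/3:ℝ) ≤ (((2 ^ J : ℕ)) : ℝ) := by
    push_cast
    rw [hpow2]
    have h1 : r ^ (8 * (J + 1)) = r ^ (8 * J) * r ^ 8 := by rw [← pow_add]; congr 1
    have h2 : r ^ (8 * J) ≤ r ^ (12 * J) := pow_le_pow_right₀ hr1.le (by omega)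
    have h3 : r ^ (8 * J) * r ^ 8 ≤ r ^ (8 * J) * 2 := mul_le_mul_of_nonneg_left hr8' (by linarith)
    rw [h1] at hTup
    have h4 : (1/10^12 : ℝ) * (T:ℝ)^(2/3:ℝ) ≤ (1/10^12 : ℝ) * (r ^ (8 * J) * 2) :=
      mul_le_mul_of_nonneg_left (hTup.trans h3) (by norm_num)
    have h5 : (1/10^12 : ℝ) * (r ^ (8 * J) * 2) ≤ r ^ (8 * J) := by nlinarith
    linarith
  have hayJ := hA J le_rfl hcJ
  have hmain := main_ineq (2 ^ J)
  rw [ax_ay] at hmain
  have hm1 : ay (2^J) * E (fun ω => ((R (2^J) ω).card : ℝ)) ≤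
      ((1/10^12 : ℝ) * r ^ (16 * J) / 2) * (2 * r ^ (8 * J)) :=
    (mul_le_mul_of_nonneg_left hrho2 (hay0 _)).trans
      (mul_le_mul_of_nonneg_right hayJ (by positivity))
  have hm2 : ((1/10^12 : ℝ) * r ^ (16 * J) / 2) * (2 * r ^ (8 * J)) = (1/10^12 : ℝ) * r ^ (24 * J) := by
    have : r ^ (24 * J) = r ^ (16 * J) * r ^ (8 * J) := by rw [← pow_add]; congr 1; ring
    rw [this]; ring
  have hm3 : (((2 ^ J : ℕ)) : ℝ) ^ 2 = r ^ (24 * J) := by
    push_cast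
    rw [hpow2, ← pow_mul]; congr 1; ring
  rw [hm3] at hmain
  rw [hm2] at hm1
  have hp24 : 0 < r ^ (24 * J) := by positivity
  linarith

end MV
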