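import Pool.Agent.Helper870.MV.Defs
import Pool.Agent.Helper870.MV.A1
import Pool.Agent.Helper870.MV.A3
import Pool.Agent.Helper870.MV.A6
import Pool.Agent.Helper870.MV.A9
import Pool.Agent.Helper870.MV.B3s

set_option autoImplicit false
set_option linter.unusedSectionVars false

open Finset MeasureTheory

noncomputable section

-- USES: A1 A3 A6 A9 B3s
namespace MV

theorem fin3_term (q s a : ℝ) (hq : 1 < q) (hs : s = q^2) (h4 : q^4 = 2) (ha : 0 < a) (J j : ℕ) (hj : j ≤ J) (v : ℝ)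
    (hv0 : 0 ≤ v) (hv1 : v ≤ 4 * a^6) (hv2 : v ≤ 52 * (q^j)^6) :
    Real.sqrt ((2:ℝ)^(J-j) * v) ≤ 8 * s^J * a * (4 * (q^j/a) / (1 + q^j/a)^2) := by
  have hq0 : 0 < q := by linarith
  have hqj : 0 < q^j := by positivity
  have hs0 : 0 < s := by rw [hs]; positivity
  have hx : 0 < q^j/a := by positivity
  obtain ⟨x, hxd⟩ : ∃ x, x = q^j/a := ⟨_, rfl⟩
  rw [← hxd] at hx ⊢
  have hqx : q^j = a * x := by rw [hxd]; field_simp
  have hpow : (2:ℝ)^(J-j) * (q^j)^4 = (s^J)^2 := by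
    have e1 : (q^j)^4 = 2^j := by rw [← pow_mul, mul_comm, pow_mul, h4]
    have e2 : (s^J)^2 = 2^J := by rw [hs, ← pow_mul, ← pow_mul, ← h4, ← pow_mul]; congr 1; ring
    rw [e1, e2, ← pow_add]; congr 1; omega
  have hsJ : 0 < s^J := by positivity
  have h2p : (0:ℝ) < (2:ℝ)^(J-j) := by positivity
  have hp : (2:ℝ)^(J-j) = (s^J)^2 / (a*x)^4 := by
    rw [← hpow, hqx]; field_simp
  rcases le_or_gt x 1 with h | h
  · have hb : Real.sqrt ((2:ℝ)^(J-j) * v) ≤ 8 * s^J * a * x := by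
      apply Real.sqrt_le_iff.mpr
      refine ⟨by positivity, ?_⟩
      calc (2:ℝ)^(J-j) * v ≤ (2:ℝ)^(J-j) * (52 * (q^j)^6) := by gcongr
        _ = 52 * (s^J)^2 * (a*x)^2 := by rw [hp, hqx]; field_simp
        _ ≤ (8 * s^J * a * x)^2 := by nlinarith [sq_nonneg (s^J * (a*x))]
    refine le_trans hb ?_
    have : x ≤ 4 * x / (1+x)^2 := by
      rw [le_div_iff₀ (by positivity)]
      have h2 : (1+x)^2 ≤ 4 := by nlinarith
      nlinarith
    exact mul_le_mul_of_nonneg_left this (by positivity)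
  · have hb : Real.sqrt ((2:ℝ)^(J-j) * v) ≤ 2 * s^J * a / x^2 := by
      apply Real.sqrt_le_iff.mpr
      refine ⟨by positivity, ?_⟩
      calc (2:ℝ)^(J-j) * v ≤ (2:ℝ)^(J-j) * (4 * a^6) := by gcongr
        _ = (2 * s^J * a / x^2)^2 := by rw [hp]; field_simp; ring
    refine le_trans hb ?_
    have : 1 / x^2 ≤ 4 * x / (1+x)^2 := by
      rw [div_le_div_iff₀ (by positivity) (by positivity)]
      have h3 : x^2 ≤ x^3 := by nlinarith [mul_pos hx hx]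
      nlinarith [mul_pos hx hx]
    calc 2 * s^J * a / x^2 = 2 * s^J * a * (1/x^2) := by ring
      _ ≤ 8 * s^J * a * (1/x^2) := by
          have : 0 ≤ s^J * a * (1/x^2) := by positivity
          nlinarith
      _ ≤ 8 * s^J * a * (4 * x / (1+x)^2) := by gcongr

theorem fin3_sum (q a : ℝ) (hq : 1 < q) (ha : 0 < a) (J : ℕ) :
    ∑ j ∈ range J, (4 * (q^j/a) / (1 + q^j/a)^2) ≤ 4 * q/(q-1) := by
  have hq0 : 0 < q := by linarith
  have hq1 : 0 < q - 1 := by linarith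
  have key : ∀ J : ℕ, ∑ j ∈ range J, (4 * (q^j/a) / (1 + q^j/a)^2) ≤ 4 * q/(q-1) * ((q^J/a)/(1+q^J/a)) := by
    intro J
    induction J with
    | zero => simp only [range_zero, sum_empty]; positivity
    | succ J ih =>
      rw [sum_range_succ]
      have hx : 0 < q^J/a := by positivity
      obtain ⟨x, hxd⟩ : ∃ x, x = q^J/a := ⟨_, rfl⟩
      have e : q^(J+1)/a = q * x := by rw [hxd, pow_succ]; ring
      rw [e]
      rw [← hxd] at ih hx ⊢
      have h1 : 4 * x/(1+x)^2 ≤ 4 * q/(q-1) * ((q*x)/(1+q*x)) - 4 * q/(q-1) * (x/(1+x)) := by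
        have e2 : 4 * q/(q-1) * ((q*x)/(1+q*x)) - 4 * q/(q-1) * (x/(1+x)) = 4 * q * x / ((1+x)*(1+q*x)) := by
          have : (1 + q*x) ≠ 0 := by positivity
          have : (1 + x) ≠ 0 := by positivity
          have : q - 1 ≠ 0 := by linarith
          field_simp
          ring
        rw [e2, div_le_div_iff₀ (by positivity) (by positivity)]
        have : 0 ≤ 4 * x * (1+x) * (q-1) := by positivity
        nlinarith
      linarith
  refine le_trans (key J) ?_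
  have hx : 0 < q^J/a := by positivity
  have : (q^J/a)/(1+q^J/a) ≤ 1 := by rw [div_le_one (by positivity)]; linarith
  have h2 : 0 ≤ 4 * q/(q-1) := by positivity
  calc 4 * q/(q-1) * ((q^J/a)/(1+q^J/a)) ≤ 4 * q/(q-1) * 1 := by gcongr
    _ = _ := by ring

theorem fin3_step1 (V : ℕ → ℝ) (h0 : ∀ t, 0 ≤ V t)
    (havg : ∀ t:ℕ, (t:ℝ) * V t ≤ 4 * ∑ s ∈ Icc 1 t, V s)
    (hrev : ∀ s u, V s ≤ 2 * V (s+u) + 2 * V u) (T s : ℕ) (hs : 1 ≤ s) (hsT : s ≤ T) :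
    V s ≤ 8 * ((∑ t ∈ Icc 1 T, V t) / (T:ℝ)) := by
  have hT : (0:ℝ) < T := by exact_mod_cast (by omega : 0 < T)
  rw [← mul_div_assoc, le_div_iff₀ hT]
  obtain ⟨S, hS⟩ : ∃ S, S = ∑ t ∈ Icc 1 T, V t := ⟨_, rfl⟩
  rw [← hS]
  by_cases h : T ≤ 2 * s
  · have h1 := havg s
    have h2 : ∑ u ∈ Icc 1 s, V u ≤ S := by
      rw [hS]
      apply sum_le_sum_of_subset_of_nonneg
      · intro x hx; rw [mem_Icc] at hx ⊢; omega
      · intro i _ _; exact h0 i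
    have h3 : (T:ℝ) ≤ 2 * s := by exact_mod_cast h
    have := mul_le_mul_of_nonneg_right h3 (h0 s)
    nlinarith
  · push Not at h
    have h1 : ∑ u ∈ Icc 1 (T - s), V s ≤ ∑ u ∈ Icc 1 (T-s), (2 * V (s+u) + 2 * V u) :=
      sum_le_sum (fun u _ => hrev s u)
    rw [sum_const, Nat.card_Icc, sum_add_distrib, ← mul_sum, ← mul_sum, nsmul_eq_mul] at h1
    have h2 : ∑ u ∈ Icc 1 (T-s), V u ≤ S := by
      rw [hS]
      apply sum_le_sum_of_subset_of_nonneg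
      · intro x hx; rw [mem_Icc] at hx ⊢; omega
      · intro i _ _; exact h0 i
    have h3 : ∑ u ∈ Icc 1 (T-s), V (s+u) ≤ S := by
      rw [hS]
      have : ∑ u ∈ Icc 1 (T-s), V (s+u) = ∑ u ∈ (Icc 1 (T-s)).image (fun u => s + u), V u := by
        rw [sum_image]
        intro x _ y _ hxy
        simpa using hxy
      rw [this]
      apply sum_le_sum_of_subset_of_nonneg
      · intro x hx
        rw [mem_image] at hx
        obtain ⟨u, hu, rfl⟩ := hx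
        rw [mem_Icc] at hu ⊢; omega
      · intro i _ _; exact h0 i
    have h4 : (T:ℝ) ≤ 2 * ((T - s + 1 - 1 : ℕ) : ℝ) := by
      have : T ≤ 2 * (T - s + 1 - 1) := by omega
      exact_mod_cast this
    have := mul_le_mul_of_nonneg_right h4 (h0 s)
    nlinarith

theorem fin3_abs (V : ℕ → ℝ) (ρ : ℕ → ℝ) (h0 : ∀ t, 0 ≤ V t) (h1 : V 1 = 1)
    (havg : ∀ t:ℕ, (t:ℝ) * V t ≤ 4 * ∑ s ∈ Icc 1 t, V s)
    (hrev : ∀ s u, V s ≤ 2 * V (s+u) + 2 * V u)
    (hup : ∀ t:ℕ, 1 ≤ t → V t / 2 ≤ 52 * (t:ℝ)^(3/2:ℝ))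
    (hch : ∀ J : ℕ, ρ J ≤ 1 + 2 * ∑ j ∈ range (J+1), Real.sqrt ((2:ℝ)^(J-j) * (V (2^j)/2)))
    (hm : ∀ J : ℕ, ((2:ℝ)^J)^2/4 ≤ V (2^J)/2 * ρ J) :
    ∃ c : ℝ, 0 < c ∧ ∀ T : ℕ, 1 ≤ T → c * (T:ℝ)^(9/7:ℝ) ≤ (∑ t ∈ Icc 1 T, V t) / (T:ℝ) := by
  obtain ⟨q, hqd⟩ : ∃ q : ℝ, q = (2:ℝ)^(1/4:ℝ) := ⟨_, rfl⟩
  have hq : 1 < q := by rw [hqd]; exact Real.one_lt_rpow (by norm_num) (by norm_num)
  have hq0 : 0 < q := by linarith
  have h4 : q^4 = 2 := by
    rw [hqd, ← Real.rpow_natCast, ← Real.rpow_mul (by norm_num)]; norm_num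
  have hq1 : 0 < q - 1 := by linarith
  obtain ⟨Q, hQ⟩ : ∃ Q : ℝ, Q = 16 * (4 * q/(q-1)) := ⟨_, rfl⟩
  have hQ0 : 0 < Q := by rw [hQ]; positivity
  refine ⟨1 / ((2:ℝ)^(9/7:ℝ) * (16*(Q+2))^(6/7:ℝ)), by positivity, ?_⟩
  intro T hT
  obtain ⟨A, hA⟩ : ∃ A, A = (∑ t ∈ Icc 1 T, V t) / (T:ℝ) := ⟨_, rfl⟩
  have hst : ∀ s, 1 ≤ s → s ≤ T → V s ≤ 8 * A := fun s hs hsT => by
    rw [hA]; exact fin3_step1 V h0 havg hrev T s hs hsT
  rw [← hA]
  have hA8 : 1 ≤ 8 * A := by rw [← h1]; exact hst 1 le_rfl hT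
  have hA0 : 0 < A := by linarith
  obtain ⟨a, had⟩ : ∃ a : ℝ, a = A^(1/6:ℝ) := ⟨_, rfl⟩
  have ha : 0 < a := by rw [had]; positivity
  have ha6 : a^6 = A := by
    rw [had, ← Real.rpow_natCast, ← Real.rpow_mul hA0.le]; norm_num
  have ha2 : 1 ≤ 2 * a := by
    by_contra hc
    push Not at hc
    have : a^6 < (1/2)^6 := by
      apply pow_lt_pow_left₀ (by linarith) ha.le (by norm_num)
    rw [ha6] at this
    norm_num at this
    linarith
  obtain ⟨J, hJ⟩ : ∃ J, J = Nat.log 2 T := ⟨_, rfl⟩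
  have hJ1 : 2^J ≤ T := by rw [hJ]; exact Nat.pow_log_le_self 2 (by omega)
  have hJ2 : T < 2^(J+1) := by rw [hJ]; exact Nat.lt_pow_succ_log_self (by norm_num) T
  have hterm : ∀ j ∈ range (J+1), Real.sqrt ((2:ℝ)^(J-j) * (V (2^j)/2)) ≤
      8 * (q^2)^J * a * (4 * (q^j/a) / (1 + q^j/a)^2) := by
    intro j hj
    rw [mem_range] at hj
    have hp1 : 1 ≤ 2^j := Nat.one_le_two_pow
    have hp2 : 2^j ≤ T := le_trans (Nat.pow_le_pow_right (by norm_num) (by omega)) hJ1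
    apply fin3_term q (q^2) a hq rfl h4 ha J j (by omega)
    · have := h0 (2^j); linarith
    · rw [ha6]; have := hst (2^j) hp1 hp2; linarith
    · refine le_trans (hup (2^j) hp1) ?_
      apply le_of_eq
      congr 1
      have e1 : ((2^j : ℕ) : ℝ) = (q^j)^4 := by
        rw [← pow_mul, mul_comm, pow_mul, h4]; push_cast; rfl
      have hqj : 0 < q^j := by positivity
      rw [e1, ← Real.rpow_natCast (q^j) 4, ← Real.rpow_natCast (q^j) 6, ← Real.rpow_mul hqj.le]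
      norm_num
  have hρ : ρ J ≤ (Q+2) * (q^2)^J * a := by
    have hs := sum_le_sum hterm
    rw [← mul_sum] at hs
    have hs2 := fin3_sum q a hq ha (J+1)
    have hpos : 0 < 8 * (q^2)^J * a := by positivity
    have hs3 := mul_le_mul_of_nonneg_left hs2 hpos.le
    have hsJ : 1 ≤ (q^2)^J := one_le_pow₀ (by nlinarith)
    have h5 : 1 ≤ 2 * a * (q^2)^J := by nlinarith
    have := hch J
    calc ρ J ≤ 1 + 2 * ∑ j ∈ range (J+1), Real.sqrt ((2:ℝ)^(J-j) * (V (2^j)/2)) := this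
      _ ≤ 1 + 2 * (8 * (q^2)^J * a * (4 * q/(q-1))) := by linarith
      _ ≤ 2 * a * (q^2)^J + 2 * (8 * (q^2)^J * a * (4 * q/(q-1))) := by linarith
      _ = (Q+2) * (q^2)^J * a := by rw [hQ]; ring
  obtain ⟨m, hmd⟩ : ∃ m : ℝ, m = (q^2)^J := ⟨_, rfl⟩
  rw [← hmd] at hρ
  have hm0 : 0 < m := by rw [hmd]; positivity
  have hm2 : (2:ℝ)^J = m^2 := by
    rw [hmd, ← pow_mul, ← pow_mul, ← h4, ← pow_mul]; congr 1; ring
  have hVJ : V (2^J) / 2 ≤ 4 * a^6 := by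
    rw [ha6]; have := hst (2^J) Nat.one_le_two_pow hJ1; linarith
  have hmain := hm J
  rw [hm2] at hmain
  have hmm : m^3 ≤ 16 * (Q+2) * a^7 := by
    have hρ0 : 0 ≤ (Q+2) * m * a := by positivity
    have hV0 : 0 ≤ V (2^J)/2 := by have := h0 (2^J); linarith
    have k1 : V (2^J)/2 * ρ J ≤ 4 * a^6 * ((Q+2) * m * a) :=
      le_trans (mul_le_mul_of_nonneg_left hρ hV0) (mul_le_mul_of_nonneg_right hVJ hρ0)
    have k2 : m * m^3 ≤ m * (16 * (Q+2) * a^7) := by nlinarith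
    exact le_of_mul_le_mul_left k2 hm0
  have hTm : (T:ℝ) ≤ 2 * m^2 := by
    rw [← hm2]
    have : (T:ℝ) ≤ ((2^(J+1) : ℕ) : ℝ) := by exact_mod_cast hJ2.le
    push_cast at this
    rw [pow_succ] at this
    linarith
  have e1 : ((m^2:ℝ))^(9/7:ℝ) = (m^3)^(6/7:ℝ) := by
    rw [← Real.rpow_natCast m 2, ← Real.rpow_natCast m 3, ← Real.rpow_mul hm0.le,
      ← Real.rpow_mul hm0.le]; norm_num
  have e2 : ((a^7:ℝ))^(6/7:ℝ) = a^6 := by
    rw [← Real.rpow_natCast a 7, ← Real.rpow_mul ha.le]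
    rw [← Real.rpow_natCast a 6]; norm_num
  have hfin : (T:ℝ)^(9/7:ℝ) ≤ (2:ℝ)^(9/7:ℝ) * (16*(Q+2))^(6/7:ℝ) * A := by
    calc (T:ℝ)^(9/7:ℝ) ≤ (2 * m^2)^(9/7:ℝ) := by
          apply Real.rpow_le_rpow (by positivity) hTm (by norm_num)
      _ = (2:ℝ)^(9/7:ℝ) * (m^3)^(6/7:ℝ) := by
          rw [Real.mul_rpow (by norm_num) (by positivity), e1]
      _ ≤ (2:ℝ)^(9/7:ℝ) * (16 * (Q+2) * a^7)^(6/7:ℝ) := by
          gcongr
      _ = (2:ℝ)^(9/7:ℝ) * (16*(Q+2))^(6/7:ℝ) * A := by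
          rw [Real.mul_rpow (by positivity) (by positivity), e2, ha6]; ring
  rw [div_mul_eq_mul_div, one_mul, div_le_iff₀ (by positivity)]
  linarith

end MV

namespace MV

theorem fin3 : ∃ c : ℝ, 0 < c ∧ ∀ T : ℕ, 1 ≤ T →
    c * (T:ℝ)^(9/7:ℝ) ≤ (∑ t ∈ Icc 1 T, V t) / (T:ℝ) := by
  have hay : ∀ t, ay t = V t / 2 := fun t => by rw [V_ay]; ring
  apply fin3_abs V (fun J => E (fun ω => ((R (2^J) ω).card : ℝ)))
  · intro t; exact (V_triv t).1
  · rw [V_ay, ay_one]; norm_num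
  · exact V_avg
  · exact V_rev
  · intro t ht; rw [← hay]; exact ay_upper t ht
  · intro J
    have h := chain J
    simp only [hay] at h
    exact h
  · intro J
    have h := main_ineq (2^J)
    rw [ax_ay, hay] at h
    push_cast at h
    exact h

end MV
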