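import Pool.Agent.Helper870.MV.Defs
import Pool.Agent.Helper870.MV.A1
import Pool.Agent.Helper870.MV.A3
import Pool.Agent.Helper870.MV.A6
import Pool.Agent.Helper870.MV.A9
import Pool.Agent.Helper870.MV.B3s

set_option autoImplicit false
set_option linter.unusedSectionVars false

open Finset MeasureTheory

noncomputable section

-- USES: A1 A3 A6 A9 B3s
namespace MV

private theorem fin4_geom (a : ℝ) (ha : 7 / 6 ≤ a) (J : ℕ) :
    ∑ j ∈ range (J+1), a ^ j ≤ 7 * a ^ J := by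
  induction J with
  | zero => simp
  | succ n ih =>
    rw [Finset.sum_range_succ]
    have h1 : 0 ≤ a ^ n := by positivity
    have h2 : a ^ (n+1) = a * a ^ n := by ring
    have h3 : 7 / 6 * a ^ n ≤ a * a ^ n := mul_le_mul_of_nonneg_right ha h1
    rw [h2]
    linarith

theorem fin4 : ∃ c : ℝ, 0 < c ∧ ∀ t : ℕ, 1 ≤ t → c * (t:ℝ)^(5/4:ℝ) ≤ V t ∧ V t ≤ 104 * (t:ℝ)^(3/2:ℝ) := by
  refine ⟨1 / 452, by norm_num, ?_⟩
  intro t ht
  have hT : (1 : ℝ) ≤ (t : ℝ) := by exact_mod_cast ht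
  refine ⟨?_, ?_⟩
  swap
  · rw [V_ay]
    have := ay_upper t ht
    linarith
  · -- lower bound
    obtain ⟨a, ha0, ha4⟩ : ∃ a : ℝ, 0 < a ∧ a ^ 4 = 2 := by
      refine ⟨(2 : ℝ) ^ (1 / 4 : ℝ), by positivity, ?_⟩
      rw [← Real.rpow_natCast, ← Real.rpow_mul (by norm_num)]
      norm_num
    have ha76 : 7 / 6 ≤ a := by
      by_contra hcon
      push Not at hcon
      have h1 : a ^ 4 < (7 / 6) ^ 4 := pow_lt_pow_left₀ hcon ha0.le (by norm_num)
      rw [ha4] at h1
      norm_num at h1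
    have ha1 : 1 ≤ a := by linarith
    obtain ⟨b, hb0, hb4, hb5⟩ : ∃ b : ℝ, 1 ≤ b ∧ b ^ 4 = (t : ℝ) ∧ (t : ℝ) ^ (5 / 4 : ℝ) = b ^ 5 := by
      refine ⟨(t : ℝ) ^ (1 / 4 : ℝ), Real.one_le_rpow hT (by norm_num), ?_, ?_⟩
      · rw [← Real.rpow_natCast, ← Real.rpow_mul (by linarith)]
        norm_num
      · rw [← Real.rpow_natCast, ← Real.rpow_mul (by linarith)]
        norm_num
    set J := Nat.log 2 t + 1 with hJ
    have hJ1 : t ≤ 2 ^ J := (Nat.lt_pow_succ_log_self (by norm_num) t).le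
    have hJ2 : 2 ^ J ≤ 2 * t := by
      have := Nat.pow_log_le_self 2 (x := t) (by omega)
      rw [hJ, pow_succ]
      omega
    have hterm : ∀ j ∈ range (J+1), Real.sqrt ((2:ℝ)^(J-j) * ay (2^j)) ≤ 8 * (a ^ (2*J) * a ^ j) := by
      intro j hj
      have hj' : j ≤ J := by
        have := Finset.mem_range.1 hj
        omega
      have h1 := ay_upper (2^j) Nat.one_le_two_pow
      have h2 : (((2^j : ℕ) : ℝ)) ^ (3/2:ℝ) = a ^ (6*j) := by
        have h3 : (((2^j : ℕ) : ℝ)) = a ^ (4*j) := by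
          push_cast
          rw [← ha4, ← pow_mul]
        rw [h3, ← Real.rpow_natCast, ← Real.rpow_natCast, ← Real.rpow_mul ha0.le]
        congr 1
        push_cast
        ring
      rw [h2] at h1
      rw [Real.sqrt_le_left (by positivity)]
      have h4 : (2:ℝ)^(J-j) = a ^ (4*(J-j)) := by
        rw [← ha4, ← pow_mul]
      have h5 : (2:ℝ)^(J-j) * ay (2^j) ≤ a ^ (4*(J-j)) * (52 * a ^ (6*j)) := by
        rw [h4]
        exact mul_le_mul_of_nonneg_left h1 (by positivity)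
      have h6 : a ^ (4*(J-j)) * a ^ (6*j) = (a ^ (2*J) * a ^ j) ^ 2 := by
        rw [← pow_add, ← pow_add, ← pow_mul]
        congr 1
        omega
      have h7 : 0 ≤ (a ^ (2*J) * a ^ j) ^ 2 := by positivity
      calc (2:ℝ)^(J-j) * ay (2^j) ≤ a ^ (4*(J-j)) * (52 * a ^ (6*j)) := h5
        _ = 52 * (a ^ (2*J) * a ^ j) ^ 2 := by rw [← h6]; ring
        _ ≤ (8 * (a ^ (2*J) * a ^ j)) ^ 2 := by nlinarith
    have hchain : E (fun ω => ((R (2^J) ω).card : ℝ)) ≤ 113 * a ^ (3*J) := by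
      refine (chain J).trans ?_
      have h1 : ∑ j ∈ range (J+1), Real.sqrt ((2:ℝ)^(J-j) * ay (2^j)) ≤
          8 * (a ^ (2*J) * (7 * a ^ J)) := by
        refine (Finset.sum_le_sum hterm).trans ?_
        rw [← Finset.mul_sum, ← Finset.mul_sum]
        have := fin4_geom a ha76 J
        have h2 : 0 ≤ a ^ (2*J) := by positivity
        exact mul_le_mul_of_nonneg_left (mul_le_mul_of_nonneg_left this h2) (by norm_num)
      have h3 : a ^ (2*J) * a ^ J = a ^ (3*J) := by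
        rw [← pow_add]
        congr 1
        omega
      have h4 : 1 ≤ a ^ (3*J) := one_le_pow₀ ha1
      have h5 : 8 * (a ^ (2*J) * (7 * a ^ J)) = 56 * a ^ (3*J) := by rw [← h3]; ring
      linarith
    have hmono : E (fun ω => ((R t ω).card : ℝ)) ≤ E (fun ω => ((R (2^J) ω).card : ℝ)) := by
      refine E_mono (Loc_card t) (Loc_card (2^J)) fun ω => ?_
      exact_mod_cast Finset.card_le_card (R_mono hJ1 ω)
    have haJ : a ^ J ≤ a * b := by
      have h1 : (a ^ J) ^ 4 ≤ (a * b) ^ 4 := by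
        rw [mul_pow, ha4, hb4, ← pow_mul, mul_comm J 4, pow_mul, ha4]
        exact_mod_cast hJ2
      exact le_of_pow_le_pow_left₀ (by norm_num) (by positivity) h1
    have ha3J : a ^ (3*J) ≤ 2 * b ^ 3 := by
      have h1 : a ^ (3*J) = (a ^ J) ^ 3 := by rw [← pow_mul, mul_comm]
      rw [h1]
      have h2 : (a ^ J) ^ 3 ≤ (a * b) ^ 3 := pow_le_pow_left₀ (by positivity) haJ 3
      have h3 : a ^ 3 ≤ 2 := by
        rw [← ha4]
        exact pow_le_pow_right₀ ha1 (by norm_num)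
      have h4 : 0 ≤ b ^ 3 := by positivity
      calc (a ^ J) ^ 3 ≤ (a * b) ^ 3 := h2
        _ = a ^ 3 * b ^ 3 := by ring
        _ ≤ 2 * b ^ 3 := mul_le_mul_of_nonneg_right h3 h4
    have hmain := main_ineq t
    rw [ax_ay t] at hmain
    have hay : ay t = V t / 2 := by rw [V_ay]; ring
    have hV0 : 0 ≤ V t := (V_triv t).1
    have hcard : E (fun ω => ((R t ω).card : ℝ)) ≤ 226 * b ^ 3 := by linarith
    have h10 : ay t * E (fun ω => ((R t ω).card : ℝ)) ≤ V t / 2 * (226 * b ^ 3) := by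
      rw [hay]
      exact mul_le_mul_of_nonneg_left hcard (by linarith)
    have h11 : b ^ 8 / 4 ≤ V t * (113 * b ^ 3) := by
      have : b ^ 8 = (t:ℝ)^2 := by rw [← hb4]; ring
      rw [this]
      linarith
    rw [hb5]
    have hb3 : 0 < b ^ 3 := by positivity
    have h12 : b ^ 5 * b ^ 3 ≤ 452 * V t * b ^ 3 := by
      have : b ^ 5 * b ^ 3 = b ^ 8 := by ring
      rw [this]
      linarith
    have h13 := le_of_mul_le_mul_right h12 hb3
    linarith

end MV
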