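import Pool.Agent.Helper870.MV.Defs
import Pool.Agent.Helper870.MV.A1
import Pool.Agent.Helper870.MV.A3
import Pool.Agent.Helper870.MV.A6
import Pool.Agent.Helper870.MV.A9
import Pool.Agent.Helper870.MV.B3s

set_option autoImplicit false
set_option linter.unusedSectionVars false

open Finset MeasureTheory

noncomputable section

-- USES: A1 A3 A6 A9 B3s
namespace MV

theorem fin5_upper (β C : ℝ)
    (H : ∀ T : ℕ, 1 ≤ T → (∑ t ∈ Icc 1 T, V t) / (T:ℝ) ≤ C * (T:ℝ)^β) (t : ℕ) (ht : 1 ≤ t) :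
    V t ≤ 4 * C * (t:ℝ)^β := by
  have ht0 : (0 : ℝ) < t := by exact_mod_cast ht
  have h1 := H t ht
  rw [div_le_iff₀ ht0] at h1
  have h2 := V_avg t
  have h3 : (t : ℝ) * V t ≤ t * (4 * C * (t:ℝ)^β) := by
    calc (t : ℝ) * V t ≤ 4 * ∑ s ∈ Icc 1 t, V s := h2
      _ ≤ 4 * (C * (t:ℝ)^β * t) := by linarith
      _ = _ := by ring
  exact le_of_mul_le_mul_left h3 ht0

theorem fin5_card (β C : ℝ) (hβ : 1 < β) (hC : 0 < C)
    (H : ∀ T : ℕ, 1 ≤ T → (∑ t ∈ Icc 1 T, V t) / (T:ℝ) ≤ C * (T:ℝ)^β) :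
    ∃ K : ℝ, 0 < K ∧ ∀ t : ℕ, 1 ≤ t → E (fun ω => ((R t ω).card : ℝ)) ≤ K * (t:ℝ)^(β/2) := by
  obtain ⟨q, hq⟩ : ∃ q : ℝ, q = (2:ℝ)^((β-1)/2) := ⟨_, rfl⟩
  have hq1 : 1 < q := by
    rw [hq]
    exact Real.one_lt_rpow (by norm_num) (by linarith)
  have hq0 : 0 < q := by linarith
  have hq2 : (2:ℝ)^β = 2 * q^2 := by
    have h1 : q^2 = (2:ℝ)^(β-1) := by
      rw [hq, ← Real.rpow_natCast, ← Real.rpow_mul (by norm_num)]
      congr 1
      push_cast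
      ring
    rw [h1, Real.rpow_sub (by norm_num), Real.rpow_one]
    ring
  obtain ⟨K0, hK0⟩ : ∃ K0 : ℝ, K0 = 2 * Real.sqrt (2 * C) * q / (q - 1) := ⟨_, rfl⟩
  have hqm : 0 < q - 1 := by linarith
  have hK0p : 0 ≤ K0 := by
    rw [hK0]
    positivity
  refine ⟨(1 + K0) * (2:ℝ)^(β/2), by positivity, fun t ht => ?_⟩
  have ht0 : (0 : ℝ) < t := by exact_mod_cast ht
  obtain ⟨J, hJ1, hJ2⟩ : ∃ J : ℕ, t ≤ 2 ^ J ∧ 2 ^ J ≤ 2 * t := by
    refine ⟨Nat.clog 2 t, Nat.le_pow_clog (by norm_num) t, ?_⟩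
    rcases Nat.lt_or_ge 1 t with h | h
    · have h1 := Nat.pow_pred_clog_lt_self (b := 2) (by norm_num) h
      have h2 : 0 < Nat.clog 2 t := Nat.clog_pos (by norm_num) h
      have h3 : 2 ^ Nat.clog 2 t = 2 * 2 ^ (Nat.clog 2 t).pred := by
        rw [← pow_succ']
        congr 1
        exact (Nat.succ_pred_eq_of_pos h2).symm
      omega
    · have : t = 1 := by omega
      subst this
      simp
  have hstep1 : E (fun ω => ((R t ω).card : ℝ)) ≤ E (fun ω => ((R (2^J) ω).card : ℝ)) :=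
    E_mono (Loc_card t) (Loc_card (2^J)) fun ω => by
      exact_mod_cast Finset.card_le_card (R_mono hJ1 ω)
  have hterm : ∀ j ∈ range (J+1), Real.sqrt ((2:ℝ)^(J-j) * ay (2^j)) ≤
      (Real.sqrt (2 * C) * Real.sqrt ((2:ℝ)^J)) * q^j := by
    intro j hj
    have hjJ : j ≤ J := Nat.lt_succ_iff.1 (Finset.mem_range.1 hj)
    rw [Real.sqrt_le_iff]
    refine ⟨by positivity, ?_⟩
    have h1 : ay (2^j) ≤ 2 * C * (((2:ℝ)^β)^j) := by
      have h2 := fin5_upper β C H (2^j) (Nat.one_le_two_pow)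
      have h3 := V_ay (2^j)
      have h4 : (((2^j : ℕ) : ℝ))^β = ((2:ℝ)^β)^j := by
        push_cast
        rw [← Real.rpow_natCast, ← Real.rpow_natCast, ← Real.rpow_mul (by norm_num),
          ← Real.rpow_mul (by norm_num), mul_comm]
      rw [h4] at h2
      linarith
    have h5 : (2:ℝ)^(J-j) * ay (2^j) ≤ (2:ℝ)^(J-j) * (2 * C * (((2:ℝ)^β)^j)) :=
      mul_le_mul_of_nonneg_left h1 (by positivity)
    refine h5.trans (le_of_eq ?_)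
    have h6 : (2:ℝ)^J = (2:ℝ)^(J-j) * 2^j := by
      rw [← pow_add, Nat.sub_add_cancel hjJ]
    rw [mul_pow, mul_pow, Real.sq_sqrt (by positivity), Real.sq_sqrt (by positivity), hq2, h6,
      mul_pow]
    ring
  have hsum : ∑ j ∈ range (J+1), Real.sqrt ((2:ℝ)^(J-j) * ay (2^j)) ≤
      (Real.sqrt (2 * C) * Real.sqrt ((2:ℝ)^J)) * (q^(J+1) / (q - 1)) := by
    refine (Finset.sum_le_sum hterm).trans ?_
    rw [← Finset.mul_sum, geom_sum_eq hq1.ne']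
    apply mul_le_mul_of_nonneg_left _ (by positivity)
    apply div_le_div_of_nonneg_right _ hqm.le
    linarith
  have hD : Real.sqrt ((2:ℝ)^J) * q^J = ((2:ℝ)^J)^(β/2) := by
    have h1 : q^J = ((2:ℝ)^J)^((β-1)/2) := by
      rw [hq, ← Real.rpow_natCast, ← Real.rpow_natCast, ← Real.rpow_mul (by norm_num),
        ← Real.rpow_mul (by norm_num), mul_comm]
    rw [h1, Real.sqrt_eq_rpow, ← Real.rpow_add (by positivity)]
    congr 1
    ring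
  have hD1 : 1 ≤ ((2:ℝ)^J)^(β/2) :=
    Real.one_le_rpow (one_le_pow₀ (by norm_num)) (by linarith)
  have hD2 : ((2:ℝ)^J)^(β/2) ≤ (2:ℝ)^(β/2) * (t:ℝ)^(β/2) := by
    rw [← Real.mul_rpow (by norm_num) ht0.le]
    apply Real.rpow_le_rpow (by positivity) _ (by linarith)
    exact_mod_cast hJ2
  have hch := chain J
  calc E (fun ω => ((R t ω).card : ℝ)) ≤ E (fun ω => ((R (2^J) ω).card : ℝ)) := hstep1
    _ ≤ 1 + 2 * ∑ j ∈ range (J+1), Real.sqrt ((2:ℝ)^(J-j) * ay (2^j)) := hch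
    _ ≤ 1 + 2 * ((Real.sqrt (2 * C) * Real.sqrt ((2:ℝ)^J)) * (q^(J+1) / (q - 1))) := by linarith
    _ = 1 + K0 * (Real.sqrt ((2:ℝ)^J) * q^J) := by
        rw [hK0, pow_succ]
        ring
    _ = 1 + K0 * ((2:ℝ)^J)^(β/2) := by rw [hD]
    _ ≤ (1 + K0) * ((2:ℝ)^J)^(β/2) := by nlinarith
    _ ≤ (1 + K0) * ((2:ℝ)^(β/2) * (t:ℝ)^(β/2)) :=
        mul_le_mul_of_nonneg_left hD2 (by linarith)
    _ = _ := by ring

theorem fin5 (β C : ℝ) (hβ : 1 < β) (hC : 0 < C)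
    (H : ∀ T : ℕ, 1 ≤ T → (∑ t ∈ Icc 1 T, V t) / (T:ℝ) ≤ C * (T:ℝ)^β) :
    ∃ c : ℝ, 0 < c ∧ ∀ t : ℕ, 1 ≤ t → c * (t:ℝ)^(2 - β/2) ≤ V t ∧ V t ≤ 4 * C * (t:ℝ)^β := by
  obtain ⟨K, hK, hcard⟩ := fin5_card β C hβ hC H
  refine ⟨1 / (2 * K), by positivity, fun t ht => ⟨?_, fin5_upper β C H t ht⟩⟩
  have ht0 : (0 : ℝ) < t := by exact_mod_cast ht
  have h1 := main_ineq t
  have h2 : ax t = V t / 2 := by
    rw [ax_ay, V_ay]
    ring
  rw [h2] at h1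
  have hV := (V_triv t).1
  have hp : 0 < (t:ℝ)^(β/2) := Real.rpow_pos_of_pos ht0 _
  have h3 : (t:ℝ)^2 / 4 ≤ V t / 2 * (K * (t:ℝ)^(β/2)) :=
    h1.trans (mul_le_mul_of_nonneg_left (hcard t ht) (by linarith))
  have h4 : (t:ℝ)^(2 - β/2) * (t:ℝ)^(β/2) = (t:ℝ)^2 := by
    rw [← Real.rpow_add ht0, ← Real.rpow_natCast]
    congr 1
    push_cast
    ring
  have h5 : (t:ℝ)^(2 - β/2) * (t:ℝ)^(β/2) ≤ (2 * K * V t) * (t:ℝ)^(β/2) := by
    rw [h4]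
    linarith
  have h6 := le_of_mul_le_mul_right h5 hp
  rw [div_mul_eq_mul_div, one_mul, div_le_iff₀ (by positivity)]
  linarith

end MV
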