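import Pool.Agent.Helper870.MV.Defs
import Pool.Agent.Helper870.MV.A1
import Pool.Agent.Helper870.MV.F5s

set_option autoImplicit false
set_option linter.unusedSectionVars false

open Finset MeasureTheory

noncomputable section

-- USES: A1 F5s
namespace MV

theorem fin6 (H : ∀ ε : ℝ, 0 < ε → ∃ C : ℝ, ∀ T : ℕ, 1 ≤ T → (∑ t ∈ Icc 1 T, V t) / (T:ℝ) ≤ C * (T:ℝ)^(4/3 + ε)) :
    Filter.Tendsto (fun t : ℕ => Real.log (V t) / Real.log (t:ℝ)) Filter.atTop (nhds (4/3)) := by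
  rw [Metric.tendsto_atTop]
  intro η hη
  obtain ⟨C, hC⟩ := H (η/4) (by positivity)
  have hC' : ∀ T : ℕ, 1 ≤ T →
      (∑ t ∈ Icc 1 T, V t) / (T:ℝ) ≤ (max C 1) * (T:ℝ)^(4/3 + η/4) := fun T hT =>
    le_trans (hC T hT) (mul_le_mul_of_nonneg_right (le_max_left _ _) (by positivity))
  have hM : 0 < max C 1 := lt_of_lt_of_le one_pos (le_max_right _ _)
  obtain ⟨c, hc, h⟩ := fin5 (4/3 + η/4) (max C 1) (by linarith) hM hC'
  have hlog : Filter.Tendsto (fun t : ℕ => Real.log (t:ℝ)) Filter.atTop Filter.atTop :=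
    Real.tendsto_log_atTop.comp tendsto_natCast_atTop_atTop
  obtain ⟨N, hN⟩ := Filter.eventually_atTop.mp
    (hlog.eventually_ge_atTop ((|Real.log c| + |Real.log (4 * max C 1)| + 1)/(η/4)))
  refine ⟨max N 2, fun t ht => ?_⟩
  have ht2 : 2 ≤ t := le_trans (le_max_right _ _) ht
  have htp : (0:ℝ) < (t:ℝ) := by
    have : 0 < t := by omega
    exact_mod_cast this
  have hlt : 0 < Real.log (t:ℝ) := Real.log_pos (by
    have : 1 < t := by omega
    exact_mod_cast this)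
  have hK := hN t (le_trans (le_max_left _ _) ht)
  have hη4 : 0 < η/4 := by positivity
  rw [div_le_iff₀ hη4] at hK
  obtain ⟨h1, h2⟩ := h t (by omega)
  have hp1 : 0 < (t:ℝ)^(2 - (4/3 + η/4)/2) := Real.rpow_pos_of_pos htp _
  have hp2 : 0 < (t:ℝ)^(4/3 + η/4) := Real.rpow_pos_of_pos htp _
  have hVpos : 0 < V t := lt_of_lt_of_le (mul_pos hc hp1) h1
  have l1 := Real.log_le_log (mul_pos hc hp1) h1
  have l2 := Real.log_le_log hVpos h2
  have h4M : 0 < 4 * max C 1 := by positivity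
  rw [Real.log_mul (ne_of_gt hc) (ne_of_gt hp1), Real.log_rpow htp] at l1
  rw [Real.log_mul (ne_of_gt h4M) (ne_of_gt hp2), Real.log_rpow htp] at l2
  have hηL : 0 < η * Real.log (t:ℝ) := mul_pos hη hlt
  have ha1 := neg_abs_le (Real.log c)
  have ha2 := le_abs_self (Real.log (4 * max C 1))
  have ha3 := abs_nonneg (Real.log c)
  have ha4 := abs_nonneg (Real.log (4 * max C 1))
  rw [Real.dist_eq, abs_lt]
  constructor
  · rw [lt_sub_iff_add_lt, lt_div_iff₀ hlt]
    nlinarith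
  · rw [sub_lt_iff_lt_add, div_lt_iff₀ hlt]
    nlinarith

end MV
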