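import Pool.Agent.Helper870.MV.Defs
import Pool.Agent.Helper870.MV.A1

set_option autoImplicit false
set_option linter.unusedSectionVars false

open Finset MeasureTheory

noncomputable section

-- USES: A1
namespace MV

theorem fin7 (hT : Filter.Tendsto (fun t : ℕ => Real.log (V t) / Real.log (t:ℝ)) Filter.atTop (nhds (4/3)))
    (hV : ∀ t : ℕ, 1 ≤ t → 0 < V t) :
    ∀ ε : ℝ, 0 < ε → ∃ C : ℝ, ∀ T : ℕ, 1 ≤ T → (∑ t ∈ Icc 1 T, V t) / (T:ℝ) ≤ C * (T:ℝ)^(4/3 + ε) := by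
  intro ε hε
  have h1 : ∀ᶠ t : ℕ in Filter.atTop, Real.log (V t) / Real.log (t:ℝ) < 4/3 + ε :=
    hT.eventually (gt_mem_nhds (by linarith))
  obtain ⟨N₀, hN₀⟩ := Filter.eventually_atTop.1 h1
  obtain ⟨N, hN⟩ : ∃ N : ℕ, N = max N₀ 2 := ⟨_, rfl⟩
  have hlarge : ∀ t : ℕ, N ≤ t → V t ≤ (t:ℝ)^(4/3 + ε) := by
    intro t ht
    have ht2 : 2 ≤ t := by
      rw [hN] at ht
      exact (le_max_right _ _).trans ht
    have ht0 : N₀ ≤ t := by
      rw [hN] at ht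
      exact (le_max_left _ _).trans ht
    have htR : (1:ℝ) < t := by exact_mod_cast ht2
    have hlog : 0 < Real.log (t:ℝ) := Real.log_pos htR
    have h2 := hN₀ t ht0
    rw [div_lt_iff₀ hlog] at h2
    have hVt : 0 < V t := hV t (by omega)
    rw [Real.rpow_def_of_pos (by linarith), mul_comm]
    calc V t = Real.exp (Real.log (V t)) := (Real.exp_log hVt).symm
      _ ≤ _ := Real.exp_le_exp.2 h2.le
  obtain ⟨B, hB⟩ : ∃ B : ℝ, B = ∑ t ∈ range N, |V t| := ⟨_, rfl⟩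
  have hB0 : 0 ≤ B := by
    rw [hB]
    exact Finset.sum_nonneg (fun t _ => abs_nonneg _)
  have hsmall : ∀ t : ℕ, t < N → V t ≤ B := by
    intro t ht
    rw [hB]
    exact (le_abs_self _).trans
      (Finset.single_le_sum (f := fun t => |V t|) (fun t _ => abs_nonneg _) (mem_range.2 ht))
  refine ⟨B + 1, fun T hT1 => ?_⟩
  have hTR : (1:ℝ) ≤ T := by exact_mod_cast hT1
  have hT0 : (0:ℝ) < T := by linarith
  have ha : 0 ≤ 4/3 + ε := by linarith
  have hTa : 1 ≤ (T:ℝ)^(4/3 + ε) := Real.one_le_rpow hTR ha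
  have hterm : ∀ t ∈ Icc 1 T, V t ≤ (B + 1) * (T:ℝ)^(4/3 + ε) := by
    intro t ht
    rw [mem_Icc] at ht
    rcases lt_or_ge t N with h | h
    · have := hsmall t h
      nlinarith
    · have h3 := hlarge t h
      have h4 : (t:ℝ)^(4/3 + ε) ≤ (T:ℝ)^(4/3 + ε) :=
        Real.rpow_le_rpow (Nat.cast_nonneg t) (by exact_mod_cast ht.2) ha
      nlinarith
  rw [div_le_iff₀ hT0]
  calc ∑ t ∈ Icc 1 T, V t ≤ ∑ t ∈ Icc 1 T, (B + 1) * (T:ℝ)^(4/3 + ε) := Finset.sum_le_sum hterm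
    _ = (B + 1) * (T:ℝ)^(4/3 + ε) * T := by
        rw [Finset.sum_const, Nat.card_Icc, nsmul_eq_mul]
        simp only [Nat.add_sub_cancel]
        ring

end MV
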