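import Pool.Agent.Helper870.MV.Defs
import Pool.Agent.Helper870.MV.A1
import Pool.Agent.Helper870.MV.A3
import Pool.Agent.Helper870.MV.A6
import Pool.Agent.Helper870.MV.A9
import Pool.Agent.Helper870.MV.B3s
import Pool.Agent.Helper870.MV.C2

set_option autoImplicit false
set_option linter.unusedSectionVars false

open Finset MeasureTheory

noncomputable section

-- USES: A1 A3 A6 A9 B3s C2
namespace MV

theorem fin2b_geo (a : ℝ) (ha : 0 < a) (ha2 : 10/9 ≤ a^2) (n : ℕ) :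
    ∑ j ∈ range n, a^(2*j) ≤ 9 * a^(2*n) := by
  induction n with
  | zero => simp
  | succ n ih =>
    rw [Finset.sum_range_succ]
    have h0 : 0 < a^(2*n) := by positivity
    have h1 : a^(2*(n+1)) = a^(2*n) * a^2 := by ring
    rw [h1]
    nlinarith

theorem fin2b_geo2 (s B : ℝ) (hs : 0 < s) (hs2 : s^2 = 2) (hs1 : 1.41 ≤ s) (hs3 : s ≤ 1.42)
    (hB : 0 ≤ B) (n : ℕ) :
    ∑ j ∈ range n, (if (2:ℝ)^j < B then s^j else 0) ≤ 2.5 * s^n ∧
    ∑ j ∈ range n, (if (2:ℝ)^j < B then s^j else 0) ≤ 4 * Real.sqrt B := by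
  induction n with
  | zero =>
    simp
    positivity
  | succ n ih =>
    obtain ⟨ih1, ih2⟩ := ih
    rw [Finset.sum_range_succ]
    have h0 : 0 < s^n := by positivity
    have h1 : s^(n+1) = s^n * s := by ring
    split_ifs with h
    · have h2 : s^n ≤ Real.sqrt B := by
        apply Real.le_sqrt_of_sq_le
        have : (s^n)^2 = 2^n := by rw [← hs2]; ring
        rw [this]
        exact h.le
      constructor
      · rw [h1]
        nlinarith
      · nlinarith
    · constructor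
      · rw [h1]
        nlinarith
      · linarith

theorem fin2b : ∃ c : ℝ, 0 < c ∧ ∀ T : ℕ, 1 ≤ T → ∃ t : ℕ, 1 ≤ t ∧ t ≤ T ∧ c * (T:ℝ)^(5/6:ℝ) ≤ (t:ℝ) ∧
    c * (t:ℝ)^(4/3:ℝ) ≤ V t := by
  refine ⟨1/10^6, by norm_num, fun T hT => ?_⟩
  by_contra hcon
  push Not at hcon
  obtain ⟨a, ha⟩ : ∃ a : ℝ, a = (2:ℝ)^((1:ℝ)/12) := ⟨_, rfl⟩
  have ha0 : 0 < a := by rw [ha]; positivity
  have hpow : ∀ n : ℕ, a^n = (2:ℝ)^((n:ℝ)/12) := by
    intro n
    rw [ha, ← Real.rpow_natCast, ← Real.rpow_mul (by norm_num)]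
    congr 1
    ring
  have ha12 : a^12 = 2 := by
    rw [hpow]
    norm_num
  have ha1 : 1 ≤ a := by
    rw [ha]
    exact Real.one_le_rpow (by norm_num) (by norm_num)
  have ha2 : 10/9 ≤ a^2 := by
    by_contra h
    push Not at h
    have h3 : (a^2)^6 < (10/9)^6 := by gcongr
    have h4 : (a^2)^6 = 2 := by rw [← pow_mul]; exact ha12
    rw [h4] at h3
    norm_num at h3
  have ha2' : a^2 ≤ 11/9 := by
    by_contra h
    push Not at h
    have h3 : (11/9)^6 < (a^2)^6 := by gcongr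
    have h4 : (a^2)^6 = 2 := by rw [← pow_mul]; exact ha12
    rw [h4] at h3
    norm_num at h3
  have ha6 : (a^6)^2 = 2 := by rw [← pow_mul]; exact ha12
  have ha6l : 1.41 ≤ a^6 := by
    by_contra h
    push Not at h
    have h3 : (a^6)^2 < (1.41)^2 := by gcongr
    rw [ha6] at h3
    norm_num at h3
  have ha6u : a^6 ≤ 1.42 := by
    by_contra h
    push Not at h
    have h3 : (1.42)^2 < (a^6)^2 := by gcongr
    rw [ha6] at h3
    norm_num at h3
  have ha5 : a^5 ≤ 2 := by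
    have : a^5 ≤ a^12 := pow_le_pow_right₀ ha1 (by norm_num)
    rwa [ha12] at this
  obtain ⟨J, hJ⟩ : ∃ J, J = Nat.log 2 T := ⟨_, rfl⟩
  have h2J : 2^J ≤ T := by
    rw [hJ]
    exact Nat.pow_log_le_self 2 (by omega)
  have hT2 : T < 2^(J+1) := by
    rw [hJ]
    exact Nat.lt_pow_succ_log_self (by norm_num) T
  have hTr : (T:ℝ) ≤ 2^(J+1) := by exact_mod_cast hT2.le
  have hT1 : (1:ℝ) ≤ T := by exact_mod_cast hT
  obtain ⟨B, hBd⟩ : ∃ B : ℝ, B = 1/10^6 * (T:ℝ)^(5/6:ℝ) := ⟨_, rfl⟩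
  have hB0 : 0 ≤ B := by rw [hBd]; positivity
  have hBu : B ≤ 1/10^6 * a^(10*(J+1)) := by
    rw [hBd]
    have h1 : (T:ℝ)^(5/6:ℝ) ≤ ((2:ℝ)^(J+1))^(5/6:ℝ) :=
      Real.rpow_le_rpow (by positivity) hTr (by norm_num)
    have h2 : ((2:ℝ)^(J+1))^(5/6:ℝ) = a^(10*(J+1)) := by
      rw [hpow, ← Real.rpow_natCast, ← Real.rpow_mul (by norm_num)]
      congr 1
      push_cast
      ring
    rw [h2] at h1
    linarith
  have hBu2 : B ≤ (2:ℝ)^J := by
    rw [hBd]
    have h1 : (T:ℝ)^(5/6:ℝ) ≤ (T:ℝ)^(1:ℝ) :=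
      Real.rpow_le_rpow_of_exponent_le hT1 (by norm_num)
    rw [Real.rpow_one] at h1
    have h2 : (2:ℝ)^(J+1) = 2 * 2^J := by ring
    have h3 : (0:ℝ) < 2^J := by positivity
    rw [h2] at hTr
    nlinarith
  have hV : ∀ j ≤ J, B ≤ (2:ℝ)^j → ay (2^j) ≤ 1/10^6/2 * a^(16*j) := by
    intro j hj hb
    have h1 := hcon (2^j) Nat.one_le_two_pow (le_trans (Nat.pow_le_pow_right (by norm_num) hj) h2J)
      (by rw [← hBd]; push_cast; exact hb)
    rw [V_ay] at h1
    have h2 : (((2^j : ℕ) : ℝ))^(4/3:ℝ) = a^(16*j) := by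
      rw [hpow]
      push_cast
      rw [← Real.rpow_natCast, ← Real.rpow_mul (by norm_num)]
      congr 1
      ring
    rw [h2] at h1
    linarith
  have hsq : Real.sqrt B ≤ 1/1000 * (2 * a^(5*J)) := by
    rw [Real.sqrt_le_iff]
    constructor
    · positivity
    · refine hBu.trans ?_
      have h1 : a^(10*(J+1)) = (a^(5*J))^2 * (a^5)^2 := by ring
      rw [h1]
      have h2 : (a^5)^2 ≤ 4 := by
        have : 0 < a^5 := by positivity
        nlinarith
      have h3 : 0 < (a^(5*J))^2 := by positivity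
      nlinarith
  -- termwise bound
  have hterm : ∀ j ∈ range (J+1), min (Real.sqrt ((2:ℝ)^(J-j) * ay (2^j)))
        (18 * (2:ℝ)^((J:ℝ)/4) * (2:ℝ)^((j:ℝ)/2)) ≤
      1/1000 * a^(6*J) * a^(2*j) + 18 * a^(3*J) * (if (2:ℝ)^j < B then (a^6)^j else 0) := by
    intro j hj
    have hjJ : j ≤ J := by
      have := Finset.mem_range.1 hj
      omega
    by_cases h : (2:ℝ)^j < B
    · rw [if_pos h]
      refine (min_le_right _ _).trans ?_
      have e1 : (2:ℝ)^((J:ℝ)/4) = a^(3*J) := by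
        rw [hpow]
        congr 1
        push_cast
        ring
      have e2 : (2:ℝ)^((j:ℝ)/2) = (a^6)^j := by
        rw [← pow_mul, hpow]
        congr 1
        push_cast
        ring
      rw [e1, e2]
      have : 0 ≤ 1/1000 * a^(6*J) * a^(2*j) := by positivity
      linarith
    · rw [if_neg h]
      refine (min_le_left _ _).trans ?_
      rw [mul_zero, add_zero, Real.sqrt_le_iff]
      constructor
      · positivity
      · have h1 := hV j hjJ (not_lt.1 h)
        have h2 : (0:ℝ) < (2:ℝ)^(J-j) := by positivity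
        have h3 : (2:ℝ)^(J-j) * a^(16*j) = a^(12*J) * a^(4*j) := by
          obtain ⟨d, hd⟩ := Nat.exists_eq_add_of_le hjJ
          rw [hd, Nat.add_sub_cancel_left, ← ha12, ← pow_mul, ← pow_add, ← pow_add]
          congr 1
          ring
        have h4 : (1/1000 * a^(6*J) * a^(2*j))^2 = 1/10^6 * (a^(12*J) * a^(4*j)) := by ring
        rw [h4, ← h3]
        have h5 : 0 < a^(16*j) := by positivity
        have h6 : (2:ℝ)^(J-j) * ay (2^j) ≤ (2:ℝ)^(J-j) * (1/10^6/2 * a^(16*j)) :=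
          mul_le_mul_of_nonneg_left h1 h2.le
        have h7 : 0 < (2:ℝ)^(J-j) * a^(16*j) := by positivity
        nlinarith
  have hρ := chain4 J
  have hsum := Finset.sum_le_sum hterm
  rw [Finset.sum_add_distrib, ← Finset.mul_sum, ← Finset.mul_sum] at hsum
  have hg1 := fin2b_geo a ha0 ha2 (J+1)
  have hg2 := (fin2b_geo2 (a^6) B (by positivity) ha6 ha6l ha6u hB0 (J+1)).2
  have hx : a^(2*(J+1)) = a^(2*J) * a^2 := by ring
  have hy0 : 0 < a^(2*J) := by positivity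
  have hg1' : ∑ j ∈ range (J+1), a^(2*j) ≤ 11 * a^(2*J) := by
    refine hg1.trans ?_
    rw [hx]
    nlinarith
  have hP6 : 0 < a^(6*J) := by positivity
  have hP3 : 0 < a^(3*J) := by positivity
  have hP5 : 0 < a^(5*J) := by positivity
  have hb1 : 1/1000 * a^(6*J) * ∑ j ∈ range (J+1), a^(2*j) ≤ 11/1000 * a^(8*J) := by
    calc 1/1000 * a^(6*J) * ∑ j ∈ range (J+1), a^(2*j)
        ≤ 1/1000 * a^(6*J) * (11 * a^(2*J)) :=
          mul_le_mul_of_nonneg_left hg1' (by positivity)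
      _ = 11/1000 * a^(8*J) := by ring
  have hb2 : 18 * a^(3*J) * ∑ j ∈ range (J+1), (if (2:ℝ)^j < B then (a^6)^j else 0)
      ≤ 144/1000 * a^(8*J) := by
    calc 18 * a^(3*J) * ∑ j ∈ range (J+1), (if (2:ℝ)^j < B then (a^6)^j else 0)
        ≤ 18 * a^(3*J) * (4 * (1/1000 * (2 * a^(5*J)))) :=
          mul_le_mul_of_nonneg_left (hg2.trans (by linarith)) (by positivity)
      _ = 144/1000 * a^(8*J) := by ring
  have hP8 : 1 ≤ a^(8*J) := one_le_pow₀ ha1
  have hρ2 : E (fun ω => ((R (2^J) ω).card : ℝ)) ≤ 2 * a^(8*J) := by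
    linarith
  have hmain := main_ineq (2^J)
  rw [ax_ay] at hmain
  have hay := hV J le_rfl hBu2
  have hay0 : 0 ≤ ay (2^J) := by
    have := (V_triv (2^J)).1
    rw [V_ay] at this
    linarith
  have e24 : (((2^J : ℕ) : ℝ))^2 = a^(24*J) := by
    push_cast
    rw [← ha12]
    ring
  rw [e24] at hmain
  have hfin : ay (2^J) * E (fun ω => ((R (2^J) ω).card : ℝ)) ≤ 1/10^6 * a^(24*J) := by
    calc ay (2^J) * E (fun ω => ((R (2^J) ω).card : ℝ))
        ≤ ay (2^J) * (2 * a^(8*J)) := mul_le_mul_of_nonneg_left hρ2 hay0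
      _ ≤ (1/10^6/2 * a^(16*J)) * (2 * a^(8*J)) :=
          mul_le_mul_of_nonneg_right hay (by positivity)
      _ = 1/10^6 * a^(24*J) := by ring
  have hP24 : 0 < a^(24*J) := by positivity
  linarith

end MV
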