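import Pool.Agent.Helper870.MV.Defs
import Pool.Agent.Helper870.MV.A1
import Pool.Agent.Helper870.MV.A3
import Pool.Agent.Helper870.MV.A6
import Pool.Agent.Helper870.MV.A9
import Pool.Agent.Helper870.MV.B3s
import Pool.Agent.Helper870.MV.C2

set_option autoImplicit false
set_option linter.unusedSectionVars false

open Finset MeasureTheory

noncomputable section

-- USES: A1 A3 A6 A9 B3s C2
namespace MV

theorem fin3b_step (s p q t : ℝ) (hs : 1.4 ≤ s) (hp : 0 < p) (hq : 0 < q) (ht : 0 < t) :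
    min (p ^ 2 * q / t) (q * t) ≤ 12 * (p * q) * ((s * t) / (p + s * t) - t / (p + t)) := by
  have h1 : 0 < p + t := by positivity
  have h2 : 0 < p + s * t := by positivity
  have e : (s * t) / (p + s * t) - t / (p + t) = p * t * (s - 1) / ((p + t) * (p + s * t)) := by
    field_simp
    ring
  rw [e]
  rcases le_total t p with h | h
  · refine le_trans (min_le_right _ _) ?_
    rw [← mul_div_assoc, le_div_iff₀ (by positivity)]
    have h3 : (p + t) * (p + s * t) ≤ 12 * p ^ 2 * (s - 1) := by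
      have h4 : (p + t) * (p + s * t) ≤ (p + p) * (p + s * p) := by
        apply mul_le_mul (by linarith) _ h2.le (by positivity)
        have : s * t ≤ s * p := mul_le_mul_of_nonneg_left h (by linarith)
        linarith
      nlinarith [sq_nonneg p, mul_pos hp hp]
    calc q * t * ((p + t) * (p + s * t)) ≤ q * t * (12 * p ^ 2 * (s - 1)) :=
          mul_le_mul_of_nonneg_left h3 (by positivity)
      _ = _ := by ring
  · refine le_trans (min_le_left _ _) ?_
    rw [← mul_div_assoc, div_le_div_iff₀ ht (by positivity)]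
    have h3 : (p + t) * (p + s * t) ≤ 12 * t ^ 2 * (s - 1) := by
      have h4 : (p + t) * (p + s * t) ≤ (t + t) * (t + s * t) := by
        apply mul_le_mul (by linarith) (by linarith) h2.le (by positivity)
      nlinarith [sq_nonneg t, mul_pos ht ht]
    calc p ^ 2 * q * ((p + t) * (p + s * t)) ≤ p ^ 2 * q * (12 * t ^ 2 * (s - 1)) :=
          mul_le_mul_of_nonneg_left h3 (by positivity)
      _ = _ := by ring

theorem fin3b_geo (s p q : ℝ) (hs : 1.4 ≤ s) (hp : 0 < p) (hq : 0 < q) (n : ℕ) :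
    ∑ j ∈ range n, min (p ^ 2 / s ^ j) (q ^ 2 * s ^ j) ≤ 12 * (p * q) := by
  have hs0 : 0 < s := by linarith
  have key : ∀ n : ℕ, ∑ j ∈ range n, min (p ^ 2 / s ^ j) (q ^ 2 * s ^ j) ≤
      12 * (p * q) * ((q * s ^ n) / (p + q * s ^ n) - q / (p + q)) := by
    intro n
    induction n with
    | zero => simp
    | succ n ih =>
      rw [sum_range_succ]
      have h := fin3b_step s p q (q * s ^ n) hs hp hq (by positivity)
      have e1 : p ^ 2 * q / (q * s ^ n) = p ^ 2 / s ^ n := by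
        field_simp
      have e2 : q * (q * s ^ n) = q ^ 2 * s ^ n := by ring
      have e3 : s * (q * s ^ n) = q * s ^ (n + 1) := by ring
      rw [e1, e2, e3] at h
      have e4 : 12 * (p * q) * ((q * s ^ (n + 1)) / (p + q * s ^ (n + 1)) - q / (p + q)) =
        12 * (p * q) * ((q * s ^ (n + 1)) / (p + q * s ^ (n + 1)) - q * s ^ n / (p + q * s ^ n)) +
        12 * (p * q) * ((q * s ^ n) / (p + q * s ^ n) - q / (p + q)) := by ring
      rw [e4]
      linarith
  refine le_trans (key n) ?_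
  have h1 : (q * s ^ n) / (p + q * s ^ n) ≤ 1 := by
    rw [div_le_one (by positivity)]
    linarith
  have h2 : 0 ≤ q / (p + q) := by positivity
  have h3 : 12 * (p * q) * ((q * s ^ n) / (p + q * s ^ n) - q / (p + q)) ≤ 12 * (p * q) * 1 := by
    apply mul_le_mul_of_nonneg_left (by linarith) (by positivity)
  linarith

theorem fin3b_V (T : ℕ) (hT : 1 ≤ T) (s : ℕ) (hs1 : 1 ≤ s) (hsT : s ≤ T) :
    V s ≤ 8 * ((∑ t ∈ Icc 1 T, V t) / (T:ℝ)) := by
  have hV0 : ∀ t, 0 ≤ V t := fun t => (V_triv t).1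
  have hTpos : (0:ℝ) < T := by exact_mod_cast hT
  have hspos : (0:ℝ) < s := by exact_mod_cast hs1
  set S := ∑ t ∈ Icc 1 T, V t with hS
  have hS0 : 0 ≤ S := Finset.sum_nonneg (fun t _ => hV0 t)
  rw [← mul_div_assoc, le_div_iff₀ hTpos]
  rcases le_or_gt T (2 * s) with h | h
  · have h1 := V_avg s
    have h2 : ∑ u ∈ Icc 1 s, V u ≤ S := by
      apply Finset.sum_le_sum_of_subset_of_nonneg
      · exact Finset.Icc_subset_Icc_right hsT
      · intro t _ _; exact hV0 t
    have h3 : (T:ℝ) ≤ 2 * s := by exact_mod_cast h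
    calc V s * T ≤ V s * (2 * s) := mul_le_mul_of_nonneg_left h3 (hV0 s)
      _ = 2 * (s * V s) := by ring
      _ ≤ 2 * (4 * ∑ u ∈ Icc 1 s, V u) := by linarith
      _ ≤ 8 * S := by linarith
  · have h1 : ∑ u ∈ Icc 1 (T - s), V s ≤ ∑ u ∈ Icc 1 (T - s), (2 * V (s + u) + 2 * V u) :=
      Finset.sum_le_sum (fun u _ => V_rev s u)
    rw [Finset.sum_const, Nat.card_Icc, nsmul_eq_mul, Finset.sum_add_distrib, ← Finset.mul_sum,
      ← Finset.mul_sum] at h1
    have h2 : ∑ u ∈ Icc 1 (T - s), V u ≤ S := by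
      apply Finset.sum_le_sum_of_subset_of_nonneg
      · exact Finset.Icc_subset_Icc_right (by omega)
      · intro t _ _; exact hV0 t
    have h3 : ∑ u ∈ Icc 1 (T - s), V (s + u) ≤ S := by
      have e : ∑ u ∈ Icc 1 (T - s), V (s + u) = ∑ v ∈ (Icc 1 (T - s)).image (fun u => s + u), V v := by
        rw [Finset.sum_image]
        intro x _ y _ hxy
        simpa using hxy
      rw [e]
      apply Finset.sum_le_sum_of_subset_of_nonneg
      · intro v hv
        rw [Finset.mem_image] at hv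
        obtain ⟨u, hu, rfl⟩ := hv
        rw [Finset.mem_Icc] at hu ⊢
        omega
      · intro t _ _; exact hV0 t
    have h4 : ((T - s + 1 - 1 : ℕ) : ℝ) = (T:ℝ) - s := by
      rw [Nat.add_sub_cancel, Nat.cast_sub hsT]
    rw [h4] at h1
    have h5 : (T:ℝ) ≤ 2 * ((T:ℝ) - s) := by
      have : (2 * s : ℝ) ≤ T := by exact_mod_cast h.le
      linarith
    calc V s * T ≤ V s * (2 * ((T:ℝ) - s)) := mul_le_mul_of_nonneg_left h5 (hV0 s)
      _ = 2 * (((T:ℝ) - s) * V s) := by ring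
      _ ≤ 8 * S := by linarith

theorem fin3b : ∃ c : ℝ, 0 < c ∧ ∀ T : ℕ, 1 ≤ T →
    c * (T:ℝ)^(13/10:ℝ) ≤ (∑ t ∈ Icc 1 T, V t) / (T:ℝ) := by
  refine ⟨1 / 9344, by norm_num, ?_⟩
  intro T hT
  have hstep := fin3b_V T hT
  set A := (∑ t ∈ Icc 1 T, V t) / (T:ℝ) with hA
  have hA8 : 1 ≤ 8 * A := by
    have h := hstep 1 le_rfl hT
    rw [V_ay, ay_one] at h
    linarith
  have hA0 : 0 < A := by linarith
  set J := Nat.log 2 T with hJ
  have hJ1 : 2 ^ J ≤ T := Nat.pow_log_le_self 2 (by omega)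
  have hJ2 : T < 2 ^ (J + 1) := Nat.lt_pow_succ_log_self (by norm_num) T
  have hay : ∀ j ∈ range (J + 1), ay (2 ^ j) ≤ 4 * A := by
    intro j hj
    rw [Finset.mem_range] at hj
    have h1 : 2 ^ j ≤ T := le_trans (Nat.pow_le_pow_right (by norm_num) (by omega)) hJ1
    have h2 := hstep (2 ^ j) (Nat.one_le_two_pow) h1
    rw [V_ay] at h2
    linarith
  have hay0 : ∀ j, 0 ≤ ay (2 ^ j) := by
    intro j
    have := (V_triv (2 ^ j)).1
    rw [V_ay] at this
    linarith
  set s : ℝ := Real.sqrt 2 with hs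
  have hs2 : s ^ 2 = 2 := Real.sq_sqrt (by norm_num)
  have hs14 : 1.4 ≤ s := by
    rw [hs]
    apply Real.le_sqrt_of_sq_le
    norm_num
  have hs0 : 0 < s := by linarith
  set w : ℝ := (2:ℝ) ^ ((J:ℝ) / 8) with hw
  have hw0 : 0 < w := Real.rpow_pos_of_pos (by norm_num) _
  have hw8 : w ^ 8 = 2 ^ J := by
    rw [hw, ← Real.rpow_natCast, ← Real.rpow_mul (by norm_num), ← Real.rpow_natCast]
    congr 1
    push_cast
    ring
  have hw2 : w ^ 2 = (2:ℝ) ^ ((J:ℝ) / 4) := by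
    rw [hw, ← Real.rpow_natCast, ← Real.rpow_mul (by norm_num)]
    congr 1
    push_cast
    ring
  have hw4 : w ^ 4 = s ^ J := by
    have h1 : (w ^ 4) ^ 2 = (s ^ J) ^ 2 := by
      rw [← pow_mul, ← pow_mul, mul_comm J 2, pow_mul s 2 J, hs2, ← hw8]
    exact (pow_left_inj₀ (by positivity) (by positivity) (by norm_num)).1 h1
  set u : ℝ := A ^ ((1:ℝ) / 4) with hu
  have hu0 : 0 < u := Real.rpow_pos_of_pos hA0 _
  have hu4 : u ^ 4 = A := by
    rw [hu, ← Real.rpow_natCast, ← Real.rpow_mul hA0.le]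
    norm_num
  have hw1 : 1 ≤ w := by
    rw [hw]
    apply Real.one_le_rpow (by norm_num) (by positivity)
  have hu2 : 1 ≤ 2 * u := by
    by_contra hcon
    push Not at hcon
    have h1 : (2 * u) ^ 4 < 1 ^ 4 := pow_lt_pow_left₀ hcon (by positivity) (by norm_num)
    have h2 : (2 * u) ^ 4 = 16 * A := by rw [mul_pow, hu4]; norm_num
    rw [h2] at h1
    linarith
  have hrho : E (fun ω => ((R (2^J) ω).card : ℝ)) ≤ 146 * (u * w ^ 3) := by
    have hc := chain4 J
    have hp0 : 0 < Real.sqrt 2 * u * w ^ 2 := by positivity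
    have hq0 : 0 < Real.sqrt 18 * w := by positivity
    have hgeo := fin3b_geo s (Real.sqrt 2 * u * w ^ 2) (Real.sqrt 18 * w) hs14 hp0 hq0 (J + 1)
    have hpq : Real.sqrt 2 * u * w ^ 2 * (Real.sqrt 18 * w) = 6 * (u * w ^ 3) := by
      have h36 : Real.sqrt 2 * Real.sqrt 18 = 6 := by
        rw [← Real.sqrt_mul (by norm_num)]
        rw [show (2:ℝ) * 18 = 6 ^ 2 by norm_num]
        exact Real.sqrt_sq (by norm_num)
      calc Real.sqrt 2 * u * w ^ 2 * (Real.sqrt 18 * w) = (Real.sqrt 2 * Real.sqrt 18) * (u * w ^ 3) := by ring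
        _ = _ := by rw [h36]
    rw [hpq] at hgeo
    have hle : ∑ j ∈ range (J+1), min (Real.sqrt ((2:ℝ)^(J-j) * ay (2^j)))
        (18 * (2:ℝ)^((J:ℝ)/4) * (2:ℝ)^((j:ℝ)/2)) ≤
        ∑ j ∈ range (J + 1), min ((Real.sqrt 2 * u * w ^ 2) ^ 2 / s ^ j)
          ((Real.sqrt 18 * w) ^ 2 * s ^ j) := by
      apply Finset.sum_le_sum
      intro j hj
      have hj' := Finset.mem_range.1 hj
      apply min_le_min
      · apply Real.sqrt_le_iff.2
        refine ⟨by positivity, ?_⟩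
        have e1 : (Real.sqrt 2 * u * w ^ 2) ^ 2 / s ^ j = 2 * u ^ 2 * s ^ (J - j) := by
          have h2 : (Real.sqrt 2) ^ 2 = 2 := Real.sq_sqrt (by norm_num)
          have h3 : s ^ (J - j) * s ^ j = s ^ J := by
            rw [← pow_add]; congr 1; omega
          rw [div_eq_iff (by positivity)]
          calc (Real.sqrt 2 * u * w ^ 2) ^ 2 = (Real.sqrt 2) ^ 2 * u ^ 2 * w ^ 4 := by ring
            _ = 2 * u ^ 2 * (s ^ (J - j) * s ^ j) := by rw [h2, hw4, h3]
            _ = _ := by ring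
        rw [e1]
        have e2 : (2 * u ^ 2 * s ^ (J - j)) ^ 2 = 2 ^ (J - j) * (4 * A) := by
          have h3 : (s ^ (J - j)) ^ 2 = 2 ^ (J - j) := by
            rw [← pow_mul, mul_comm, pow_mul, hs2]
          calc (2 * u ^ 2 * s ^ (J - j)) ^ 2 = 4 * u ^ 4 * (s ^ (J - j)) ^ 2 := by ring
            _ = _ := by rw [hu4, h3]; ring
        rw [e2]
        exact mul_le_mul_of_nonneg_left (hay j hj) (by positivity)
      · have e1 : (2:ℝ)^((j:ℝ)/2) = s ^ j := by
          rw [Real.rpow_div_two_eq_sqrt _ (by norm_num), Real.rpow_natCast]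
        have h2 : (Real.sqrt 18) ^ 2 = 18 := Real.sq_sqrt (by norm_num)
        rw [e1, mul_pow, h2, hw2]
    have huw : 1 ≤ 2 * (u * w ^ 3) := by
      have h1 : 1 ≤ w ^ 3 := one_le_pow₀ hw1
      calc 1 ≤ 2 * u := hu2
        _ ≤ 2 * u * w ^ 3 := le_mul_of_one_le_right (by positivity) h1
        _ = _ := by ring
    linarith
  have hmain := main_ineq (2 ^ J)
  rw [ax_ay] at hmain
  have h3 : w ^ 13 ≤ 2336 * u ^ 5 := by
    have h4 : ay (2 ^ J) * E (fun ω => ((R (2^J) ω).card : ℝ)) ≤ (4 * A) * (146 * (u * w ^ 3)) := by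
      have h5 := hay J (Finset.mem_range.2 (by omega))
      calc ay (2 ^ J) * E (fun ω => ((R (2^J) ω).card : ℝ)) ≤ ay (2 ^ J) * (146 * (u * w ^ 3)) :=
            mul_le_mul_of_nonneg_left hrho (hay0 J)
        _ ≤ _ := mul_le_mul_of_nonneg_right h5 (by positivity)
    have h6 : ((2 ^ J : ℕ) : ℝ) ^ 2 / 4 = w ^ 16 / 4 := by
      push_cast
      rw [← hw8]
      ring
    rw [h6] at hmain
    have h7 : w ^ 3 * w ^ 13 ≤ w ^ 3 * (2336 * u ^ 5) := by
      have h8 : w ^ 16 ≤ 4 * ((4 * A) * (146 * (u * w ^ 3))) := by linarith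
      calc w ^ 3 * w ^ 13 = w ^ 16 := by ring
        _ ≤ 4 * ((4 * A) * (146 * (u * w ^ 3))) := h8
        _ = _ := by rw [← hu4]; ring
    exact le_of_mul_le_mul_left h7 (by positivity)
  have hTle : (T:ℝ) ≤ 2 * w ^ 8 := by
    rw [hw8]
    have : (T:ℝ) < 2 ^ (J + 1) := by exact_mod_cast hJ2
    rw [pow_succ] at this
    linarith
  have hT13 : (T:ℝ) ^ (13/10:ℝ) ≤ (2 * w ^ 8) ^ (13/10:ℝ) :=
    Real.rpow_le_rpow (by positivity) hTle (by norm_num)
  have hw13 : (w ^ 8) ^ (13/10:ℝ) = (w ^ 13) ^ (4/5:ℝ) := by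
    rw [← Real.rpow_natCast, ← Real.rpow_natCast, ← Real.rpow_mul hw0.le, ← Real.rpow_mul hw0.le]
    norm_num
  have hu5 : (2336 * u ^ 5) ^ (4/5:ℝ) ≤ 2336 * A := by
    rw [Real.mul_rpow (by norm_num) (by positivity)]
    have e1 : (u ^ 5) ^ (4/5:ℝ) = A := by
      rw [← hu4, ← Real.rpow_natCast, ← Real.rpow_natCast, ← Real.rpow_mul hu0.le]
      norm_num
    rw [e1]
    apply mul_le_mul_of_nonneg_right _ hA0.le
    calc (2336:ℝ) ^ (4/5:ℝ) ≤ 2336 ^ (1:ℝ) := Real.rpow_le_rpow_of_exponent_le (by norm_num) (by norm_num)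
      _ = 2336 := Real.rpow_one _
  have h2p : (2:ℝ) ^ (13/10:ℝ) ≤ 4 := by
    calc (2:ℝ) ^ (13/10:ℝ) ≤ 2 ^ (2:ℝ) := Real.rpow_le_rpow_of_exponent_le (by norm_num) (by norm_num)
      _ = 4 := by norm_num
  have hfin : (T:ℝ) ^ (13/10:ℝ) ≤ 9344 * A := by
    calc (T:ℝ) ^ (13/10:ℝ) ≤ (2 * w ^ 8) ^ (13/10:ℝ) := hT13
      _ = 2 ^ (13/10:ℝ) * (w ^ 13) ^ (4/5:ℝ) := by
          rw [Real.mul_rpow (by norm_num) (by positivity), hw13]
      _ ≤ 4 * (2336 * A) := by
          apply mul_le_mul h2p _ (by positivity) (by norm_num)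
          exact le_trans (Real.rpow_le_rpow (by positivity) h3 (by norm_num)) hu5
      _ = 9344 * A := by ring
  linarith

end MV
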