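import Pool.Agent.Helper870.MV.Defs
import Pool.Agent.Helper870.MV.A1
import Pool.Agent.Helper870.MV.A3
import Pool.Agent.Helper870.MV.A6
import Pool.Agent.Helper870.MV.A9

set_option autoImplicit false
set_option linter.unusedSectionVars false

open Finset MeasureTheory

noncomputable section

-- USES: A1 A3 A6 A9
namespace MV


/-- squared maximal displacement -/
def mlDD (t : ℕ) (ω : Om) : ℝ :=
  (range (t+1)).sup' ⟨0, by simp⟩ (fun s => ((X s ω).1 : ℝ)^2 + ((X s ω).2 : ℝ)^2)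

theorem ml_DD_loc (t : ℕ) : Loc (mlDD t) := by
  refine ⟨t, fun ω ω' h => ?_⟩
  unfold mlDD
  refine Finset.sup'_congr _ rfl ?_
  intro s hs
  rw [Finset.mem_range] at hs
  rw [X_ag t ω ω' h s (by omega)]

theorem ml_DD_ge (t : ℕ) (ω : Om) (s : ℕ) (hs : s ≤ t) :
    ((X s ω).1 : ℝ)^2 + ((X s ω).2 : ℝ)^2 ≤ mlDD t ω := by
  unfold mlDD
  exact Finset.le_sup' (f := fun s => ((X s ω).1 : ℝ)^2 + ((X s ω).2 : ℝ)^2)
    (Finset.mem_range.2 (by omega))

theorem ml_X_one_eq (ω : Om) : X 1 ω = 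
      (if ω (Sum.inl 0) = true then
        ((0:ℤ) + (if ω (Sum.inr (Sum.inl 0)) = true then (1 : ℤ) else -1), (0:ℤ))
      else
        ((0:ℤ), (0:ℤ) + (if ω (Sum.inr (Sum.inr 0)) = true then (1 : ℤ) else -1))) := rfl

theorem ml_X_one (ω : Om) : ((X 1 ω).1 : ℝ)^2 + ((X 1 ω).2 : ℝ)^2 = 1 := by
  rw [ml_X_one_eq]
  by_cases h0 : ω (Sum.inl 0) = true
  · rw [if_pos h0]
    by_cases h1 : ω (Sum.inr (Sum.inl 0)) = true
    · simp [h1]
    · simp [h1]
  · rw [if_neg h0]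
    by_cases h1 : ω (Sum.inr (Sum.inr 0)) = true
    · simp [h1]
    · simp [h1]

theorem ml_DD_one (t : ℕ) (ht : 1 ≤ t) (ω : Om) : 1 ≤ mlDD t ω := by
  rw [← ml_X_one ω]
  exact ml_DD_ge t ω 1 ht

theorem ml_card_le (t : ℕ) (ht : 1 ≤ t) (ω : Om) : ((R t ω).card : ℝ) ≤ 3 * Real.sqrt (mlDD t ω) := by
  have h1 := ml_DD_one t ht ω
  set D := mlDD t ω with hD
  have hs1 : 1 ≤ Real.sqrt D := by
    rw [show (1:ℝ) = Real.sqrt 1 by simp]
    exact Real.sqrt_le_sqrt h1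
  have hsub : R t ω ⊆ Finset.Icc (-(⌊Real.sqrt D⌋₊ : ℤ)) (⌊Real.sqrt D⌋₊ : ℤ) := by
    intro z hz
    unfold R at hz
    rw [Finset.mem_image] at hz
    obtain ⟨s, hs, rfl⟩ := hz
    rw [Finset.mem_filter, Finset.mem_range] at hs
    have h2 := ml_DD_ge t ω s (by omega)
    have h3 : ((X s ω).2 : ℝ)^2 ≤ D := by
      have := sq_nonneg ((X s ω).1 : ℝ)
      rw [← hD] at h2
      linarith
    have h4 : |((X s ω).2 : ℝ)| ≤ Real.sqrt D := Real.abs_le_sqrt h3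
    have h5 : (((X s ω).2.natAbs : ℕ) : ℝ) ≤ Real.sqrt D := by
      rw [Nat.cast_natAbs]
      simpa using h4
    have h6 : (X s ω).2.natAbs ≤ ⌊Real.sqrt D⌋₊ := Nat.le_floor h5
    rw [Finset.mem_Icc]
    omega
  have hc := Finset.card_le_card hsub
  rw [Int.card_Icc] at hc
  have hc2 : (R t ω).card ≤ 2 * ⌊Real.sqrt D⌋₊ + 1 := by omega
  have hfl : ((⌊Real.sqrt D⌋₊ : ℕ) : ℝ) ≤ Real.sqrt D := Nat.floor_le (by linarith)
  have hc3 : ((R t ω).card : ℝ) ≤ 2 * ((⌊Real.sqrt D⌋₊ : ℕ) : ℝ) + 1 := by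
    exact_mod_cast hc2
  linarith

theorem ml_max_lower_aux (t : ℕ) (ht : 1 ≤ t) : (3/10:ℝ) * (t:ℝ)^(4/3:ℝ) ≤ E (mlDD t) := by
  set M := E (mlDD t) with hM
  have hloc := ml_DD_loc t
  have hM1 : 1 ≤ M := by
    have := E_mono (Loc_const 1) hloc (fun ω => ml_DD_one t ht ω)
    rwa [E_const] at this
  have hV : V t ≤ M := by
    unfold V
    exact E_mono (Loc_X t (fun p => (p.1:ℝ)^2 + (p.2:ℝ)^2)) hloc (fun ω => ml_DD_ge t ω t le_rfl)
  have hax : ax t ≤ M / 2 := by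
    have h1 := V_ay t
    have h2 := ax_ay t
    linarith
  have hsl : Loc (fun ω => Real.sqrt (mlDD t ω)) := Loc_comp Real.sqrt hloc
  have hcs : (E (fun ω => Real.sqrt (mlDD t ω)))^2 ≤ M := by
    have h := E_cs hsl (Loc_const 1)
    have e1 : (fun ω : Om => Real.sqrt (mlDD t ω) * (1:ℝ)) = fun ω => Real.sqrt (mlDD t ω) := by
      funext ω; ring
    have e2 : (fun ω : Om => (Real.sqrt (mlDD t ω))^2) = mlDD t := by
      funext ω
      exact Real.sq_sqrt (by have := ml_DD_one t ht ω; linarith)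
    have e3 : (fun _ : Om => (1:ℝ)^2) = fun _ => (1:ℝ) := by
      funext ω; norm_num
    rw [e1, e2, e3, E_const, mul_one] at h
    exact h
  have hsq : E (fun ω => Real.sqrt (mlDD t ω)) ≤ Real.sqrt M := Real.le_sqrt_of_sq_le hcs
  have hcard : E (fun ω => ((R t ω).card : ℝ)) ≤ 3 * Real.sqrt M := by
    have h1 := E_mono (Loc_card t) (Loc_mul (Loc_const 3) hsl) (fun ω => ml_card_le t ht ω)
    rw [E_cmul] at h1
    linarith
  have hcard0 : 0 ≤ E (fun ω => ((R t ω).card : ℝ)) := by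
    have h1 := E_mono (Loc_const 0) (Loc_card t) (fun ω => Nat.cast_nonneg _)
    rwa [E_const] at h1
  have hmain := main_ineq t
  have hprod : ax t * E (fun ω => ((R t ω).card : ℝ)) ≤ (M / 2) * (3 * Real.sqrt M) :=
    mul_le_mul hax hcard hcard0 (by linarith)
  set b := Real.sqrt M with hb
  have hb2 : b^2 = M := Real.sq_sqrt (by linarith)
  have hb0 : 0 ≤ b := Real.sqrt_nonneg _
  have htpos : (0:ℝ) < t := by
    have : 0 < t := ht
    exact_mod_cast this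
  set a := (t:ℝ)^(2/3:ℝ) with ha
  have ha0 : 0 < a := Real.rpow_pos_of_pos htpos _
  have ha2 : (t:ℝ)^(4/3:ℝ) = a^2 := by
    rw [ha, ← Real.rpow_natCast, ← Real.rpow_mul htpos.le]
    norm_num
  have ha3 : (t:ℝ)^2 = a^3 := by
    rw [ha, ← Real.rpow_natCast ((t:ℝ)^(2/3:ℝ)) 3, ← Real.rpow_mul htpos.le]
    norm_num
  have h6 : a^3 ≤ 6 * b^3 := by
    have h7 : (t:ℝ)^2 / 4 ≤ (M / 2) * (3 * b) := le_trans hmain hprod
    rw [ha3, ← hb2] at h7
    nlinarith [h7]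
  rw [ha2, ← hb2]
  by_contra hcon
  push Not at hcon
  have h8 : a^6 ≤ 36 * b^6 := by
    have h9 : (a^3)^2 ≤ (6 * b^3)^2 := pow_le_pow_left₀ (by positivity) h6 2
    nlinarith [h9]
  have h10 : (b^2)^3 ≤ ((3/10:ℝ) * a^2)^3 := pow_le_pow_left₀ (by positivity) hcon.le 3
  have h11 : b^6 ≤ (27/1000) * a^6 := by nlinarith [h10]
  have h12 : 0 < a^6 := by positivity
  linarith

/-- the expected squared maximal displacement has at least the conjectured order at every time -/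
theorem max_lower (t : ℕ) (ht : 1 ≤ t) : (3/10:ℝ) * (t:ℝ)^(4/3:ℝ) ≤
    E (fun ω => (range (t+1)).sup' ⟨0, by simp⟩ (fun s => ((X s ω).1 : ℝ)^2 + ((X s ω).2 : ℝ)^2)) :=
  ml_max_lower_aux t ht

end MV
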